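import Pool.Agent.H95G.Pair

/-!
# The integral of `1 / H ^ 2` and an equidistant chain (helper file for MP_f9af53_co)
-/

namespace Pool.Agent.H95G

open Real Finset

/-- One step: the integral over the normal cone at the vertex of angle `θ`. -/
theorem kappa_step {G H : ℝ → ℝ} (h : IsPair G H) {θ y x : ℝ} (hy : -(π / 2) < y) (hyx : y ≤ x)
    (hx : x < π / 2) :
    ∫ t in (θ + y)..(θ + x), 1 / H t ^ 2 ≤ G θ ^ 2 * (tan x - tan y) := by
  have hab : θ + y ≤ θ + x := by linarith
  have hcos : ∀ t ∈ Set.Icc (θ + y) (θ + x), 0 < cos (t - θ) := by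
    intro t ht
    apply cos_pos_of_mem_Ioo
    exact ⟨by linarith [ht.1], by linarith [ht.2]⟩
  have hder : ∀ t ∈ Set.uIcc (θ + y) (θ + x),
      HasDerivAt (fun t => G θ ^ 2 * tan (t - θ)) (G θ ^ 2 * (1 / cos (t - θ) ^ 2)) t := by
    intro t ht
    rw [Set.uIcc_of_le hab] at ht
    have h1 : HasDerivAt tan (1 / cos (t - θ) ^ 2) (t - θ) := hasDerivAt_tan (hcos t ht).ne'
    have h2 : HasDerivAt (fun t : ℝ => t - θ) 1 t := (hasDerivAt_id t).sub_const θ
    have h3 := (h1.comp t h2).const_mul (G θ ^ 2)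
    simpa using h3
  have hcont : ContinuousOn (fun t => G θ ^ 2 * (1 / cos (t - θ) ^ 2))
      (Set.uIcc (θ + y) (θ + x)) := by
    rw [Set.uIcc_of_le hab]
    apply ContinuousOn.mul continuousOn_const
    apply ContinuousOn.div continuousOn_const
    · fun_prop
    · intro t ht
      exact pow_ne_zero 2 (hcos t ht).ne'
  have hint := intervalIntegral.integral_eq_sub_of_hasDerivAt hder hcont.intervalIntegrable
  have hval : ∫ t in (θ + y)..(θ + x), G θ ^ 2 * (1 / cos (t - θ) ^ 2)
      = G θ ^ 2 * (tan x - tan y) := by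
    rw [hint]
    simp only [add_sub_cancel_left]
    ring
  rw [← hval]
  apply intervalIntegral.integral_mono_on hab
  · apply Continuous.intervalIntegrable
    exact continuous_const.div (h.contH.pow 2) (fun s => by have := h.posH s; positivity)
  · exact hcont.intervalIntegrable
  · intro t ht
    have h1 := h.le θ t
    have h2 := hcos t ht
    have h3 : cos (θ - t) = cos (t - θ) := by rw [← cos_neg, neg_sub]
    rw [h3] at h1
    have h4 := h.posH t
    have h5 := h.posG θ
    have h6 : cos (t - θ) ^ 2 ≤ G θ ^ 2 * H t ^ 2 := by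
      rw [← mul_pow]
      exact pow_le_pow_left₀ h2.le h1 2
    rw [mul_one_div, div_le_div_iff₀ (by positivity) (by positivity)]
    linarith

theorem kappa_sum {G H : ℝ → ℝ} (h : IsPair G H) {m : ℕ} (hm : 3 ≤ m) :
    ∫ t in (0:ℝ)..2 * π, 1 / H t ^ 2 ≤ ∑ j ∈ range m,
      G ((j + 1) * (2 * π / m)) * (G ((j + 2) * (2 * π / m)) + G (j * (2 * π / m))
        - 2 * cos (2 * π / m) * G ((j + 1) * (2 * π / m))) / sin (2 * π / m) := by
  have hpi := pi_pos
  have hm' : (3 : ℝ) ≤ m := by exact_mod_cast hm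
  have hm0 : (0 : ℝ) < m := by linarith
  set D : ℝ := 2 * π / m with hD
  have hDm : m * D = 2 * π := by rw [hD]; field_simp
  have hD0 : 0 < D := by rw [hD]; positivity
  have hDpi : D < π := by nlinarith
  have hs : 0 < sin D := sin_pos_of_pos_of_lt_pi hD0 hDpi
  set g : ℕ → ℝ := fun j => G (j * D) with hg
  have gpos : ∀ j, 0 < g j := fun j => h.posG _
  -- convexity
  have conv : ∀ j, 0 ≤ g (j + 2) + g j - 2 * cos D * g (j + 1) := by
    intro j
    by_cases h4 : 4 ≤ m
    · have h4' : (4 : ℝ) ≤ m := by exact_mod_cast h4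
      have h5 : 2 * D ≤ π := by nlinarith
      have h6 := h.subl (a := j * D) (s := (j + 1) * D) (b := (j + 2) * D) (by nlinarith)
        (by nlinarith) (by nlinarith)
      have e1 : ((j:ℝ) + 2) * D - j * D = 2 * D := by ring
      have e2 : ((j:ℝ) + 2) * D - (j + 1) * D = D := by ring
      have e3 : ((j:ℝ) + 1) * D - j * D = D := by ring
      rw [e1, e2, e3, sin_two_mul] at h6
      have e4 : g (j + 2) = G ((j + 2) * D) := by simp [hg]
      have e5 : g (j + 1) = G ((j + 1) * D) := by simp [hg]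
      have e6 : g j = G (j * D) := rfl
      rw [← e4, ← e5, ← e6] at h6
      have h7 : 0 ≤ (g (j + 2) + g j - 2 * cos D * g (j + 1)) * sin D := by nlinarith
      exact nonneg_of_mul_nonneg_left h7 hs
    · have h5 : m = 3 := by omega
      have h6 : cos D ≤ 0 := by
        apply cos_nonpos_of_pi_div_two_le_of_le
        · rw [hD, h5]; push_cast; linarith
        · linarith
      have h7 := gpos j
      have h8 := gpos (j + 1)
      have h9 := gpos (j + 2)
      nlinarith [mul_nonneg (neg_nonneg.2 h6) h8.le]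
  set x : ℕ → ℝ := fun j => arctan ((g (j + 1) / g j - cos D) / sin D) with hx
  have tx : ∀ j, tan (x j) = (g (j + 1) / g j - cos D) / sin D := fun j => tan_arctan _
  have xlo : ∀ j, -(π / 2) < x j := fun j => neg_pi_div_two_lt_arctan _
  have xhi : ∀ j, x j < π / 2 := fun j => arctan_lt_pi_div_two _
  have cx : ∀ j, 0 < cos (x j) := fun j => cos_arctan_pos _
  have sx : ∀ j, sin (x j) * sin D = cos (x j) * (g (j + 1) / g j - cos D) := by
    intro j
    have h1 := tx j
    rw [tan_eq_sin_div_cos, div_eq_div_iff (cx j).ne' hs.ne'] at h1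
    rw [h1]; ring
  have cy : ∀ j, cos (x j - D) = cos (x j) * (g (j + 1) / g j) := by
    intro j
    rw [cos_sub, sx j]; ring
  have cy0 : ∀ j, 0 < cos (x j - D) := by
    intro j
    rw [cy j]
    exact mul_pos (cx j) (div_pos (gpos _) (gpos _))
  have ylo : ∀ j, -(π / 2) < x j - D := by
    intro j
    by_contra hcon
    rw [not_lt] at hcon
    have h1 := cos_nonpos_of_pi_div_two_le_of_le (x := -(x j - D)) (by linarith)
      (by have := xlo j; linarith)
    rw [cos_neg] at h1
    linarith [cy0 j]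
  have yhi : ∀ j, x j - D < π / 2 := fun j => by linarith [xhi j]
  have ty : ∀ j, tan (x j - D) = (cos D - g j / g (j + 1)) / sin D := by
    intro j
    have h0 := gpos j
    have h0' := gpos (j + 1)
    have h1 := sx j
    have h2 := cx j
    rw [tan_eq_sin_div_cos, cy j, div_eq_div_iff (by positivity) hs.ne', sin_sub]
    have h3 : (sin (x j) * cos D - cos (x j) * sin D) * sin D
        = (sin (x j) * sin D) * cos D - cos (x j) * sin D ^ 2 := by ring
    have h4 : sin D ^ 2 = 1 - cos D ^ 2 := by rw [sin_sq]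
    rw [h3, h1, h4]
    field_simp
    ring
  have hyx : ∀ j, x j - D ≤ x (j + 1) ∧
      tan (x (j + 1)) - tan (x j - D)
        = (g (j + 2) + g j - 2 * cos D * g (j + 1)) / (g (j + 1) * sin D) := by
    intro j
    have h0 := gpos (j + 1)
    have e : tan (x (j + 1)) - tan (x j - D)
        = (g (j + 2) + g j - 2 * cos D * g (j + 1)) / (g (j + 1) * sin D) := by
      rw [tx (j + 1), ty j]
      have : j + 1 + 1 = j + 2 := rfl
      rw [this]
      field_simp
      ring
    refine ⟨?_, e⟩
    by_contra hcon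
    rw [not_le] at hcon
    have h1 := strictMonoOn_tan ⟨xlo (j + 1), xhi (j + 1)⟩ ⟨ylo j, yhi j⟩ hcon
    have h2 : 0 ≤ (g (j + 2) + g j - 2 * cos D * g (j + 1)) / (g (j + 1) * sin D) :=
      div_nonneg (conv j) (by positivity)
    linarith
  set ψ : ℕ → ℝ := fun j => j * D + x j with hψ
  have hstep : ∀ j, ∫ t in ψ j..ψ (j + 1), 1 / H t ^ 2
      ≤ g (j + 1) * (g (j + 2) + g j - 2 * cos D * g (j + 1)) / sin D := by
    intro j
    have h1 := kappa_step h (θ := (j + 1 : ℕ) * D) (ylo j) (hyx j).1 (xhi (j + 1))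
    have e1 : ((j + 1 : ℕ) : ℝ) * D + (x j - D) = ψ j := by
      simp only [hψ]; push_cast; ring
    have e2 : ((j + 1 : ℕ) : ℝ) * D + x (j + 1) = ψ (j + 1) := rfl
    rw [e1, e2, (hyx j).2] at h1
    refine h1.trans (le_of_eq ?_)
    have h0 := gpos (j + 1)
    have e3 : G (((j + 1 : ℕ) : ℝ) * D) = g (j + 1) := rfl
    rw [e3]
    field_simp
  have hH : Continuous (fun t => 1 / H t ^ 2) :=
    continuous_const.div (h.contH.pow 2) (fun s => by have := h.posH s; positivity)
  have hsum : ∑ j ∈ range m, ∫ t in ψ j..ψ (j + 1), 1 / H t ^ 2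
      = ∫ t in ψ 0..ψ m, 1 / H t ^ 2 :=
    intervalIntegral.sum_integral_adjacent_intervals
      (fun k _ => hH.intervalIntegrable _ _)
  have gper : ∀ j, g (j + m) = g j := by
    intro j
    simp only [hg]
    have : ((j + m : ℕ) : ℝ) * D = j * D + 2 * π := by push_cast; rw [← hDm]; ring
    rw [this, h.perG]
  have hψm : ψ m = ψ 0 + 2 * π := by
    have h1 : g m = g 0 := by simpa using gper 0
    have h2 : g (m + 1) = g (0 + 1) := by rw [← gper (0 + 1)]; congr 1; ring
    have h3 : x m = x 0 := by simp only [hx]; rw [h1, h2]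
    simp only [hψ]
    rw [h3, hDm]
    push_cast
    ring
  have hper : Function.Periodic (fun t => 1 / H t ^ 2) (2 * π) := by
    intro t
    simp only [h.perH t]
  have h0 : ∫ t in (0:ℝ)..2 * π, 1 / H t ^ 2 = ∫ t in ψ 0..ψ m, 1 / H t ^ 2 := by
    rw [hψm]
    have := hper.intervalIntegral_add_eq 0 (ψ 0)
    rw [zero_add] at this
    exact this
  rw [h0, ← hsum]
  apply sum_le_sum
  intro j _
  refine (hstep j).trans (le_of_eq ?_)
  have e1 : g (j + 1) = G ((j + 1) * D) := by simp [hg]
  have e2 : g (j + 2) = G ((j + 2) * D) := by simp [hg]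
  rw [e1, e2]

end Pool.Agent.H95G
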