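import Pool.Agent.H95G.Pair

/-!
# Trigonometric quadrature on a regular grid (helper file for MP_f9af53_co)
-/

namespace Pool.Agent.H95G

open Real Finset Filter Topology

theorem sin_add_sin_le {a b t : ℝ} (hab : b - a < π) (h1 : a ≤ t) (h2 : t ≤ b) :
    cos ((b - a) / 2) * (sin (b - t) + sin (t - a)) ≤ sin (b - a) := by
  have e1 : sin (b - t) + sin (t - a) = 2 * sin ((b - a) / 2) * cos ((b + a) / 2 - t) := by
    have h1 : sin (b - t) = sin ((b - a) / 2 + ((b + a) / 2 - t)) := by congr 1; ring
    have h2 : sin (t - a) = sin ((b - a) / 2 - ((b + a) / 2 - t)) := by congr 1; ring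
    rw [h1, h2, sin_add ((b - a) / 2) ((b + a) / 2 - t), sin_sub ((b - a) / 2) ((b + a) / 2 - t)]
    ring
  have e2 : sin (b - a) = 2 * sin ((b - a) / 2) * cos ((b - a) / 2) := by
    rw [← sin_two_mul]; congr 1; ring
  rw [e1, e2]
  have hs : 0 ≤ sin ((b - a) / 2) := sin_nonneg_of_nonneg_of_le_pi (by linarith) (by linarith)
  have hc : 0 ≤ cos ((b - a) / 2) := cos_nonneg_of_mem_Icc ⟨by linarith, by linarith⟩
  have := cos_le_one ((b + a) / 2 - t)
  have h3 := mul_le_mul_of_nonneg_left this (mul_nonneg hs hc)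
  nlinarith

/-- The weights of the quadrature formula. -/
noncomputable def wA (G : ℝ → ℝ) (q j : ℕ) : ℝ :=
  ∫ t in (j * (π / q))..((j + 1) * (π / q)),
    sin ((j + 1) * (π / q) - t) / sin (π / q) * (1 / G t ^ 3)

/-- The weights of the quadrature formula. -/
noncomputable def wB (G : ℝ → ℝ) (q j : ℕ) : ℝ :=
  ∫ t in (j * (π / q))..((j + 1) * (π / q)),
    sin (t - j * (π / q)) / sin (π / q) * (1 / G t ^ 3)

variable {G : ℝ → ℝ}

theorem cont_inv3 (hG : Continuous G) (hp : ∀ t, 0 < G t) : Continuous fun t => 1 / G t ^ 3 :=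
  continuous_const.div (hG.pow 3) (fun s => pow_ne_zero 3 (hp s).ne')

theorem sin_pos_q {q : ℕ} (hq : 2 ≤ q) : 0 < sin (π / q) := by
  have hq' : (2:ℝ) ≤ q := by exact_mod_cast hq
  apply sin_pos_of_pos_of_lt_pi (by positivity)
  rw [div_lt_iff₀ (by linarith)]
  nlinarith [pi_pos]

theorem cos_pos_q {q : ℕ} (hq : 2 ≤ q) : 0 < cos (π / q / 2) := by
  have hq' : (2:ℝ) ≤ q := by exact_mod_cast hq
  have h1 : π / q ≤ π / 2 := div_le_div_of_nonneg_left pi_pos.le (by norm_num) hq'
  apply cos_pos_of_mem_Ioo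
  constructor
  · have : 0 ≤ π / q / 2 := by positivity
    linarith [pi_pos]
  · linarith [pi_pos]

theorem wA_pos (hG : Continuous G) (hp : ∀ t, 0 < G t) {q : ℕ} (hq : 2 ≤ q) (j : ℕ) :
    0 < wA G q j := by
  have hq' : (2:ℝ) ≤ q := by exact_mod_cast hq
  have hΔ : 0 < π / q := by positivity
  have hΔ2 : π / q ≤ π / 2 := div_le_div_of_nonneg_left pi_pos.le (by norm_num) hq'
  apply intervalIntegral.intervalIntegral_pos_of_pos_on
  · apply Continuous.intervalIntegrable
    have := cont_inv3 hG hp
    fun_prop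
  · intro t ht
    have h1 : 0 < sin ((j + 1) * (π / q) - t) := by
      apply sin_pos_of_pos_of_lt_pi
      · linarith [ht.2]
      · nlinarith [ht.1, pi_pos]
    have h2 := sin_pos_q hq
    have h3 := hp t
    positivity
  · nlinarith

theorem wB_pos (hG : Continuous G) (hp : ∀ t, 0 < G t) {q : ℕ} (hq : 2 ≤ q) (j : ℕ) :
    0 < wB G q j := by
  have hq' : (2:ℝ) ≤ q := by exact_mod_cast hq
  have hΔ : 0 < π / q := by positivity
  have hΔ2 : π / q ≤ π / 2 := div_le_div_of_nonneg_left pi_pos.le (by norm_num) hq'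
  apply intervalIntegral.intervalIntegral_pos_of_pos_on
  · apply Continuous.intervalIntegrable
    have := cont_inv3 hG hp
    fun_prop
  · intro t ht
    have h1 : 0 < sin (t - j * (π / q)) := by
      apply sin_pos_of_pos_of_lt_pi
      · linarith [ht.1]
      · nlinarith [ht.2, pi_pos]
    have h2 := sin_pos_q hq
    have h3 := hp t
    positivity
  · nlinarith

theorem wAB_eq (hG : Continuous G) (hp : ∀ t, 0 < G t) (q j : ℕ) (x y : ℝ) :
    wA G q j * x + wB G q j * y = ∫ t in (j * (π / q))..((j + 1) * (π / q)),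
      (sin ((j + 1) * (π / q) - t) * x + sin (t - j * (π / q)) * y) / sin (π / q)
        * (1 / G t ^ 3) := by
  have hc := cont_inv3 hG hp
  rw [wA, wB, ← intervalIntegral.integral_mul_const, ← intervalIntegral.integral_mul_const,
    ← intervalIntegral.integral_add]
  · congr 1
    ext t
    ring
  · apply Continuous.intervalIntegrable; fun_prop
  · apply Continuous.intervalIntegrable; fun_prop

/-- Exactness for `P` with `P t sin Δ = sin (b - t) P a + sin (t - a) P b`. -/
theorem wAB_sum_exact (hG : Continuous G) (hp : ∀ t, 0 < G t) {q : ℕ} (hq : 2 ≤ q) {P : ℝ → ℝ}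
    (hP : Continuous P)
    (hex : ∀ a b t, sin (b - t) * P a + sin (t - a) * P b = sin (b - a) * P t) :
    ∑ j ∈ range (2 * q), (wA G q j * P (j * (π / q)) + wB G q j * P ((j + 1) * (π / q)))
      = ∫ t in (0:ℝ)..2 * π, P t / G t ^ 3 := by
  have hc := cont_inv3 hG hp
  have hs := sin_pos_q hq
  have hq' : (2:ℝ) ≤ q := by exact_mod_cast hq
  have h1 : ∀ j ∈ range (2 * q), (wA G q j * P (j * (π / q)) + wB G q j * P ((j + 1) * (π / q)))
      = ∫ t in ((j : ℕ) * (π / q) : ℝ)..((j + 1 : ℕ) * (π / q) : ℝ), P t / G t ^ 3 := by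
    intro j _
    rw [wAB_eq hG hp]
    push_cast
    apply intervalIntegral.integral_congr
    intro t _
    simp only
    rw [hex]
    have : (↑j + 1) * (π / ↑q) - ↑j * (π / ↑q) = π / q := by ring
    rw [this]
    field_simp
  rw [sum_congr rfl h1]
  have hc2 : Continuous fun t => P t / G t ^ 3 := by
    have : (fun t => P t / G t ^ 3) = fun t => P t * (1 / G t ^ 3) := by ext t; ring
    rw [this]; fun_prop
  have := intervalIntegral.sum_integral_adjacent_intervals (f := fun t => P t / G t ^ 3)
    (μ := MeasureTheory.volume) (a := fun j : ℕ => (j : ℝ) * (π / q)) (n := 2 * q)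
    (fun k _ => hc2.intervalIntegrable _ _)
  rw [this]
  congr 1
  · push_cast; ring
  · push_cast
    field_simp

/-- The quadrature formula is asymptotically exact. -/
theorem wAB_sum_approx (hG : Continuous G) (hp : ∀ t, 0 < G t) {P : ℝ → ℝ} (hP : Continuous P)
    {ε : ℝ} (hε : 0 < ε) :
    ∀ᶠ q : ℕ in atTop, |∑ j ∈ range (2 * q), (wA G q j * P (j * (π / q))
      + wB G q j * P ((j + 1) * (π / q))) - ∫ t in (0:ℝ)..2 * π, P t / G t ^ 3| ≤ ε := by
  have hc := cont_inv3 hG hp
  set I := ∫ t in (0:ℝ)..2 * π, 1 / G t ^ 3 with hI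
  have hI0 : 0 ≤ I := intervalIntegral.integral_nonneg (by positivity)
    (fun t _ => by have := hp t; positivity)
  -- bound for P
  obtain ⟨M, hM⟩ : ∃ M, ∀ t ∈ Set.Icc (0:ℝ) (2 * π), |P t| ≤ M := by
    obtain ⟨M, hM⟩ := (isCompact_Icc (a := (0:ℝ)) (b := 2 * π)).exists_bound_of_continuousOn
      hP.continuousOn
    exact ⟨M, fun t ht => by simpa using hM t ht⟩
  have hM0 : 0 ≤ M := (abs_nonneg _).trans (hM 0 ⟨le_refl _, by positivity⟩)
  -- modulus of continuity
  set η := ε / (4 * (I + 1)) with hη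
  have hη0 : 0 < η := by positivity
  have huc := (isCompact_Icc (a := (0:ℝ)) (b := 2 * π)).uniformContinuousOn_of_continuous
    hP.continuousOn
  rw [Metric.uniformContinuousOn_iff] at huc
  obtain ⟨δ, hδ, hδ2⟩ := huc η hη0
  -- eventually
  have hlim : Tendsto (fun q : ℕ => π / (q:ℝ)) atTop (𝓝 0) := tendsto_const_div_atTop_nhds_zero_nat π
  have hlim2 : Tendsto (fun q : ℕ => cos (π / (q:ℝ) / 2)) atTop (𝓝 1) := by
    have : Tendsto (fun q : ℕ => cos (π / (q:ℝ) / 2)) atTop (𝓝 (cos (0 / 2))) :=
      (continuous_cos.tendsto _).comp (hlim.div_const 2)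
    simpa using this
  have hlim3 : Tendsto (fun q : ℕ => M * (1 / cos (π / (q:ℝ) / 2) - 1)) atTop (𝓝 0) := by
    have h1 : Tendsto (fun q : ℕ => M * (1 / cos (π / (q:ℝ) / 2) - 1)) atTop
        (𝓝 (M * (1 / 1 - 1))) :=
      ((tendsto_const_nhds.div hlim2 one_ne_zero).sub_const 1).const_mul M
    simpa using h1
  have ev1 : ∀ᶠ q : ℕ in atTop, π / (q:ℝ) < δ := hlim.eventually (gt_mem_nhds hδ)
  have ev2 : ∀ᶠ q : ℕ in atTop, 1 / 2 < cos (π / (q:ℝ) / 2) :=
    hlim2.eventually (lt_mem_nhds (by norm_num))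
  have ev3 : ∀ᶠ q : ℕ in atTop, M * (1 / cos (π / (q:ℝ) / 2) - 1) < η :=
    hlim3.eventually (gt_mem_nhds hη0)
  filter_upwards [ev1, ev2, ev3, eventually_ge_atTop 2] with q h1 h2 h3 hq
  have hs := sin_pos_q hq
  have hq' : (2:ℝ) ≤ q := by exact_mod_cast hq
  have hΔ : 0 < π / q := by positivity
  have hΔ2 : π / q ≤ π / 2 := div_le_div_of_nonneg_left pi_pos.le (by norm_num) hq'
  have hc2 : Continuous fun t => P t / G t ^ 3 := by
    have : (fun t => P t / G t ^ 3) = fun t => P t * (1 / G t ^ 3) := by ext t; ring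
    rw [this]; fun_prop
  have hend : (((2 * q : ℕ) : ℝ)) * (π / q) = 2 * π := by push_cast; field_simp
  have hsplit := intervalIntegral.sum_integral_adjacent_intervals (f := fun t => P t / G t ^ 3)
    (μ := MeasureTheory.volume) (a := fun j : ℕ => (j : ℝ) * (π / q)) (n := 2 * q)
    (fun k _ => hc2.intervalIntegrable _ _)
  have hsplitI := intervalIntegral.sum_integral_adjacent_intervals (f := fun t => 1 / G t ^ 3)
    (μ := MeasureTheory.volume) (a := fun j : ℕ => (j : ℝ) * (π / q)) (n := 2 * q)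
    (fun k _ => hc.intervalIntegrable _ _)
  rw [hend] at hsplit hsplitI
  simp only [Nat.cast_zero, zero_mul] at hsplit hsplitI
  rw [← hsplit, ← sum_sub_distrib]
  have hterm : ∀ j ∈ range (2 * q), |wA G q j * P (j * (π / q)) + wB G q j * P ((j + 1) * (π / q))
      - ∫ t in ((j : ℕ) * (π / q) : ℝ)..((j + 1 : ℕ) * (π / q) : ℝ), P t / G t ^ 3|
      ≤ ε / (I + 1) * ∫ t in ((j : ℕ) * (π / q) : ℝ)..((j + 1 : ℕ) * (π / q) : ℝ), 1 / G t ^ 3 := by
    intro j hj
    rw [mem_range] at hj
    have hj' : ((j:ℝ) + 1) * (π / q) ≤ 2 * π := by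
      rw [← hend]
      apply mul_le_mul_of_nonneg_right _ hΔ.le
      exact_mod_cast hj
    have hj0 : (0:ℝ) ≤ j * (π / q) := by positivity
    have hle : (j:ℝ) * (π / q) ≤ (j + 1) * (π / q) := by nlinarith
    rw [wAB_eq hG hp]
    push_cast
    rw [← intervalIntegral.integral_sub (by apply Continuous.intervalIntegrable; fun_prop)
      (hc2.intervalIntegrable _ _), ← intervalIntegral.integral_const_mul]
    rw [← Real.norm_eq_abs]
    refine intervalIntegral.norm_integral_le_of_norm_le hle ?_ ?_
    · refine Filter.Eventually.of_forall fun t ht => ?_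
      have ht1 : (j:ℝ) * (π / q) ≤ t := ht.1.le
      have ht2 : t ≤ (j + 1) * (π / q) := ht.2
      set a := (j:ℝ) * (π / q) with ha
      set b := ((j:ℝ) + 1) * (π / q) with hb
      have hba : b - a = π / q := by rw [ha, hb]; ring
      have hPa : |P a - P t| ≤ η := by
        have := hδ2 a ⟨hj0, by linarith⟩ t ⟨by linarith, by linarith⟩ (by
          rw [Real.dist_eq, abs_sub_comm, abs_of_nonneg (by linarith)]; linarith)
        rw [Real.dist_eq] at this; exact this.le
      have hPb : |P b - P t| ≤ η := by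
        have := hδ2 b ⟨by linarith, hj'⟩ t ⟨by linarith, by linarith⟩ (by
          rw [Real.dist_eq, abs_of_nonneg (by linarith)]; linarith)
        rw [Real.dist_eq] at this; exact this.le
      have hPt : |P t| ≤ M := hM t ⟨by linarith, by linarith⟩
      have s1 : 0 ≤ sin (b - t) := sin_nonneg_of_nonneg_of_le_pi (by linarith) (by linarith [pi_pos])
      have s2 : 0 ≤ sin (t - a) := sin_nonneg_of_nonneg_of_le_pi (by linarith) (by linarith [pi_pos])
      have hsum := sin_add_sin_le (a := a) (b := b) (t := t) (by rw [hba]; linarith [pi_pos])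
        ht1 ht2
      rw [hba] at hsum
      have hcq : 0 < cos (π / q / 2) := by linarith
      have hsum2 : sin (b - t) + sin (t - a) ≤ sin (π / q) * (1 / cos (π / q / 2)) := by
        rw [mul_one_div, le_div_iff₀ hcq]; linarith
      have hsum3 : sin (π / q) ≤ sin (b - t) + sin (t - a) := by
        rw [← hba]
        have : b - a = (b - t) + (t - a) := by ring
        rw [this, sin_add]
        have g1 := mul_le_mul_of_nonneg_left (cos_le_one (t - a)) s1
        have g2 := mul_le_mul_of_nonneg_right (cos_le_one (b - t)) s2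
        linarith
      have hkey : |(sin (b - t) * P a + sin (t - a) * P b) - sin (π / q) * P t|
          ≤ sin (π / q) * (ε / (I + 1)) := by
        have e : (sin (b - t) * P a + sin (t - a) * P b) - sin (π / q) * P t
          = sin (b - t) * (P a - P t) + sin (t - a) * (P b - P t)
            + (sin (b - t) + sin (t - a) - sin (π / q)) * P t := by ring
        rw [e]
        have b1 : |sin (b - t) * (P a - P t)| ≤ sin (b - t) * η := by
          rw [abs_mul, abs_of_nonneg s1]; exact mul_le_mul_of_nonneg_left hPa s1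
        have b2 : |sin (t - a) * (P b - P t)| ≤ sin (t - a) * η := by
          rw [abs_mul, abs_of_nonneg s2]; exact mul_le_mul_of_nonneg_left hPb s2
        have b3 : |(sin (b - t) + sin (t - a) - sin (π / q)) * P t|
            ≤ (sin (b - t) + sin (t - a) - sin (π / q)) * M := by
          rw [abs_mul, abs_of_nonneg (by linarith)]
          exact mul_le_mul_of_nonneg_left hPt (by linarith)
        have b4 : (sin (b - t) + sin (t - a) - sin (π / q)) * M ≤ sin (π / q) * η := by
          calc _ ≤ (sin (π / q) * (1 / cos (π / q / 2)) - sin (π / q)) * M :=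
                mul_le_mul_of_nonneg_right (by linarith) hM0
            _ = sin (π / q) * (M * (1 / cos (π / q / 2) - 1)) := by ring
            _ ≤ _ := mul_le_mul_of_nonneg_left h3.le hs.le
        have b5 : (sin (b - t) + sin (t - a)) * η ≤ sin (π / q) * (2 * η) := by
          have : 1 / cos (π / q / 2) ≤ 2 := by
            rw [div_le_iff₀ hcq]; linarith
          calc _ ≤ (sin (π / q) * (1 / cos (π / q / 2))) * η :=
                mul_le_mul_of_nonneg_right hsum2 hη0.le
            _ ≤ (sin (π / q) * 2) * η :=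
                mul_le_mul_of_nonneg_right (mul_le_mul_of_nonneg_left this hs.le) hη0.le
            _ = _ := by ring
        have b6 : sin (π / q) * (ε / (I + 1)) = sin (π / q) * (4 * η) := by
          rw [hη]; field_simp
        rw [b6]
        have habs := abs_add_three (sin (b - t) * (P a - P t)) (sin (t - a) * (P b - P t))
          ((sin (b - t) + sin (t - a) - sin (π / q)) * P t)
        have hse : 0 ≤ sin (π / q) * η := by positivity
        linarith
      have hG3 : 0 < 1 / G t ^ 3 := by have := hp t; positivity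
      have e2 : (sin (b - t) * P a + sin (t - a) * P b) / sin (π / q) * (1 / G t ^ 3)
          - P t / G t ^ 3 = ((sin (b - t) * P a + sin (t - a) * P b) - sin (π / q) * P t)
            / sin (π / q) * (1 / G t ^ 3) := by
        field_simp
      rw [e2, norm_mul, Real.norm_eq_abs, Real.norm_eq_abs, abs_div, abs_of_pos hs,
        abs_of_pos hG3]
      apply mul_le_mul_of_nonneg_right _ hG3.le
      rw [div_le_iff₀ hs]
      linarith
    · apply Continuous.intervalIntegrable; fun_prop
  calc |∑ j ∈ range (2 * q), _| ≤ ∑ j ∈ range (2 * q), _ := abs_sum_le_sum_abs _ _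
    _ ≤ ∑ j ∈ range (2 * q), ε / (I + 1) *
        ∫ t in ((j : ℕ) * (π / q) : ℝ)..((j + 1 : ℕ) * (π / q) : ℝ), 1 / G t ^ 3 :=
        sum_le_sum hterm
    _ = ε / (I + 1) * I := by rw [← mul_sum, hsplitI]
    _ ≤ ε := by
      rw [div_mul_eq_mul_div, div_le_iff₀ (by positivity)]
      nlinarith

end Pool.Agent.H95G
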