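import Pool.Agent.H95G.Quad
import Pool.Agent.H95G.Kappa
import Pool.Agent.H95G.Quadr

/-!
# The planar Blaschke-Santalo inequality (helper file for MP_f9af53_co)
-/

namespace Pool.Agent.H95G

open Real Finset Filter Topology

theorem sum_shift {m : ℕ} {f : ℕ → ℝ} (hf : f m = f 0) :
    ∑ j ∈ range m, f (j + 1) = ∑ j ∈ range m, f j := by
  have h1 := sum_range_succ f m
  have h2 := sum_range_succ' f m
  linarith

variable {G H : ℝ → ℝ}

theorem grid_per {q : ℕ} (hq : 2 ≤ q) {f : ℝ → ℝ} (hf : ∀ t, f (t + 2 * π) = f t) (j : ℕ) :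
    f (((j + 2 * q : ℕ) : ℝ) * (π / q)) = f (j * (π / q)) := by
  have hq' : (2:ℝ) ≤ q := by exact_mod_cast hq
  have : ((j + 2 * q : ℕ) : ℝ) * (π / q) = j * (π / q) + 2 * π := by
    push_cast; field_simp
  rw [this, hf]

theorem key_q (h : IsPair G H) (hc : ∫ t in (0:ℝ)..2 * π, cos t / G t ^ 3 = 0)
    (hs : ∫ t in (0:ℝ)..2 * π, sin t / G t ^ 3 = 0) {q : ℕ} (hq : 2 ≤ q) {C S : ℝ → ℝ}
    (hC : ∀ t, C (t + 2 * π) = C t) (hS : ∀ t, S (t + 2 * π) = S t)
    (hCS : ∀ t, C t ^ 2 + S t ^ 2 = 1) {M1 M2 : ℝ}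
    (hM1 : ∑ j ∈ range (2 * q), (wA G q j * (G (j * (π / q)) * (C (j * (π / q)) - M1))
      + wB G q j * (G ((j + 1) * (π / q)) * (C ((j + 1) * (π / q)) - M1))) = 0)
    (hM2 : ∑ j ∈ range (2 * q), (wA G q j * (G (j * (π / q)) * (S (j * (π / q)) - M2))
      + wB G q j * (G ((j + 1) * (π / q)) * (S ((j + 1) * (π / q)) - M2))) = 0) :
    (1 - 2 * (|M1| + |M2|)) * ∑ j ∈ range (2 * q),
      G ((j + 1) * (π / q)) * (G ((j + 2) * (π / q)) + G (j * (π / q))
        - 2 * cos (π / q) * G ((j + 1) * (π / q))) ≤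
    ∑ j ∈ range (2 * q), G (j * (π / q)) * G ((j + 1) * (π / q)) *
      ((C ((j + 1) * (π / q)) - C (j * (π / q))) ^ 2
        + (S ((j + 1) * (π / q)) - S (j * (π / q))) ^ 2) := by
  have hq' : (2:ℝ) ≤ q := by exact_mod_cast hq
  have hΔ : 0 < π / q := by positivity
  have hΔ2 : π / q ≤ π / 2 := div_le_div_of_nonneg_left pi_pos.le (by norm_num) hq'
  have hsin := sin_pos_q hq
  -- the exact sums
  have ec := wAB_sum_exact h.contG h.posG hq continuous_cos (fun a b t => by
    have e1 := sin_sq_add_cos_sq t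
    simp only [sin_sub]
    have : (sin b * cos t - cos b * sin t) * cos a + (sin t * cos a - cos t * sin a) * cos b
      = (sin b * cos a - cos b * sin a) * cos t := by ring
    exact this)
  have es := wAB_sum_exact h.contG h.posG hq continuous_sin (fun a b t => by
    simp only [sin_sub]
    ring)
  rw [hc] at ec
  rw [hs] at es
  have cast1 : ∀ j : ℕ, ((j + 1 : ℕ) : ℝ) = (j:ℝ) + 1 := fun j => by push_cast; ring
  have q1 := quad hq (fun j => G (j * (π / q)) * (C (j * (π / q)) - M1))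
    (fun j => by simp only [grid_per hq h.perG, grid_per hq hC])
    (wA G q) (wB G q) (wA_pos h.contG h.posG hq) (wB_pos h.contG h.posG hq) ec es
    (by simpa only [cast1] using hM1)
  have q2 := quad hq (fun j => G (j * (π / q)) * (S (j * (π / q)) - M2))
    (fun j => by simp only [grid_per hq h.perG, grid_per hq hS])
    (wA G q) (wB G q) (wA_pos h.contG h.posG hq) (wB_pos h.contG h.posG hq) ec es
    (by simpa only [cast1] using hM2)
  simp only [cast1] at q1 q2
  -- notation
  let g : ℕ → ℝ := fun j => G (j * (π / q))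
  let n : ℕ → ℝ := fun j => (C (j * (π / q)) - M1) ^ 2 + (S (j * (π / q)) - M2) ^ 2
  have g1 : ∀ j : ℕ, G (((j:ℝ) + 1) * (π / q)) = g (j + 1) := fun j => by simp only [g, cast1]
  have g2 : ∀ j : ℕ, G (((j:ℝ) + 2) * (π / q)) = g (j + 2) := fun j => by
    simp only [g]; congr 2; push_cast; ring
  have n1 : ∀ j : ℕ, (C (((j:ℝ) + 1) * (π / q)) - M1) ^ 2 + (S (((j:ℝ) + 1) * (π / q)) - M2) ^ 2
      = n (j + 1) := fun j => by simp only [n, cast1]
  have hgper : ∀ j, g (j + 2 * q) = g j := fun j => grid_per hq h.perG j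
  have hnper : ∀ j, n (j + 2 * q) = n j := fun j => by
    simp only [n]; rw [grid_per hq hC, grid_per hq hS]
  have hn : ∀ j, 1 - 2 * (|M1| + |M2|) ≤ n j := by
    intro j
    simp only [n]
    have e := hCS (j * (π / q))
    have c1 : |C (j * (π / q))| ≤ 1 := by
      rw [← abs_one]; apply sq_le_sq.mp; nlinarith [sq_nonneg (S (j * (π / q)))]
    have c2 : |S (j * (π / q))| ≤ 1 := by
      rw [← abs_one]; apply sq_le_sq.mp; nlinarith [sq_nonneg (C (j * (π / q)))]
    have d1 : C (j * (π / q)) * M1 ≤ |M1| := by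
      calc _ ≤ |C (j * (π / q)) * M1| := le_abs_self _
        _ = |C (j * (π / q))| * |M1| := abs_mul _ _
        _ ≤ 1 * |M1| := mul_le_mul_of_nonneg_right c1 (abs_nonneg _)
        _ = |M1| := one_mul _
    have d2 : S (j * (π / q)) * M2 ≤ |M2| := by
      calc _ ≤ |S (j * (π / q)) * M2| := le_abs_self _
        _ = |S (j * (π / q))| * |M2| := abs_mul _ _
        _ ≤ 1 * |M2| := mul_le_mul_of_nonneg_right c2 (abs_nonneg _)
        _ = |M2| := one_mul _
    nlinarith [sq_nonneg M1, sq_nonneg M2]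
  have hK : ∀ j, 0 ≤ g (j + 1) * (g (j + 2) + g j - 2 * cos (π / q) * g (j + 1)) := by
    intro j
    apply mul_nonneg (h.posG _).le
    have hsub := h.subl (a := (j:ℝ) * (π / q)) (b := ((j:ℝ) + 2) * (π / q))
      (s := ((j:ℝ) + 1) * (π / q)) (by nlinarith) (by nlinarith) (by nlinarith)
    rw [show ((j:ℝ) + 2) * (π / q) - j * (π / q) = 2 * (π / q) by ring,
      show ((j:ℝ) + 2) * (π / q) - (j + 1) * (π / q) = π / q by ring,
      show ((j:ℝ) + 1) * (π / q) - j * (π / q) = π / q by ring, sin_two_mul, g1, g2] at hsub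
    have : 0 ≤ (g (j + 2) + g j - 2 * cos (π / q) * g (j + 1)) * sin (π / q) := by
      simp only [g] at hsub ⊢
      linarith
    exact nonneg_of_mul_nonneg_left this hsin
  -- sum of the two inequalities
  have hsum : ∑ j ∈ range (2 * q), g j * g (j + 1) * (n j + n (j + 1))
      - 2 * cos (π / q) * ∑ j ∈ range (2 * q), g j ^ 2 * n j
      ≤ ∑ j ∈ range (2 * q), G (j * (π / q)) * G ((j + 1) * (π / q)) *
      ((C ((j + 1) * (π / q)) - C (j * (π / q))) ^ 2
        + (S ((j + 1) * (π / q)) - S (j * (π / q))) ^ 2) := by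
    have e1 : ∑ j ∈ range (2 * q), g j * g (j + 1) * (n j + n (j + 1))
      - ∑ j ∈ range (2 * q), G (j * (π / q)) * G ((j + 1) * (π / q)) *
      ((C ((j + 1) * (π / q)) - C (j * (π / q))) ^ 2
        + (S ((j + 1) * (π / q)) - S (j * (π / q))) ^ 2)
      = 2 * (∑ j ∈ range (2 * q), G (j * (π / q)) * (C (j * (π / q)) - M1)
          * (G ((j + 1) * (π / q)) * (C ((j + 1) * (π / q)) - M1))
        + ∑ j ∈ range (2 * q), G (j * (π / q)) * (S (j * (π / q)) - M2)
          * (G ((j + 1) * (π / q)) * (S ((j + 1) * (π / q)) - M2))) := by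
      rw [← sum_sub_distrib, ← sum_add_distrib, mul_sum]
      apply sum_congr rfl
      intro j _
      simp only [g, n, cast1]
      ring
    have e2 : ∑ j ∈ range (2 * q), g j ^ 2 * n j
      = ∑ j ∈ range (2 * q), (G (j * (π / q)) * (C (j * (π / q)) - M1)) ^ 2
        + ∑ j ∈ range (2 * q), (G (j * (π / q)) * (S (j * (π / q)) - M2)) ^ 2 := by
      rw [← sum_add_distrib]
      apply sum_congr rfl
      intro j _
      simp only [g, n]
      ring
    rw [e2]
    linarith
  have hshift1 : ∑ j ∈ range (2 * q), g (j + 1) * g (j + 1 + 1) * n (j + 1)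
      = ∑ j ∈ range (2 * q), g j * g (j + 1) * n j := by
    apply sum_shift (f := fun j => g j * g (j + 1) * n j)
    have a1 := hgper 0
    have a2 := hgper 1
    have a3 := hnper 0
    simp only [zero_add] at a1 a3
    rw [add_comm 1 (2 * q)] at a2
    simp only [a1, a2, a3, zero_add]
  have hshift2 : ∑ j ∈ range (2 * q), g (j + 1) ^ 2 * n (j + 1)
      = ∑ j ∈ range (2 * q), g j ^ 2 * n j := by
    apply sum_shift (f := fun j => g j ^ 2 * n j)
    have a1 := hgper 0
    have a3 := hnper 0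
    simp only [zero_add] at a1 a3
    simp only [a1, a3]
  have hlow : (1 - 2 * (|M1| + |M2|)) * ∑ j ∈ range (2 * q),
      g (j + 1) * (g (j + 2) + g j - 2 * cos (π / q) * g (j + 1))
      ≤ ∑ j ∈ range (2 * q), g j * g (j + 1) * (n j + n (j + 1))
      - 2 * cos (π / q) * ∑ j ∈ range (2 * q), g j ^ 2 * n j := by
    have e3 : ∑ j ∈ range (2 * q), g j * g (j + 1) * (n j + n (j + 1))
      - 2 * cos (π / q) * ∑ j ∈ range (2 * q), g j ^ 2 * n j
      = ∑ j ∈ range (2 * q), (g (j + 1) * (g (j + 2) + g j - 2 * cos (π / q) * g (j + 1)))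
        * n (j + 1) := by
      rw [← hshift2]
      have : ∑ j ∈ range (2 * q), g j * g (j + 1) * (n j + n (j + 1))
        = ∑ j ∈ range (2 * q), g (j + 1) * g (j + 1 + 1) * n (j + 1)
          + ∑ j ∈ range (2 * q), g j * g (j + 1) * n (j + 1) := by
        rw [hshift1, ← sum_add_distrib]
        apply sum_congr rfl
        intro j _
        ring
      rw [this, mul_sum, ← sum_add_distrib, ← sum_sub_distrib]
      apply sum_congr rfl
      intro j _
      have : g (j + 1 + 1) = g (j + 2) := rfl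
      rw [this]
      ring
    rw [e3, mul_sum]
    apply sum_le_sum
    intro j _
    rw [mul_comm]
    exact mul_le_mul_of_nonneg_left (hn _) (hK j)
  have e4 : ∑ j ∈ range (2 * q), G ((j + 1) * (π / q)) * (G ((j + 2) * (π / q)) + G (j * (π / q))
        - 2 * cos (π / q) * G ((j + 1) * (π / q)))
      = ∑ j ∈ range (2 * q), g (j + 1) * (g (j + 2) + g j - 2 * cos (π / q) * g (j + 1)) := by
    apply sum_congr rfl
    intro j _
    rw [g1, g2]
  rw [e4]
  exact hlow.trans hsum

theorem IsPair.int_posG' (h : IsPair G H) {a b : ℝ} (hab : a < b) :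
    0 < ∫ s in a..b, 1 / G s ^ 2 := by
  apply intervalIntegral.intervalIntegral_pos_of_pos _ _ hab
  · apply Continuous.intervalIntegrable
    exact continuous_const.div (h.contG.pow 2) (fun s => pow_ne_zero 2 (h.posG s).ne')
  · intro s
    have := h.posG s
    positivity

/-- Uniform closeness of `G` on small intervals. -/
theorem G_close (hG : Continuous G) (hp : ∀ t, 0 < G t) {ε : ℝ} (hε : 0 < ε) :
    ∀ᶠ q : ℕ in atTop, ∀ s ∈ Set.Icc (0:ℝ) (2 * π), ∀ t ∈ Set.Icc (0:ℝ) (2 * π),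
      |s - t| ≤ π / q → G s ≤ (1 + ε) * G t := by
  obtain ⟨t0, ht0, hmin⟩ := (isCompact_Icc (a := (0:ℝ)) (b := 2 * π)).exists_isMinOn
    ⟨0, le_refl _, by positivity⟩ hG.continuousOn
  have hG0 := hp t0
  have huc := (isCompact_Icc (a := (0:ℝ)) (b := 2 * π)).uniformContinuousOn_of_continuous
    hG.continuousOn
  rw [Metric.uniformContinuousOn_iff] at huc
  obtain ⟨δ, hδ, hδ2⟩ := huc (ε * G t0) (by positivity)
  have hlim : Tendsto (fun q : ℕ => π / (q:ℝ)) atTop (𝓝 0) :=
    tendsto_const_div_atTop_nhds_zero_nat π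
  filter_upwards [hlim.eventually (gt_mem_nhds hδ)] with q hq s hs t ht hst
  have h1 := hδ2 s hs t ht (by rw [Real.dist_eq]; linarith)
  rw [Real.dist_eq] at h1
  have h2 := (abs_lt.mp h1).2
  have h3 : G t0 ≤ G t := hmin ht
  nlinarith

theorem chord_sq_le (x y : ℝ) :
    (cos y - cos x) ^ 2 + (sin y - sin x) ^ 2 ≤ (y - x) ^ 2 := by
  have h1 : (cos y - cos x) ^ 2 + (sin y - sin x) ^ 2 = 2 - 2 * cos (y - x) := by
    rw [cos_sub]
    nlinarith [sin_sq_add_cos_sq x, sin_sq_add_cos_sq y]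
  have h2 := one_sub_sq_div_two_le_cos (x := y - x)
  rw [h1]
  linarith

/-- One step of the limit argument. -/
theorem bs_eps (h : IsPair G H) (hc : ∫ t in (0:ℝ)..2 * π, cos t / G t ^ 3 = 0)
    (hs : ∫ t in (0:ℝ)..2 * π, sin t / G t ^ 3 = 0) {ε : ℝ} (hε : 0 < ε) (hε1 : ε < 1 / 8) :
    (1 - 4 * ε) * ((∫ s in (0:ℝ)..2 * π, 1 / G s ^ 2) * (∫ t in (0:ℝ)..2 * π, 1 / H t ^ 2))
      ≤ 4 * π ^ 2 * (1 + ε) ^ 3 := by
  have hpi := pi_pos
  have hG := h.contG
  have hp := h.posG
  set X := ∫ s in (0:ℝ)..2 * π, 1 / G s ^ 2 with hX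
  set Y := ∫ t in (0:ℝ)..2 * π, 1 / H t ^ 2 with hY
  have hX0 : 0 < X := h.int_posG' (by positivity)
  have hY0 : 0 < Y := h.symm.int_posG' (by positivity)
  have hcont2 : Continuous fun t => 1 / G t ^ 2 :=
    continuous_const.div (hG.pow 2) (fun s => pow_ne_zero 2 (hp s).ne')
  set ω := 2 * π / X with hω
  have hω0 : 0 < ω := by positivity
  have hωX : ω * X = 2 * π := by rw [hω]; field_simp
  let Φ : ℝ → ℝ := fun t => ∫ s in (0:ℝ)..t, 1 / G s ^ 2
  have hΦd : ∀ t, HasDerivAt Φ (1 / G t ^ 2) t := fun t =>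
    intervalIntegral.integral_hasDerivAt_right (hcont2.intervalIntegrable _ _)
      hcont2.aestronglyMeasurable.stronglyMeasurableAtFilter hcont2.continuousAt
  have hΦc : Continuous Φ := continuous_iff_continuousAt.mpr fun t => (hΦd t).continuousAt
  have hΦ0 : Φ 0 = 0 := intervalIntegral.integral_same
  have hΦX : Φ (2 * π) = X := rfl
  have hper : Function.Periodic (fun t => 1 / G t ^ 2) (2 * π) := by
    intro t; simp only [h.perG]
  have hΦp : ∀ t, Φ (t + 2 * π) = Φ t + X := by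
    intro t
    have h1 := intervalIntegral.integral_add_adjacent_intervals
      (hcont2.intervalIntegrable (μ := MeasureTheory.volume) 0 t)
      (hcont2.intervalIntegrable (μ := MeasureTheory.volume) t (t + 2 * π))
    have h2 := hper.intervalIntegral_add_eq t 0
    simp only [zero_add] at h2
    simp only [Φ]
    rw [← h1, h2]
  have hΦdiff : ∀ a b, Φ b - Φ a = ∫ s in a..b, 1 / G s ^ 2 := by
    intro a b
    have h1 := intervalIntegral.integral_add_adjacent_intervals
      (hcont2.intervalIntegrable (μ := MeasureTheory.volume) 0 a)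
      (hcont2.intervalIntegrable (μ := MeasureTheory.volume) a b)
    simp only [Φ]
    linarith
  let C : ℝ → ℝ := fun t => cos (ω * Φ t)
  let S : ℝ → ℝ := fun t => sin (ω * Φ t)
  have hCc : Continuous C := by fun_prop
  have hSc : Continuous S := by fun_prop
  have hCp : ∀ t, C (t + 2 * π) = C t := by
    intro t
    simp only [C]
    rw [hΦp, mul_add, hωX, cos_add_two_pi]
  have hSp : ∀ t, S (t + 2 * π) = S t := by
    intro t
    simp only [S]
    rw [hΦp, mul_add, hωX, sin_add_two_pi]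
  have hCS : ∀ t, C t ^ 2 + S t ^ 2 = 1 := fun t => cos_sq_add_sin_sq _
  -- the exact integrals
  have iC : ∫ t in (0:ℝ)..2 * π, (G t * C t) / G t ^ 3 = 0 := by
    have hd : ∀ t ∈ Set.uIcc (0:ℝ) (2 * π), HasDerivAt (fun t => sin (ω * Φ t) / ω)
        ((G t * C t) / G t ^ 3) t := by
      intro t _
      have h1 := (((hΦd t).const_mul ω).sin).div_const ω
      refine h1.congr_deriv ?_
      have := (hp t).ne'
      simp only [C]
      field_simp
    rw [intervalIntegral.integral_eq_sub_of_hasDerivAt hd]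
    · rw [hΦX, hΦ0, hωX, sin_two_pi, mul_zero, sin_zero]; simp
    · apply Continuous.intervalIntegrable
      exact (hG.mul hCc).div (hG.pow 3) (fun s => pow_ne_zero 3 (hp s).ne')
  have iS : ∫ t in (0:ℝ)..2 * π, (G t * S t) / G t ^ 3 = 0 := by
    have hd : ∀ t ∈ Set.uIcc (0:ℝ) (2 * π), HasDerivAt (fun t => -cos (ω * Φ t) / ω)
        ((G t * S t) / G t ^ 3) t := by
      intro t _
      have h1 := ((((hΦd t).const_mul ω).cos).neg).div_const ω
      refine h1.congr_deriv ?_
      have := (hp t).ne'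
      simp only [S]
      field_simp
    rw [intervalIntegral.integral_eq_sub_of_hasDerivAt hd]
    · rw [hΦX, hΦ0, hωX, cos_two_pi, mul_zero, cos_zero]; simp
    · apply Continuous.intervalIntegrable
      exact (hG.mul hSc).div (hG.pow 3) (fun s => pow_ne_zero 3 (hp s).ne')
  have iN : ∫ t in (0:ℝ)..2 * π, G t / G t ^ 3 = X := by
    rw [hX]
    apply intervalIntegral.integral_congr
    intro t _
    have := (hp t).ne'
    simp only
    field_simp
  -- choose q
  have ev1 := wAB_sum_approx hG hp (P := G) hG (ε := X / 2) (by positivity)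
  have ev2 := wAB_sum_approx hG hp (P := fun t => G t * C t) (hG.mul hCc) (ε := X / 2 * ε)
    (by positivity)
  have ev3 := wAB_sum_approx hG hp (P := fun t => G t * S t) (hG.mul hSc) (ε := X / 2 * ε)
    (by positivity)
  have ev4 := G_close hG hp hε
  have ev5 : ∀ᶠ q : ℕ in atTop, π / (q:ℝ) ≤ (1 + ε) * sin (π / q) := by
    have hlim : Tendsto (fun q : ℕ => π / (q:ℝ)) atTop (𝓝[≠] 0) := by
      rw [tendsto_nhdsWithin_iff]
      refine ⟨tendsto_const_div_atTop_nhds_zero_nat π, ?_⟩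
      filter_upwards [eventually_gt_atTop 0] with q hq
      have : (0:ℝ) < q := by exact_mod_cast hq
      have : 0 < π / (q:ℝ) := by positivity
      exact this.ne'
    have hsl : Tendsto (fun x : ℝ => sin x / x) (𝓝[≠] 0) (𝓝 1) := by
      have := (hasDerivAt_sin 0).tendsto_slope_zero
      simp only [zero_add, sin_zero, sub_zero, cos_zero, smul_eq_mul] at this
      refine this.congr (fun x => ?_)
      rw [div_eq_inv_mul]
    have h1 := (hsl.comp hlim).eventually (lt_mem_nhds (a := 1 / (1 + ε)) (by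
      rw [div_lt_one (by positivity)]; linarith))
    filter_upwards [h1, eventually_gt_atTop 0] with q hq hq0
    simp only [Function.comp] at hq
    have hq' : (0:ℝ) < q := by exact_mod_cast hq0
    have hΔ : 0 < π / (q:ℝ) := by positivity
    rw [div_lt_div_iff₀ (by positivity) hΔ] at hq
    linarith
  obtain ⟨q, e1, e2, e3, e4, e5, hq⟩ :=
    (ev1.and (ev2.and (ev3.and (ev4.and (ev5.and (eventually_ge_atTop 2)))))).exists
  have hq' : (2:ℝ) ≤ q := by exact_mod_cast hq
  have hΔ : 0 < π / q := by positivity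
  have hsin := sin_pos_q hq
  have hend : (((2 * q : ℕ) : ℝ)) * (π / q) = 2 * π := by push_cast; field_simp
  rw [iN] at e1
  rw [iC, sub_zero] at e2
  rw [iS, sub_zero] at e3
  set N := ∑ j ∈ range (2 * q), (wA G q j * G (j * (π / q)) + wB G q j * G ((j + 1) * (π / q)))
    with hN
  set N1 := ∑ j ∈ range (2 * q), (wA G q j * (G (j * (π / q)) * C (j * (π / q)))
    + wB G q j * (G ((j + 1) * (π / q)) * C ((j + 1) * (π / q)))) with hN1
  set N2 := ∑ j ∈ range (2 * q), (wA G q j * (G (j * (π / q)) * S (j * (π / q)))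
    + wB G q j * (G ((j + 1) * (π / q)) * S ((j + 1) * (π / q)))) with hN2
  have hNpos : X / 2 ≤ N := by have := (abs_le.mp e1).1; linarith
  have hNpos' : 0 < N := by linarith
  have b1 : |N1 / N| ≤ ε := by
    rw [abs_div, abs_of_pos hNpos', div_le_iff₀ hNpos']
    calc |N1| ≤ X / 2 * ε := e2
      _ ≤ N * ε := mul_le_mul_of_nonneg_right hNpos hε.le
      _ = ε * N := mul_comm _ _
  have b2 : |N2 / N| ≤ ε := by
    rw [abs_div, abs_of_pos hNpos', div_le_iff₀ hNpos']
    calc |N2| ≤ X / 2 * ε := e3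
      _ ≤ N * ε := mul_le_mul_of_nonneg_right hNpos hε.le
      _ = ε * N := mul_comm _ _
  have m1 : ∑ j ∈ range (2 * q), (wA G q j * (G (j * (π / q)) * (C (j * (π / q)) - N1 / N))
      + wB G q j * (G ((j + 1) * (π / q)) * (C ((j + 1) * (π / q)) - N1 / N))) = 0 := by
    have : ∑ j ∈ range (2 * q), (wA G q j * (G (j * (π / q)) * (C (j * (π / q)) - N1 / N))
      + wB G q j * (G ((j + 1) * (π / q)) * (C ((j + 1) * (π / q)) - N1 / N)))
      = N1 - N1 / N * N := by
      rw [hN, hN1, mul_sum, ← sum_sub_distrib]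
      apply sum_congr rfl
      intro j _
      ring
    rw [this]
    field_simp
    ring
  have m2 : ∑ j ∈ range (2 * q), (wA G q j * (G (j * (π / q)) * (S (j * (π / q)) - N2 / N))
      + wB G q j * (G ((j + 1) * (π / q)) * (S ((j + 1) * (π / q)) - N2 / N))) = 0 := by
    have : ∑ j ∈ range (2 * q), (wA G q j * (G (j * (π / q)) * (S (j * (π / q)) - N2 / N))
      + wB G q j * (G ((j + 1) * (π / q)) * (S ((j + 1) * (π / q)) - N2 / N)))
      = N2 - N2 / N * N := by
      rw [hN, hN2, mul_sum, ← sum_sub_distrib]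
      apply sum_congr rfl
      intro j _
      ring
    rw [this]
    field_simp
    ring
  have key := key_q h hc hs hq hCp hSp hCS m1 m2
  -- upper bound
  have hup : ∑ j ∈ range (2 * q), G (j * (π / q)) * G ((j + 1) * (π / q)) *
      ((C ((j + 1) * (π / q)) - C (j * (π / q))) ^ 2
        + (S ((j + 1) * (π / q)) - S (j * (π / q))) ^ 2)
      ≤ ω ^ 2 * ((1 + ε) ^ 2 * (π / q)) * X := by
    have hterm : ∀ j ∈ range (2 * q), G (j * (π / q)) * G ((j + 1) * (π / q)) *
      ((C ((j + 1) * (π / q)) - C (j * (π / q))) ^ 2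
        + (S ((j + 1) * (π / q)) - S (j * (π / q))) ^ 2)
      ≤ ω ^ 2 * ((1 + ε) ^ 2 * (π / q)) *
        ∫ t in ((j : ℕ) * (π / q) : ℝ)..((j + 1 : ℕ) * (π / q) : ℝ), 1 / G t ^ 2 := by
      intro j hj
      rw [mem_range] at hj
      have hj' : ((j:ℝ) + 1) * (π / q) ≤ 2 * π := by
        rw [← hend]
        apply mul_le_mul_of_nonneg_right _ hΔ.le
        exact_mod_cast hj
      have hj0 : (0:ℝ) ≤ j * (π / q) := by positivity
      push_cast
      set a := (j:ℝ) * (π / q) with ha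
      set b := ((j:ℝ) + 1) * (π / q) with hb
      have hba : b - a = π / q := by rw [ha, hb]; ring
      have hch := chord_sq_le (ω * Φ a) (ω * Φ b)
      have hD : (C b - C a) ^ 2 + (S b - S a) ^ 2 ≤ ω ^ 2 * (Φ b - Φ a) ^ 2 := by
        refine hch.trans (le_of_eq ?_)
        ring
      have hGa := hp a
      have hGb := hp b
      have hI : G a * G b * (Φ b - Φ a) ≤ (1 + ε) ^ 2 * (π / q) := by
        rw [hΦdiff, ← intervalIntegral.integral_const_mul]
        have hmono : ∫ t in a..b, G a * G b * (1 / G t ^ 2) ≤ ∫ t in a..b, (1 + ε) ^ 2 := by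
          apply intervalIntegral.integral_mono_on (by linarith)
          · apply Continuous.intervalIntegrable; fun_prop
          · exact continuous_const.intervalIntegrable _ _
          · intro t ht
            have c1 := e4 a ⟨hj0, by linarith⟩ t ⟨by linarith [ht.1], by linarith [ht.2]⟩ (by
              rw [abs_sub_comm, abs_of_nonneg (by linarith [ht.1])]; linarith [ht.2])
            have c2 := e4 b ⟨by linarith, hj'⟩ t ⟨by linarith [ht.1], by linarith [ht.2]⟩ (by
              rw [abs_of_nonneg (by linarith [ht.2])]; linarith [ht.1])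
            have hGt := hp t
            rw [mul_one_div, div_le_iff₀ (by positivity)]
            calc G a * G b ≤ ((1 + ε) * G t) * ((1 + ε) * G t) :=
                  mul_le_mul c1 c2 hGb.le (by positivity)
              _ = _ := by ring
        refine hmono.trans (le_of_eq ?_)
        rw [intervalIntegral.integral_const, smul_eq_mul, hba]
        ring
      have hΦab : 0 ≤ Φ b - Φ a := by
        rw [hΦdiff]
        exact intervalIntegral.integral_nonneg (by linarith)
          (fun t _ => by have := hp t; positivity)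
      rw [← hΦdiff]
      calc G a * G b * ((C b - C a) ^ 2 + (S b - S a) ^ 2)
          ≤ G a * G b * (ω ^ 2 * (Φ b - Φ a) ^ 2) :=
            mul_le_mul_of_nonneg_left hD (by positivity)
        _ = (G a * G b * (Φ b - Φ a)) * (ω ^ 2 * (Φ b - Φ a)) := by ring
        _ ≤ ((1 + ε) ^ 2 * (π / q)) * (ω ^ 2 * (Φ b - Φ a)) :=
            mul_le_mul_of_nonneg_right hI (by positivity)
        _ = _ := by ring
    refine (sum_le_sum hterm).trans (le_of_eq ?_)
    rw [← mul_sum]
    have hsplit := intervalIntegral.sum_integral_adjacent_intervals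
      (f := fun t => 1 / G t ^ 2) (μ := MeasureTheory.volume)
      (a := fun j : ℕ => (j : ℝ) * (π / q)) (n := 2 * q)
      (fun k _ => hcont2.intervalIntegrable _ _)
    rw [hend] at hsplit
    simp only [Nat.cast_zero, zero_mul] at hsplit
    rw [hsplit]
  -- lower bound
  have hkap := kappa_sum h (m := 2 * q) (by omega)
  have hcast : 2 * π / ((2 * q : ℕ) : ℝ) = π / q := by push_cast; field_simp
  rw [hcast, ← sum_div, ← hY, le_div_iff₀ hsin] at hkap
  set K := ∑ j ∈ range (2 * q),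
      G ((j + 1) * (π / q)) * (G ((j + 2) * (π / q)) + G (j * (π / q))
        - 2 * cos (π / q) * G ((j + 1) * (π / q))) with hK
  have hr : 1 - 4 * ε ≤ 1 - 2 * (|N1 / N| + |N2 / N|) := by linarith
  have hK0 : 0 ≤ K := le_trans (by positivity) hkap
  have f1 : (1 - 4 * ε) * (Y * sin (π / q)) ≤ ω ^ 2 * ((1 + ε) ^ 2 * (π / q)) * X := by
    calc (1 - 4 * ε) * (Y * sin (π / q)) ≤ (1 - 4 * ε) * K :=
          mul_le_mul_of_nonneg_left hkap (by linarith)
      _ ≤ (1 - 2 * (|N1 / N| + |N2 / N|)) * K := mul_le_mul_of_nonneg_right hr hK0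
      _ ≤ _ := key.trans hup
  have f2 : (1 - 4 * ε) * (Y * sin (π / q)) ≤ ω ^ 2 * ((1 + ε) ^ 3) * X * sin (π / q) := by
    refine f1.trans ?_
    calc ω ^ 2 * ((1 + ε) ^ 2 * (π / q)) * X
        ≤ ω ^ 2 * ((1 + ε) ^ 2 * ((1 + ε) * sin (π / q))) * X := by gcongr
      _ = _ := by ring
  have f3 : (1 - 4 * ε) * Y ≤ ω ^ 2 * ((1 + ε) ^ 3) * X := by
    have : (1 - 4 * ε) * Y * sin (π / q) ≤ ω ^ 2 * ((1 + ε) ^ 3) * X * sin (π / q) := by
      linarith
    exact le_of_mul_le_mul_right this hsin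
  calc (1 - 4 * ε) * (X * Y) = X * ((1 - 4 * ε) * Y) := by ring
    _ ≤ X * (ω ^ 2 * ((1 + ε) ^ 3) * X) := mul_le_mul_of_nonneg_left f3 hX0.le
    _ = (ω * X) ^ 2 * (1 + ε) ^ 3 := by ring
    _ = 4 * π ^ 2 * (1 + ε) ^ 3 := by rw [hωX]; ring

/-- **The planar Blaschke-Santalo inequality.** -/
theorem bs (h : IsPair G H) (hc : ∫ t in (0:ℝ)..2 * π, cos t / G t ^ 3 = 0)
    (hs : ∫ t in (0:ℝ)..2 * π, sin t / G t ^ 3 = 0) :
    (∫ s in (0:ℝ)..2 * π, 1 / G s ^ 2) * (∫ t in (0:ℝ)..2 * π, 1 / H t ^ 2) ≤ 4 * π ^ 2 := by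
  set Z := (∫ s in (0:ℝ)..2 * π, 1 / G s ^ 2) * (∫ t in (0:ℝ)..2 * π, 1 / H t ^ 2) with hZ
  have h1 : Tendsto (fun ε : ℝ => (1 - 4 * ε) * Z) (𝓝[>] 0) (𝓝 Z) := by
    have : Tendsto (fun ε : ℝ => (1 - 4 * ε) * Z) (𝓝 0) (𝓝 ((1 - 4 * 0) * Z)) := by
      apply Continuous.tendsto; fun_prop
    simp only [mul_zero, sub_zero, one_mul] at this
    exact this.mono_left nhdsWithin_le_nhds
  have h2 : Tendsto (fun ε : ℝ => 4 * π ^ 2 * (1 + ε) ^ 3) (𝓝[>] 0) (𝓝 (4 * π ^ 2)) := by
    have : Tendsto (fun ε : ℝ => 4 * π ^ 2 * (1 + ε) ^ 3) (𝓝 0) (𝓝 (4 * π ^ 2 * (1 + 0) ^ 3)) := by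
      apply Continuous.tendsto; fun_prop
    simp only [add_zero, one_pow, mul_one] at this
    exact this.mono_left nhdsWithin_le_nhds
  refine le_of_tendsto_of_tendsto h1 h2 ?_
  have : Set.Ioo (0:ℝ) (1 / 8) ∈ 𝓝[>] (0:ℝ) := Ioo_mem_nhdsGT (by norm_num)
  filter_upwards [this] with ε hε
  exact bs_eps h hc hs hε.1 hε.2

end Pool.Agent.H95G
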