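import Pool.Agent.H95G.Defs

/-!
# Existence of the Santalo point of a planar convex body (helper file for MP_f9af53_co)
-/

namespace Pool.Agent.H95G

open Real Pool.Agent.HBM3 Set

namespace SantaloAux

/-- The scalar product with the unit vector of angle `t`. -/
noncomputable def lin (x : Pl) (t : ℝ) : ℝ := x 0 * cos t + x 1 * sin t

theorem continuous_lin : Continuous (fun p : Pl × ℝ => lin p.1 p.2) := by
  unfold lin
  fun_prop

theorem norm_sq (x : Pl) : ‖x‖ ^ 2 = x 0 ^ 2 + x 1 ^ 2 := by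
  rw [EuclideanSpace.real_norm_sq_eq]
  simp [Fin.sum_univ_two]

theorem lin_le_norm (x : Pl) (t : ℝ) : lin x t ≤ ‖x‖ := by
  have h1 := norm_sq x
  have h2 := sin_sq_add_cos_sq t
  have h3 : (lin x t) ^ 2 ≤ ‖x‖ ^ 2 := by
    rw [h1, lin]
    have : (x 0 * cos t + x 1 * sin t) ^ 2 = (x 0 ^ 2 + x 1 ^ 2) * (sin t ^ 2 + cos t ^ 2) -
        (x 0 * sin t - x 1 * cos t) ^ 2 := by ring
    rw [this, h2]
    nlinarith [sq_nonneg (x 0 * sin t - x 1 * cos t)]
  exact (abs_le_of_sq_le_sq' h3 (norm_nonneg x)).2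

theorem lin_sub (x y : Pl) (t : ℝ) : lin (x - y) t = lin x t - lin y t := by
  simp only [lin, PiLp.sub_apply]; ring

theorem lin_uv (z : Pl) (e t : ℝ) : lin (z + e • uv t) t = lin z t + e := by
  have h2 := sin_sq_add_cos_sq t
  simp only [lin, uv, PiLp.add_apply, PiLp.smul_apply, smul_eq_mul]
  simp
  linear_combination e * h2

theorem lin_lip {x : Pl} {R : ℝ} (hx : ‖x‖ ≤ R) (t s : ℝ) :
    |lin x t - lin x s| ≤ 2 * R * |t - s| := by
  have h0 : |x 0| ≤ R := (PiLp.norm_apply_le x 0).trans hx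
  have h1 : |x 1| ≤ R := (PiLp.norm_apply_le x 1).trans hx
  have hc := abs_cos_sub_cos_le t s
  have hs := abs_sin_sub_sin_le t s
  have e : lin x t - lin x s = x 0 * (cos t - cos s) + x 1 * (sin t - sin s) := by
    unfold lin; ring
  rw [e]
  calc |x 0 * (cos t - cos s) + x 1 * (sin t - sin s)|
      ≤ |x 0 * (cos t - cos s)| + |x 1 * (sin t - sin s)| := abs_add_le _ _
    _ = |x 0| * |cos t - cos s| + |x 1| * |sin t - sin s| := by rw [abs_mul, abs_mul]
    _ ≤ R * |t - s| + R * |t - s| := by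
        gcongr
        · exact (abs_nonneg _).trans h0
        · exact (abs_nonneg _).trans h1
    _ = 2 * R * |t - s| := by ring

variable {C : Set Pl}

theorem supp_def (C : Set Pl) (t : ℝ) : supp C t = sSup ((fun x : Pl => lin x t) '' C) := rfl

theorem cont_lin_left (t : ℝ) : Continuous (fun x : Pl => lin x t) := by
  unfold lin
  fun_prop

theorem cont_lin_right (x : Pl) : Continuous (fun t : ℝ => lin x t) := by
  unfold lin
  fun_prop

theorem le_supp (hc : IsCompact C) {x : Pl} (hx : x ∈ C) (t : ℝ) : lin x t ≤ supp C t := by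
  rw [supp_def]
  exact le_csSup (hc.image (cont_lin_left t)).bddAbove (mem_image_of_mem _ hx)

theorem exists_supp (hc : IsCompact C) (hne : C.Nonempty) (t : ℝ) :
    ∃ x ∈ C, supp C t = lin x t :=
  hc.exists_sSup_image_eq hne (cont_lin_left t).continuousOn

theorem supp_lip (hc : IsCompact C) (hne : C.Nonempty) {R : ℝ} (hR : ∀ x ∈ C, ‖x‖ ≤ R)
    (t s : ℝ) : |supp C t - supp C s| ≤ 2 * R * |t - s| := by
  have key : ∀ t s : ℝ, supp C t - supp C s ≤ 2 * R * |t - s| := by
    intro t s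
    obtain ⟨x, hx, e⟩ := exists_supp hc hne t
    have h1 := le_supp hc hx s
    have h2 := (abs_le.1 (lin_lip (hR x hx) t s)).2
    linarith
  rw [abs_le]
  refine ⟨?_, key t s⟩
  have := key s t
  rw [abs_sub_comm] at this
  linarith

/-- The support function with respect to `z`. -/
noncomputable def hz (C : Set Pl) (z : Pl) (t : ℝ) : ℝ := supp C t - lin z t

theorem hz_lip (hc : IsCompact C) {R : ℝ} (hR : ∀ x ∈ C, ‖x‖ ≤ R) {z : Pl} (hz' : z ∈ C)
    (t s : ℝ) : |hz C z t - hz C z s| ≤ 4 * R * |t - s| := by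
  have h1 := supp_lip hc ⟨z, hz'⟩ hR t s
  have h2 := lin_lip (hR z hz') t s
  rw [abs_le] at *
  unfold hz
  constructor <;> linarith [h1.1, h1.2, h2.1, h2.2]

theorem continuous_supp (hc : IsCompact C) (hne : C.Nonempty) : Continuous (supp C) := by
  obtain ⟨R, hR⟩ := hc.isBounded.exists_norm_le
  have hR0 : 0 ≤ R := by
    obtain ⟨x, hx⟩ := hne
    exact (norm_nonneg x).trans (hR x hx)
  have : LipschitzWith (Real.toNNReal (2 * R)) (supp C) := by
    apply LipschitzWith.of_dist_le_mul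
    intro t s
    rw [Real.dist_eq, Real.dist_eq, Real.coe_toNNReal _ (by positivity)]
    exact supp_lip hc hne hR t s
  exact this.continuous

theorem continuous_hz (hc : IsCompact C) (hne : C.Nonempty) :
    Continuous (fun p : Pl × ℝ => hz C p.1 p.2) := by
  unfold hz
  exact ((continuous_supp hc hne).comp continuous_snd).sub continuous_lin

theorem hz_pos (hc : IsCompact C) {z : Pl} (hz' : z ∈ interior C) (t : ℝ) : 0 < hz C z t := by
  obtain ⟨e, he, hb⟩ := Metric.mem_nhds_iff.1 (mem_interior_iff_mem_nhds.1 hz')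
  have hm : z + (e / 2) • uv t ∈ C := by
    apply hb
    rw [Metric.mem_ball, dist_eq_norm, add_sub_cancel_left, norm_smul]
    have hu : ‖uv t‖ = 1 := by
      have h1 := norm_sq (uv t)
      have h2 : ‖uv t‖ ^ 2 = 1 := by
        rw [h1]
        simp [uv]
      have h3 := norm_nonneg (uv t)
      nlinarith
    rw [hu, Real.norm_eq_abs, abs_of_pos (by positivity)]
    linarith
  have h1 := le_supp hc hm t
  rw [lin_uv] at h1
  unfold hz
  linarith

theorem hz_nonneg (hc : IsCompact C) {z : Pl} (hz' : z ∈ C) (t : ℝ) : 0 ≤ hz C z t := by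
  have := le_supp hc hz' t
  unfold hz; linarith

theorem ball_subset (hcv : Convex ℝ C) (hc : IsCompact C) (hne : C.Nonempty) {z : Pl} {e : ℝ}
    (h : ∀ t, e ≤ hz C z t) : Metric.ball z e ⊆ C := by
  intro w hw
  by_contra hwC
  obtain ⟨f, u, h1, h2⟩ := geometric_hahn_banach_closed_point hcv hc.isClosed hwC
  set a := f (EuclideanSpace.single 0 1) with ha
  set b := f (EuclideanSpace.single 1 1) with hb
  have hf : ∀ x : Pl, f x = x 0 * a + x 1 * b := by
    intro x
    have hx : x = x 0 • EuclideanSpace.single 0 (1:ℝ) + x 1 • EuclideanSpace.single 1 (1:ℝ) := by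
      ext i
      fin_cases i <;> simp
    conv_lhs => rw [hx]
    rw [map_add, map_smul, map_smul, smul_eq_mul, smul_eq_mul]
  set ρ := ‖(⟨a, b⟩ : ℂ)‖ with hρ
  set t := Complex.arg (⟨a, b⟩ : ℂ) with ht
  have hac : ρ * cos t = a := Complex.norm_mul_cos_arg (⟨a, b⟩ : ℂ)
  have has : ρ * sin t = b := Complex.norm_mul_sin_arg (⟨a, b⟩ : ℂ)
  have hfl : ∀ x : Pl, f x = ρ * lin x t := by
    intro x
    rw [hf, ← hac, ← has, lin]; ring
  have hρ0 : 0 ≤ ρ := norm_nonneg _
  have hρ1 : 0 < ρ := by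
    rcases hρ0.eq_or_lt with h0 | h0
    · exfalso
      obtain ⟨x, hx⟩ := hne
      have e1 := h1 x hx
      rw [hfl, ← h0, zero_mul] at e1
      rw [hfl, ← h0, zero_mul] at h2
      linarith
    · exact h0
  obtain ⟨x, hx, ex⟩ := exists_supp hc hne t
  have e1 := h1 x hx
  rw [hfl] at e1 h2
  have e2 : lin x t < lin w t := by
    by_contra hcon
    rw [not_lt] at hcon
    nlinarith [mul_le_mul_of_nonneg_left hcon hρ0]
  have e3 := h t
  unfold hz at e3
  have e4 := lin_le_norm (w - z) t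
  rw [lin_sub] at e4
  rw [Metric.mem_ball, dist_eq_norm] at hw
  linarith

theorem mem_interior_of (hcv : Convex ℝ C) (hc : IsCompact C) (hne : C.Nonempty) {z : Pl} {e : ℝ}
    (he : 0 < e) (h : ∀ t, e ≤ hz C z t) : z ∈ interior C := by
  rw [mem_interior_iff_mem_nhds]
  exact Filter.mem_of_superset (Metric.ball_mem_nhds z he) (ball_subset hcv hc hne h)

theorem hz_per (C : Set Pl) (z : Pl) (t : ℝ) : hz C z (t + 2 * π) = hz C z t := by
  unfold hz lin supp
  simp only [cos_add_two_pi, sin_add_two_pi]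

/-- The functional that is minimised. -/
noncomputable def Phi (C : Set Pl) (z : Pl) : ℝ := ∫ t in (0:ℝ)..2 * π, 1 / hz C z t ^ 2

theorem continuous_hz_right (hc : IsCompact C) (hne : C.Nonempty) (z : Pl) :
    Continuous (hz C z) := by
  have h : Continuous (fun t => supp C t - lin z t) :=
    (continuous_supp hc hne).sub (cont_lin_right z)
  exact h

theorem continuous_hz_left (C : Set Pl) (t : ℝ) : Continuous (fun z => hz C z t) := by
  have h : Continuous (fun z => supp C t - lin z t) :=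
    continuous_const.sub (cont_lin_left t)
  exact h

theorem continuous_inv (hc : IsCompact C) (hne : C.Nonempty) {z : Pl}
    (hp : ∀ t, 0 < hz C z t) (k : ℕ) : Continuous (fun t => 1 / hz C z t ^ k) := by
  apply Continuous.div continuous_const ((continuous_hz_right hc hne z).pow k)
  intro t
  exact pow_ne_zero _ (hp t).ne'

theorem continuousOn_Phi (hc : IsCompact C) (hne : C.Nonempty) {e : ℝ} (he : 0 < e) :
    ContinuousOn (Phi C) {z | ∀ t, e ≤ hz C z t} := by
  have h1 : Continuous (fun z : Pl => ∫ t in (0:ℝ)..2 * π, 1 / (max e (hz C z t)) ^ 2) := by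
    apply intervalIntegral.continuous_parametric_intervalIntegral_of_continuous'
    have : Continuous (fun p : Pl × ℝ => 1 / (max e (hz C p.1 p.2)) ^ 2) := by
      apply Continuous.div continuous_const ((continuous_const.max (continuous_hz hc hne)).pow 2)
      intro p
      have : 0 < max e (hz C p.1 p.2) := lt_max_of_lt_left he
      exact pow_ne_zero _ this.ne'
    exact this
  apply h1.continuousOn.congr
  intro z hz'
  unfold Phi
  apply intervalIntegral.integral_congr
  intro t _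
  simp only
  rw [max_eq_right (hz' t)]

theorem blow_up (hc : IsCompact C) {R : ℝ} (hR0 : 0 ≤ R) (hR : ∀ x ∈ C, ‖x‖ ≤ R) {z : Pl}
    (hz' : z ∈ C) (hp : ∀ t, 0 < hz C z t) {t₀ : ℝ} (h1 : hz C z t₀ ≤ π) :
    1 / ((1 + 4 * R) ^ 2 * hz C z t₀) ≤ Phi C z := by
  have hne : C.Nonempty := ⟨z, hz'⟩
  have hper : Function.Periodic (fun t => 1 / hz C z t ^ 2) (2 * π) := by
    intro t
    simp only [hz_per]
  set e := hz C z t₀ with he
  have he0 : 0 < e := hp t₀
  have hcont := continuous_inv hc hne hp 2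
  have e1 : Phi C z = ∫ t in t₀..t₀ + 2 * π, 1 / hz C z t ^ 2 := by
    unfold Phi
    have := hper.intervalIntegral_add_eq 0 t₀
    rw [zero_add] at this
    exact this
  have hpi := pi_pos
  have e2 : ∫ t in t₀..t₀ + e, 1 / hz C z t ^ 2 ≤ Phi C z := by
    rw [e1, ← intervalIntegral.integral_add_adjacent_intervals
      (hcont.intervalIntegrable t₀ (t₀ + e)) (hcont.intervalIntegrable (t₀ + e) (t₀ + 2 * π))]
    have : 0 ≤ ∫ t in (t₀ + e)..t₀ + 2 * π, 1 / hz C z t ^ 2 := by
      apply intervalIntegral.integral_nonneg (by linarith)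
      intro t _
      positivity
    linarith
  have e3 : ∫ _t in t₀..t₀ + e, 1 / ((1 + 4 * R) * e) ^ 2 ≤ ∫ t in t₀..t₀ + e, 1 / hz C z t ^ 2 := by
    apply intervalIntegral.integral_mono_on (by linarith) (by simp)
      (hcont.intervalIntegrable _ _)
    intro t ht
    have ht0 := hp t
    have hl := (abs_le.1 (hz_lip hc hR hz' t t₀)).2
    have ha : |t - t₀| ≤ e := by
      rw [abs_of_nonneg (by linarith [ht.1])]
      linarith [ht.2]
    have hb : hz C z t ≤ (1 + 4 * R) * e := by
      have : 4 * R * |t - t₀| ≤ 4 * R * e := by gcongr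
      linarith
    apply one_div_le_one_div_of_le (by positivity)
    gcongr
  rw [intervalIntegral.integral_const, smul_eq_mul] at e3
  have e4 : (t₀ + e - t₀) * (1 / ((1 + 4 * R) * e) ^ 2) = 1 / ((1 + 4 * R) ^ 2 * e) := by
    field_simp
    ring
  rw [e4] at e3
  exact e3.trans e2

theorem exists_min (hC : IsBody C) : ∃ z ∈ interior C, ∃ e > 0, (∀ t, e ≤ hz C z t) ∧
    ∀ w ∈ interior C, Phi C z ≤ Phi C w := by
  obtain ⟨hcv, hc, ⟨z₀, hz₀⟩⟩ := hC
  have hz₀C : z₀ ∈ C := interior_subset hz₀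
  have hne : C.Nonempty := ⟨z₀, hz₀C⟩
  obtain ⟨R, hR⟩ := hc.isBounded.exists_norm_le
  have hR0 : 0 ≤ R := (norm_nonneg z₀).trans (hR z₀ hz₀C)
  have hpi := pi_pos
  -- a positive lower bound for `hz z₀`
  obtain ⟨t₁, -, ht₁⟩ := (isCompact_Icc (a := (0:ℝ)) (b := 2 * π)).exists_isMinOn
    ⟨0, by constructor <;> linarith⟩ (continuous_hz_right hc hne z₀).continuousOn
  have hm : ∀ t, hz C z₀ t₁ ≤ hz C z₀ t := by
    intro t
    have hper : Function.Periodic (hz C z₀) (2 * π) := fun t => hz_per C z₀ t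
    obtain ⟨s, hs, e⟩ := hper.exists_mem_Ico₀ (by positivity) t
    rw [e]
    exact ht₁ ⟨hs.1, hs.2.le⟩
  have hPhi0 : 0 ≤ Phi C z₀ := by
    unfold Phi
    apply intervalIntegral.integral_nonneg (by positivity)
    intro t _
    positivity
  set e := min (hz C z₀ t₁) (min π (1 / ((1 + 4 * R) ^ 2 * (Phi C z₀ + 1)))) with he
  have he0 : 0 < e := by
    rw [he]
    refine lt_min (hz_pos hc hz₀ t₁) (lt_min hpi ?_)
    positivity
  have hle1 : e ≤ hz C z₀ t₁ := min_le_left _ _
  have hle2 : e ≤ π := (min_le_right _ _).trans (min_le_left _ _)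
  have hle3 : e ≤ 1 / ((1 + 4 * R) ^ 2 * (Phi C z₀ + 1)) :=
    (min_le_right _ _).trans (min_le_right _ _)
  set K : Set Pl := C ∩ {z | ∀ t, e ≤ hz C z t} with hK
  have hKc : IsCompact K := by
    apply hc.inter_right
    have : {z | ∀ t, e ≤ hz C z t} = ⋂ t, {z | e ≤ hz C z t} := by
      ext z; simp
    rw [this]
    apply isClosed_iInter
    intro t
    exact isClosed_le continuous_const (continuous_hz_left C t)
  have hz₀K : z₀ ∈ K := ⟨hz₀C, fun t => hle1.trans (hm t)⟩
  obtain ⟨z, hzK, hzmin⟩ := hKc.exists_isMinOn ⟨z₀, hz₀K⟩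
    ((continuousOn_Phi hc hne he0).mono inter_subset_right)
  refine ⟨z, mem_interior_of hcv hc hne he0 hzK.2, e, he0, hzK.2, ?_⟩
  intro w hw
  by_cases hwK : w ∈ K
  · exact hzmin hwK
  · have hwC := interior_subset hw
    have : ∃ t, hz C w t < e := by
      by_contra hcon
      push Not at hcon
      exact hwK ⟨hwC, hcon⟩
    obtain ⟨t, ht⟩ := this
    have hp := fun t => hz_pos hc hw t
    have h1 := blow_up hc hR0 hR hwC hp (ht.le.trans hle2)
    have h2 : Phi C z ≤ Phi C z₀ := hzmin hz₀K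
    have h3 : Phi C z₀ + 1 ≤ 1 / ((1 + 4 * R) ^ 2 * hz C w t) := by
      have hpt := hp t
      rw [le_div_iff₀ (by positivity)]
      have h4 : hz C w t ≤ 1 / ((1 + 4 * R) ^ 2 * (Phi C z₀ + 1)) := ht.le.trans hle3
      rw [le_div_iff₀ (by positivity)] at h4
      linarith
    linarith

theorem pointwise {y : ℝ} (hy : |y| ≤ 1 / 2) : 1 / (1 - y) ^ 2 ≤ 1 + 2 * y + 16 * y ^ 2 := by
  rw [abs_le] at hy
  have h1 : 1 / 2 ≤ 1 - y := by linarith
  rw [div_le_iff₀ (by positivity)]
  have h2 : 1 / 4 ≤ (1 - y) ^ 2 := by nlinarith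
  nlinarith [mul_nonneg (sq_nonneg y) (sub_nonneg.2 h2), sq_nonneg y, hy.1, hy.2,
    mul_nonneg (sq_nonneg y) (by linarith [hy.1] : (0:ℝ) ≤ y + 1 / 2)]

theorem pointwise' {g b τ : ℝ} (hg : 0 < g) (h : |τ * b| ≤ g / 2) :
    1 / (g - τ * b) ^ 2 ≤ 1 / g ^ 2 + 2 * τ * (b / g ^ 3) + 16 * τ ^ 2 * (b ^ 2 / g ^ 4) := by
  have hy : |τ * b / g| ≤ 1 / 2 := by
    rw [abs_div, abs_of_pos hg, div_le_iff₀ hg]
    linarith
  have h1 := pointwise hy
  have h2 : 1 / (g - τ * b) ^ 2 = 1 / g ^ 2 * (1 / (1 - τ * b / g) ^ 2) := by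
    have : g - τ * b = g * (1 - τ * b / g) := by field_simp
    rw [this, mul_pow]
    rw [one_div_mul_one_div]
  have h3 : 1 / g ^ 2 + 2 * τ * (b / g ^ 3) + 16 * τ ^ 2 * (b ^ 2 / g ^ 4) =
      1 / g ^ 2 * (1 + 2 * (τ * b / g) + 16 * (τ * b / g) ^ 2) := by
    field_simp
  rw [h2, h3]
  exact mul_le_mul_of_nonneg_left h1 (by positivity)

theorem zero_of_quad {I J d : ℝ} (hd : 0 < d) (hJ : 0 ≤ J)
    (h : ∀ τ, |τ| ≤ d → 0 ≤ 2 * τ * I + 16 * τ ^ 2 * J) : I = 0 := by
  by_contra hI
  have hI' : 0 < |I| := abs_pos.2 hI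
  set s := min d (|I| / (16 * J + 1)) with hs
  have hs0 : 0 < s := lt_min hd (by positivity)
  have hs1 : s * (16 * J + 1) ≤ |I| := by
    have : s ≤ |I| / (16 * J + 1) := min_le_right _ _
    rwa [le_div_iff₀ (by positivity)] at this
  have hs2 : s ≤ d := min_le_left _ _
  rcases lt_or_gt_of_ne hI with hneg | hpos
  · have h1 := h s (by rw [abs_of_pos hs0]; exact hs2)
    rw [abs_of_neg hneg] at hs1 hI'
    nlinarith [mul_le_mul_of_nonneg_left hs1 hs0.le, mul_pos hs0 hI']
  · have h1 := h (-s) (by rw [abs_neg, abs_of_pos hs0]; exact hs2)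
    rw [abs_of_pos hpos] at hs1 hI'
    nlinarith [mul_le_mul_of_nonneg_left hs1 hs0.le, mul_pos hs0 hI']

theorem variation (hcv : Convex ℝ C) (hc : IsCompact C) (hne : C.Nonempty) {z : Pl} {e : ℝ}
    (he : 0 < e) (hze : ∀ t, e ≤ hz C z t) (hmin : ∀ w ∈ interior C, Phi C z ≤ Phi C w)
    (v : Pl) (hv : ∀ t, |lin v t| ≤ 1) :
    ∫ t in (0:ℝ)..2 * π, lin v t / hz C z t ^ 3 = 0 := by
  have hp : ∀ t, 0 < hz C z t := fun t => he.trans_le (hze t)
  have hcl : Continuous (fun t => lin v t) := cont_lin_right v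
  have hcz := continuous_hz_right hc hne z
  have c3 : Continuous (fun t => lin v t / hz C z t ^ 3) :=
    hcl.div (hcz.pow 3) (fun t => pow_ne_zero _ (hp t).ne')
  have c4 : Continuous (fun t => lin v t ^ 2 / hz C z t ^ 4) :=
    (hcl.pow 2).div (hcz.pow 4) (fun t => pow_ne_zero _ (hp t).ne')
  have c2 := continuous_inv hc hne hp 2
  have hpi := pi_pos
  apply zero_of_quad (d := e / 2) (J := ∫ t in (0:ℝ)..2 * π, lin v t ^ 2 / hz C z t ^ 4)
    (by positivity)
  · apply intervalIntegral.integral_nonneg (by positivity)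
    intro t _
    positivity
  · intro τ hτ
    have hw : ∀ t, hz C (z + τ • v) t = hz C z t - τ * lin v t := by
      intro t
      simp only [hz, lin, PiLp.add_apply, PiLp.smul_apply, smul_eq_mul]
      ring
    have hb : ∀ t, |τ * lin v t| ≤ e / 2 := by
      intro t
      rw [abs_mul]
      calc |τ| * |lin v t| ≤ (e / 2) * 1 := by
            gcongr
            exact hv t
        _ = e / 2 := mul_one _
    have hge : ∀ t, e / 2 ≤ hz C (z + τ • v) t := by
      intro t
      rw [hw]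
      have := (abs_le.1 (hb t)).2
      linarith [hze t]
    have hwi := mem_interior_of hcv hc hne (by positivity : 0 < e / 2) hge
    have h1 := hmin _ hwi
    have hpw : ∀ t, 0 < hz C (z + τ • v) t := fun t => (by positivity : 0 < e / 2).trans_le (hge t)
    have cw := continuous_inv hc hne hpw 2
    have c3' : Continuous (fun t => 2 * τ * (lin v t / hz C z t ^ 3)) := continuous_const.mul c3
    have c4' : Continuous (fun t => 16 * τ ^ 2 * (lin v t ^ 2 / hz C z t ^ 4)) :=
      continuous_const.mul c4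
    have c23 : Continuous (fun t => 1 / hz C z t ^ 2 + 2 * τ * (lin v t / hz C z t ^ 3)) :=
      c2.add c3'
    have h2 : Phi C (z + τ • v) ≤ ∫ t in (0:ℝ)..2 * π, (1 / hz C z t ^ 2 +
        2 * τ * (lin v t / hz C z t ^ 3) + 16 * τ ^ 2 * (lin v t ^ 2 / hz C z t ^ 4)) := by
      unfold Phi
      apply intervalIntegral.integral_mono_on (by positivity) (cw.intervalIntegrable _ _)
      · exact (c23.add c4').intervalIntegrable _ _
      · intro t _
        rw [hw t]
        apply pointwise' (hp t)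
        have := hb t
        linarith [hze t]
    rw [intervalIntegral.integral_add (c23.intervalIntegrable _ _) (c4'.intervalIntegrable _ _),
      intervalIntegral.integral_add (c2.intervalIntegrable _ _) (c3'.intervalIntegrable _ _),
      intervalIntegral.integral_const_mul, intervalIntegral.integral_const_mul] at h2
    have h3 : Phi C z = ∫ t in (0:ℝ)..2 * π, 1 / hz C z t ^ 2 := rfl
    rw [← h3] at h2
    linarith

end SantaloAux

open SantaloAux in
theorem santalo {C : Set Pl} (hC : IsBody C) : ∃ z ∈ interior C,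
    (∀ t, 0 < supp C t - (z 0 * cos t + z 1 * sin t)) ∧
    (∫ t in (0:ℝ)..2 * π, cos t / (supp C t - (z 0 * cos t + z 1 * sin t)) ^ 3) = 0 ∧
    (∫ t in (0:ℝ)..2 * π, sin t / (supp C t - (z 0 * cos t + z 1 * sin t)) ^ 3) = 0 := by
  obtain ⟨z, hzi, e, he, hze, hmin⟩ := exists_min hC
  obtain ⟨hcv, hc, hni⟩ := hC
  have hne : C.Nonempty := hni.mono interior_subset
  refine ⟨z, hzi, fun t => he.trans_le (hze t), ?_, ?_⟩
  · have h1 := variation hcv hc hne he hze hmin (EuclideanSpace.single 0 1) (by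
      intro t
      simp only [lin]
      simpa using abs_cos_le_one t)
    convert h1 using 2
    ext t
    simp [hz, lin]
  · have h1 := variation hcv hc hne he hze hmin (EuclideanSpace.single 1 1) (by
      intro t
      simp only [lin]
      simpa using abs_sin_le_one t)
    convert h1 using 2
    ext t
    simp [hz, lin]

end Pool.Agent.H95G
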