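import Pool.Agent.H95G.Poly
import Pool.Agent.H95G.Santalo

/-!
# Gauge and support function of a planar convex body form a pair (helper file for MP_f9af53_co)
-/

namespace Pool.Agent.H95G

open Real Pool.Agent.HBM3 Set Topology

namespace BridgeAux

open SantaloAux

theorem continuous_uv : Continuous uv := by
  have h : Continuous (fun t : ℝ => (![cos t, sin t] : Fin 2 → ℝ)) := by
    apply continuous_pi
    intro i
    fin_cases i
    · simpa using continuous_cos
    · simpa using continuous_sin
  exact (PiLp.continuous_toLp 2 _).comp h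

theorem lin_smul (r : ℝ) (x : Pl) (t : ℝ) : lin (r • x) t = r * lin x t := by
  simp only [lin, PiLp.smul_apply, smul_eq_mul]; ring

theorem lin_uv' (s t : ℝ) : lin (uv s) t = cos (s - t) := by
  simp only [lin, uv, cos_sub]
  simp

theorem norm_uv (t : ℝ) : ‖uv t‖ = 1 := by
  have h1 := norm_sq (uv t)
  have h2 := sin_sq_add_cos_sq t
  have h3 : ‖uv t‖ ^ 2 = 1 := by
    rw [h1]
    simp only [uv]
    simp
  have h4 : 0 ≤ ‖uv t‖ := norm_nonneg _
  nlinarith

theorem uv_ne_zero (t : ℝ) : uv t ≠ 0 := by
  intro h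
  have := norm_uv t
  rw [h, norm_zero] at this
  exact zero_ne_one this

variable {K : Set Pl}

theorem rad_pos (hc : IsCompact K) (h0 : (0 : Pl) ∈ interior K) (t : ℝ) : 0 < rad K t := by
  have hnhds : K ∈ 𝓝 (0 : Pl) := mem_interior_iff_mem_nhds.1 h0
  have hb : Bornology.IsVonNBounded ℝ K := NormedSpace.isVonNBounded_of_isBounded ℝ hc.isBounded
  exact (gauge_pos (absorbent_nhds_zero hnhds) hb).2 (uv_ne_zero t)

theorem mem_iff (hK : Convex ℝ K) (hc : IsCompact K) (h0 : (0 : Pl) ∈ interior K) (x : Pl) :
    x ∈ K ↔ gauge K x ≤ 1 := by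
  have hnhds : K ∈ 𝓝 (0 : Pl) := mem_interior_iff_mem_nhds.1 h0
  rw [gauge_le_one_iff_mem_closure hK hnhds, hc.isClosed.closure_eq]

theorem gauge_smul_uv {r : ℝ} (hr : 0 ≤ r) (s : ℝ) : gauge K (r • uv s) = r * rad K s := by
  rw [gauge_smul_of_nonneg hr, smul_eq_mul, rad]

theorem bp_mem (hK : Convex ℝ K) (hc : IsCompact K) (h0 : (0 : Pl) ∈ interior K) (s : ℝ) :
    (rad K s)⁻¹ • uv s ∈ K := by
  have h := rad_pos hc h0 s
  rw [mem_iff hK hc h0, gauge_smul_uv (by positivity), inv_mul_cancel₀ h.ne']

theorem supp_pos (hc : IsCompact K) (h0 : (0 : Pl) ∈ interior K) (t : ℝ) : 0 < supp K t := by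
  have h := hz_pos hc h0 t
  have e : hz K 0 t = supp K t := by simp [hz, lin]
  rwa [e] at h

end BridgeAux

open SantaloAux BridgeAux

/-- The supremum in the definition of the support function is attained. -/
theorem supp_isGreatest {K : Set Pl} (hc : IsCompact K) (hne : K.Nonempty) (t : ℝ) :
    IsGreatest ((fun x : Pl => x 0 * cos t + x 1 * sin t) '' K) (supp K t) := by
  obtain ⟨x, hx, e⟩ := exists_supp hc hne t
  exact ⟨⟨x, hx, e.symm⟩, by rintro _ ⟨y, hy, rfl⟩; exact le_supp hc hy t⟩

theorem mem_of_rad {K : Set Pl} (hK : Convex ℝ K) (hc : IsCompact K)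
    (h0 : (0 : Pl) ∈ interior K) {c s : ℝ} (hc0 : 0 ≤ c) (h : c * rad K s ≤ 1) :
    c • uv s ∈ K := by
  rw [mem_iff hK hc h0, gauge_smul_uv hc0]
  exact h

theorem le_of_mem {K : Set Pl} (hc : IsCompact K) {x : Pl} (hx : x ∈ K) (t : ℝ) :
    x 0 * cos t + x 1 * sin t ≤ supp K t := le_supp hc hx t

/-- The gauge and the support function of a planar convex body form a pair. -/
theorem isPair_of_body {K : Set Pl} (hK : Convex ℝ K) (hc : IsCompact K)
    (h0 : (0 : Pl) ∈ interior K) : IsPair (rad K) (supp K) := by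
  have hnhds : K ∈ 𝓝 (0 : Pl) := mem_interior_iff_mem_nhds.1 h0
  have h0K : (0 : Pl) ∈ K := interior_subset h0
  have hne : K.Nonempty := ⟨0, h0K⟩
  refine ⟨?_, continuous_supp hc hne, rad_pos hc h0, supp_pos hc h0, ?_, ?_, ?_, ?_, ?_⟩
  · exact (continuous_gauge hK hnhds).comp continuous_uv
  · intro t
    rw [rad, rad, uv_add_two_pi]
  · intro t
    simp only [supp, cos_add_two_pi, sin_add_two_pi]
  · intro s t
    have h1 := rad_pos hc h0 s
    have h2 := le_supp hc (bp_mem hK hc h0 s) t
    rw [lin_smul, lin_uv'] at h2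
    rwa [inv_mul_le_iff₀ h1] at h2
  · -- touching at the boundary point
    intro s
    have h1 := rad_pos hc h0 s
    set x : Pl := (rad K s)⁻¹ • uv s with hx
    have hxK : x ∈ K := bp_mem hK hc h0 s
    have hxg : gauge K x = 1 := by
      rw [hx, gauge_smul_uv (by positivity), inv_mul_cancel₀ h1.ne']
    have hxi : x ∉ interior K := by
      intro hh
      have := (gauge_lt_one_iff_mem_interior hK hnhds).2 hh
      rw [hxg] at this
      exact lt_irrefl _ this
    obtain ⟨f, hf⟩ := geometric_hahn_banach_open_point hK.interior isOpen_interior hxi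
    have hf' : ∀ a ∈ K, f a ≤ f x := by
      intro a ha
      have h2 : a ∈ closure (interior K) := by
        rw [hK.closure_interior_eq_closure_of_nonempty_interior ⟨0, h0⟩]
        exact subset_closure ha
      have h3 : IsClosed {y : Pl | f y ≤ f x} := isClosed_le f.continuous continuous_const
      exact closure_minimal (fun y hy => (hf y hy).le) h3 h2
    have hfx : 0 < f x := by
      have := hf 0 h0
      rwa [map_zero] at this
    set e0 : Pl := !₂[1, 0] with he0
    set e1 : Pl := !₂[0, 1] with he1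
    have hfy : ∀ y : Pl, f y = y 0 * f e0 + y 1 * f e1 := by
      intro y
      have : y = y 0 • e0 + y 1 • e1 := by
        ext i
        fin_cases i <;> simp [he0, he1]
      conv_lhs => rw [this]
      rw [map_add, map_smul, map_smul, smul_eq_mul, smul_eq_mul]
    obtain ⟨r, t, hr, -, -, hu⟩ := exists_polar (!₂[f e0, f e1] : Pl) 0
    have hu0 : f e0 = r * cos t := by
      have := congrArg (fun z : Pl => z 0) hu
      simpa [uv] using this
    have hu1 : f e1 = r * sin t := by
      have := congrArg (fun z : Pl => z 1) hu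
      simpa [uv] using this
    have hfl : ∀ y : Pl, f y = r * lin y t := by
      intro y
      rw [hfy y, hu0, hu1, lin]
      ring
    have hr0 : 0 < r := by
      rcases hr.lt_or_eq with h | h
      · exact h
      · rw [hfl x, ← h, zero_mul] at hfx
        exact absurd hfx (lt_irrefl _)
    refine ⟨t, ?_⟩
    have h3 : supp K t = lin x t := by
      apply le_antisymm
      · obtain ⟨y, hy, e⟩ := exists_supp hc hne t
        rw [e]
        have := hf' y hy
        rw [hfl y, hfl x] at this
        exact le_of_mul_le_mul_left this hr0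
      · exact le_supp hc hxK t
    rw [h3, hx, lin_smul, lin_uv', mul_inv_cancel_left₀ h1.ne']
  · -- touching in a direction
    intro t
    obtain ⟨x, hxK, e⟩ := exists_supp hc hne t
    have hH := supp_pos hc h0 t
    obtain ⟨r, s, hr, -, -, hx⟩ := exists_polar x 0
    have h1 := rad_pos hc h0 s
    have h2 : lin x t = r * cos (s - t) := by rw [hx, lin_smul, lin_uv']
    have hr0 : 0 < r := by
      rcases hr.lt_or_eq with h | h
      · exact h
      · rw [e, h2, ← h, zero_mul] at hH
        exact absurd hH (lt_irrefl _)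
    refine ⟨s, ?_⟩
    have h3 : r * rad K s ≤ 1 := by
      have := (mem_iff hK hc h0 x).1 hxK
      rwa [hx, gauge_smul_uv hr] at this
    have hcos : 0 < cos (s - t) := by
      rw [e, h2] at hH
      exact (mul_pos_iff_of_pos_left hr0).1 hH
    have h4 : 1 ≤ r * rad K s := by
      have h5 := le_supp hc (bp_mem hK hc h0 s) t
      rw [lin_smul, lin_uv', e, h2] at h5
      have h6 : (rad K s)⁻¹ ≤ r := le_of_mul_le_mul_right h5 hcos
      calc 1 = (rad K s)⁻¹ * rad K s := (inv_mul_cancel₀ h1.ne').symm
        _ ≤ r * rad K s := mul_le_mul_of_nonneg_right h6 h1.le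
    have h7 : r * rad K s = 1 := le_antisymm h3 h4
    rw [e, h2]
    calc cos (s - t) = (r * rad K s) * cos (s - t) := by rw [h7, one_mul]
      _ = rad K s * (r * cos (s - t)) := by ring

end Pool.Agent.H95G
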