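import Pool.Agent.H95G.Pair

/-!
# The greedy chain (helper file for MP_f9af53_co)
-/

namespace Pool.Agent.H95G

open Real

theorem bc_trig (θ ψ q ψ' : ℝ) : sin (ψ' - ψ) * sin (q - θ) =
    cos (θ - ψ) * cos (q - ψ') - cos (q - ψ) * cos (θ - ψ') := by
  simp only [cos_sub, sin_sub]
  ring

namespace IsPair

variable {G H : ℝ → ℝ}

/-- Half a step of the greedy chain. -/
theorem half (h : IsPair G H) {c : ℝ} (hc0 : 0 < c) (hc1 : c < 1) {θ ψ : ℝ}
    (h1 : |θ - ψ| < π / 2) (h2 : cos (θ - ψ) = G θ * H ψ) :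
    ∃ ψ' q, ψ < ψ' ∧ ψ' < θ + π / 2 ∧ cos (θ - ψ') = c * (G θ * H ψ') ∧ θ < q ∧
      q < ψ' + π / 2 ∧ cos (q - ψ') = G q * H ψ' ∧
      (1 - c) * ((G θ * H ψ) * (G q * H ψ')) ≤ sin (ψ' - ψ) * sin (q - θ) := by
  have hpi := pi_pos
  obtain ⟨h1a, h1b⟩ := abs_lt.mp h1
  have hG := h.posG θ
  -- the next direction
  have hcont : ContinuousOn (fun t => cos (θ - t) - c * (G θ * H t)) (Set.Icc ψ (θ + π / 2)) := by
    have := h.contH
    fun_prop
  have hle : ψ ≤ θ + π / 2 := by linarith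
  have hiv := intermediate_value_Ioo' hle hcont
  have hmem : (0 : ℝ) ∈ Set.Ioo (cos (θ - (θ + π / 2)) - c * (G θ * H (θ + π / 2)))
      (cos (θ - ψ) - c * (G θ * H ψ)) := by
    constructor
    · have : θ - (θ + π / 2) = -(π / 2) := by ring
      rw [this, cos_neg, cos_pi_div_two]
      have := mul_pos hc0 (mul_pos hG (h.posH (θ + π / 2)))
      linarith
    · rw [h2]
      have := mul_pos hG (h.posH ψ)
      nlinarith
  obtain ⟨ψ', ⟨hψ1, hψ2⟩, hψ3⟩ := hiv hmem
  simp only at hψ3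
  have hψ4 : cos (θ - ψ') = c * (G θ * H ψ') := by linarith
  -- its contact point
  obtain ⟨q, hq1, hq2⟩ := h.touchH' ψ'
  obtain ⟨hq1a, hq1b⟩ := abs_lt.mp hq1
  have hGq := h.posG q
  have hH := h.posH ψ
  have hH' := h.posH ψ'
  have key : (1 - c) * ((G θ * H ψ) * (G q * H ψ')) ≤ sin (ψ' - ψ) * sin (q - θ) := by
    rw [bc_trig, h2, hq2, hψ4]
    have := h.le q ψ
    have h3 : 0 ≤ c * (G θ * H ψ') := by positivity
    nlinarith [mul_le_mul_of_nonneg_right this h3]
  have hpos : 0 < sin (ψ' - ψ) * sin (q - θ) := by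
    refine lt_of_lt_of_le ?_ key
    have : 0 < 1 - c := by linarith
    positivity
  have hs : 0 < sin (ψ' - ψ) := sin_pos_of_pos_of_lt_pi (by linarith) (by linarith)
  have hs2 : 0 < sin (q - θ) := (mul_pos_iff_of_pos_left hs).mp hpos
  have hq3 : θ < q := by
    by_contra hcon
    rw [not_lt] at hcon
    have : sin (q - θ) ≤ 0 := by
      rw [← neg_nonneg, ← sin_neg]
      apply sin_nonneg_of_nonneg_of_le_pi <;> linarith
    linarith
  exact ⟨ψ', q, hψ1, hψ2, hψ4, hq3, by linarith, hq2, key⟩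

/-- The contact relation is monotone. -/
theorem mono (h : IsPair G H) {θ ψ θ' ψ' : ℝ} (h1 : |θ - ψ| < π / 2)
    (h2 : cos (θ - ψ) = G θ * H ψ) (h1' : |θ' - ψ'| < π / 2)
    (h2' : cos (θ' - ψ') = G θ' * H ψ') (hlt : θ < θ') : ψ ≤ ψ' := by
  have hpi := pi_pos
  obtain ⟨h1a, h1b⟩ := abs_lt.mp h1
  obtain ⟨h1c, h1d⟩ := abs_lt.mp h1'
  by_contra hcon
  rw [not_le] at hcon
  have hs1 : 0 < sin (θ' - θ) := sin_pos_of_pos_of_lt_pi (by linarith) (by linarith)
  have hs2 : sin (ψ' - ψ) < 0 := by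
    rw [← neg_pos, ← sin_neg]
    apply sin_pos_of_pos_of_lt_pi <;> linarith
  have hbc := bc_trig θ ψ θ' ψ'
  rw [h2, h2'] at hbc
  have hneg : sin (ψ' - ψ) * sin (θ' - θ) < 0 := mul_neg_of_neg_of_pos hs2 hs1
  have c1 : 0 < cos (θ - ψ') := cos_pos_of_mem_Ioo ⟨by linarith, by linarith⟩
  have c2 : 0 < cos (θ' - ψ) := cos_pos_of_mem_Ioo ⟨by linarith, by linarith⟩
  have l1 := h.le θ ψ'
  have l2 := h.le θ' ψ
  have : cos (θ' - ψ) * cos (θ - ψ') ≤ (G θ' * H ψ) * (G θ * H ψ') :=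
    mul_le_mul l2 l1 c1.le (by have := h.posG θ'; have := h.posH ψ; positivity)
  nlinarith

end IsPair

/-- A contact pair. -/
structure St (G H : ℝ → ℝ) where
  a : ℝ
  b : ℝ
  near : |a - b| < π / 2
  touch : cos (a - b) = G a * H b

theorem sq_add_le {x y x' y' a b : ℝ} (hx : 0 ≤ x) (hy : 0 ≤ y) (hx' : 0 ≤ x') (hy' : 0 ≤ y')
    (ha : 0 ≤ a) (hb : 0 ≤ b) (h1 : a ^ 2 ≤ x * y) (h2 : b ^ 2 ≤ x' * y') :
    (a + b) ^ 2 ≤ (x + x') * (y + y') := by
  have h3 : (a * b) ^ 2 ≤ (x * y') * (x' * y) := by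
    calc (a * b) ^ 2 = a ^ 2 * b ^ 2 := by ring
      _ ≤ (x * y) * (x' * y') := mul_le_mul h1 h2 (by positivity) (by positivity)
      _ = (x * y') * (x' * y) := by ring
  have h4 : 2 * (a * b) ≤ x * y' + x' * y := by
    have h5 : (2 * (a * b)) ^ 2 ≤ (x * y' + x' * y) ^ 2 := by
      nlinarith [sq_nonneg (x * y' - x' * y)]
    exact abs_le_of_sq_le_sq' h5 (by positivity) |>.2
  nlinarith

namespace IsPair

variable {G H : ℝ → ℝ}

theorem intG (h : IsPair G H) (a b : ℝ) :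
    IntervalIntegrable (fun s => 1 / G s ^ 2) MeasureTheory.volume a b := by
  apply Continuous.intervalIntegrable
  exact continuous_const.div (h.contG.pow 2) (fun s => pow_ne_zero 2 (h.posG s).ne')

theorem int_posG (h : IsPair G H) {a b : ℝ} (hab : a < b) : 0 < ∫ s in a..b, 1 / G s ^ 2 := by
  apply intervalIntegral.intervalIntegral_pos_of_pos (h.intG a b) _ hab
  intro s
  have := h.posG s
  positivity

/-- A full step. -/
theorem full (h : IsPair G H) {c : ℝ} (hc0 : 0 < c) (hc1 : c < 1) (s : St G H) :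
    ∃ s' : St G H, ∃ ψ, s.a < s'.a ∧ s'.a < s.a + π ∧ s.b < s'.b ∧
      c * (G s.a * H ψ) ≤ cos (s.a - ψ) ∧ c * (G s'.a * H ψ) ≤ cos (s'.a - ψ) ∧
      4 * (1 - c) ≤ (∫ t in s.a..s'.a, 1 / G t ^ 2) * (∫ t in s.b..s'.b, 1 / H t ^ 2) := by
  have hpi := pi_pos
  obtain ⟨ψ, q, a1, a2, a3, a4, a5, a6, a7⟩ := h.half hc0 hc1 s.near s.touch
  obtain ⟨n1, n2⟩ := abs_lt.mp s.near
  have nearq : |ψ - q| < π / 2 := by rw [abs_lt]; constructor <;> linarith
  have touchq : cos (ψ - q) = H ψ * G q := by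
    rw [← cos_neg, neg_sub, mul_comm]; exact a6
  obtain ⟨θ', ψ', b1, b2, b3, b4, b5, b6, b7⟩ := h.symm.half hc0 hc1 nearq touchq
  have near' : |θ' - ψ'| < π / 2 := by rw [abs_lt]; constructor <;> linarith
  have touch' : cos (θ' - ψ') = G θ' * H ψ' := by
    rw [← cos_neg, neg_sub, mul_comm]; exact b6
  refine ⟨⟨θ', ψ', near', touch'⟩, ψ, by simp only; linarith, by simp only; linarith,
    by simp only; linarith, a3.ge, ?_, ?_⟩
  · simp only
    rw [← cos_neg, neg_sub, b3, mul_comm (H ψ)]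
  · simp only
    have hc : 0 ≤ 1 - c := by linarith
    -- first half
    have e1 := h.sector (a := s.a) (b := q) a4 (by linarith)
    have e2 := h.symm.sector (a := s.b) (b := ψ) a1 (by linarith)
    have e3 := h.sector (a := q) (b := θ') b1 (by linarith)
    have e4 := h.symm.sector (a := ψ) (b := ψ') b4 (by linarith)
    have p1 := h.posG s.a
    have p2 := h.posG q
    have p3 := h.posG θ'
    have q1 := h.posH s.b
    have q2 := h.posH ψ
    have q3 := h.posH ψ'
    have s1 : 0 ≤ sin (q - s.a) := sin_nonneg_of_nonneg_of_le_pi (by linarith) (by linarith)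
    have s2 : 0 ≤ sin (ψ - s.b) := sin_nonneg_of_nonneg_of_le_pi (by linarith) (by linarith)
    have s3 : 0 ≤ sin (θ' - q) := sin_nonneg_of_nonneg_of_le_pi (by linarith) (by linarith)
    have s4 : 0 ≤ sin (ψ' - ψ) := sin_nonneg_of_nonneg_of_le_pi (by linarith) (by linarith)
    have f1 : 1 - c ≤ (∫ t in s.a..q, 1 / G t ^ 2) * (∫ t in s.b..ψ, 1 / H t ^ 2) := by
      calc 1 - c ≤ (sin (q - s.a) / (G s.a * G q)) * (sin (ψ - s.b) / (H s.b * H ψ)) := by
            rw [div_mul_div_comm, le_div_iff₀ (by positivity)]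
            calc (1 - c) * (G s.a * G q * (H s.b * H ψ))
                = (1 - c) * ((G s.a * H s.b) * (G q * H ψ)) := by ring
              _ ≤ _ := a7
              _ = _ := by ring
        _ ≤ _ := mul_le_mul e1 e2 (by positivity) ((by positivity : (0:ℝ) ≤ _).trans e1)
    have f2 : 1 - c ≤ (∫ t in q..θ', 1 / G t ^ 2) * (∫ t in ψ..ψ', 1 / H t ^ 2) := by
      calc 1 - c ≤ (sin (θ' - q) / (G q * G θ')) * (sin (ψ' - ψ) / (H ψ * H ψ')) := by
            rw [div_mul_div_comm, le_div_iff₀ (by positivity)]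
            calc (1 - c) * (G q * G θ' * (H ψ * H ψ'))
                = (1 - c) * ((H ψ * G q) * (H ψ' * G θ')) := by ring
              _ ≤ _ := b7
              _ = _ := by ring
        _ ≤ _ := mul_le_mul e3 e4 (by positivity) ((by positivity : (0:ℝ) ≤ _).trans e3)
    have i1 := intervalIntegral.integral_add_adjacent_intervals (h.intG s.a q) (h.intG q θ')
    have i2 := intervalIntegral.integral_add_adjacent_intervals (h.symm.intG s.b ψ)
      (h.symm.intG ψ ψ')
    rw [← i1, ← i2]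
    have hsq : √(1 - c) ^ 2 = 1 - c := sq_sqrt hc
    have := sq_add_le (h.int_posG a4).le (h.symm.int_posG a1).le (h.int_posG b1).le
      (h.symm.int_posG b4).le (sqrt_nonneg (1 - c)) (sqrt_nonneg (1 - c)) (by rw [hsq]; exact f1)
      (by rw [hsq]; exact f2)
    nlinarith

end IsPair

/-- **The greedy chain.** If the product of the areas of the body and its polar is at most
`n² (1 - c)`, then a chain of `n` chords, each touching `c K`, goes around once. -/
theorem chain {G H : ℝ → ℝ} (h : IsPair G H) {c : ℝ} {n : ℕ} (hn : 0 < n) (hc0 : 0 < c)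
    (hc1 : c < 1)
    (hXY : (∫ s in (0:ℝ)..2 * π, 1 / G s ^ 2) * (∫ t in (0:ℝ)..2 * π, 1 / H t ^ 2)
      ≤ 4 * n ^ 2 * (1 - c)) :
    ∃ θ ψ : ℕ → ℝ, (∀ i, θ i < θ (i + 1) ∧ θ (i + 1) < θ i + π ∧
      c * (G (θ i) * H (ψ i)) ≤ cos (θ i - ψ i) ∧
      c * (G (θ (i + 1)) * H (ψ i)) ≤ cos (θ (i + 1) - ψ i)) ∧ θ 0 + 2 * π ≤ θ n := by
  have hpi := pi_pos
  choose f g hf1 hf2 hf3 hf4 hf5 hf6 using h.full hc0 hc1
  obtain ⟨t0, ht1, ht2⟩ := h.touchG' 0
  let S : ℕ → St G H := fun i => f^[i] ⟨0, t0, ht1, ht2⟩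
  have hS : ∀ i, S (i + 1) = f (S i) := fun i => Function.iterate_succ_apply' f i _
  refine ⟨fun i => (S i).a, fun i => g (S i), fun i => ⟨?_, ?_, ?_, ?_⟩, ?_⟩
  · simp only [hS]; exact hf1 _
  · simp only [hS]; exact hf2 _
  · exact hf4 _
  · simp only [hS]; exact hf5 _
  have hma : ∀ i, (S 0).a ≤ (S i).a := by
    intro i
    induction i with
    | zero => exact le_refl _
    | succ k ih => rw [hS]; exact ih.trans (hf1 _).le
  have hmb : ∀ i, (S 0).b ≤ (S i).b := by
    intro i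
    induction i with
    | zero => exact le_refl _
    | succ k ih => rw [hS]; exact ih.trans (hf3 _).le
  have hmain : ∀ i : ℕ, (2 * i * √(1 - c)) ^ 2 ≤ (∫ t in (S 0).a..(S i).a, 1 / G t ^ 2) *
      (∫ t in (S 0).b..(S i).b, 1 / H t ^ 2) := by
    intro i
    induction i with
    | zero => simp
    | succ k ih =>
      have hc : 0 ≤ 1 - c := by linarith
      have hsq : √(1 - c) ^ 2 = 1 - c := sq_sqrt hc
      have i1 := intervalIntegral.integral_add_adjacent_intervals (h.intG (S 0).a (S k).a)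
        (h.intG (S k).a (S (k + 1)).a)
      have i2 := intervalIntegral.integral_add_adjacent_intervals (h.symm.intG (S 0).b (S k).b)
        (h.symm.intG (S k).b (S (k + 1)).b)
      rw [← i1, ← i2]
      have hk := hf6 (S k)
      rw [← hS] at hk
      have n1 : 0 ≤ ∫ t in (S 0).a..(S k).a, 1 / G t ^ 2 :=
        intervalIntegral.integral_nonneg (hma k) (fun t _ => by have := h.posG t; positivity)
      have n2 : 0 ≤ ∫ t in (S 0).b..(S k).b, 1 / H t ^ 2 :=
        intervalIntegral.integral_nonneg (hmb k) (fun t _ => by have := h.posH t; positivity)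
      have l1 : (S k).a < (S (k + 1)).a := by rw [hS]; exact hf1 _
      have l2 : (S k).b < (S (k + 1)).b := by rw [hS]; exact hf3 _
      have := sq_add_le n1 n2 (h.int_posG l1).le (h.symm.int_posG l2).le
        (a := 2 * k * √(1 - c)) (b := 2 * √(1 - c)) (by positivity) (by positivity) ih
        (by rw [mul_pow, hsq]; linarith)
      refine le_trans (le_of_eq ?_) this
      push_cast
      ring
  by_contra hcon
  rw [not_le] at hcon
  simp only at hcon
  have hn1 := hmain n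
  have hc : 0 ≤ 1 - c := by linarith
  have hsq : √(1 - c) ^ 2 = 1 - c := sq_sqrt hc
  have hX : ∫ t in (S 0).a..(S 0).a + 2 * π, 1 / G t ^ 2 = ∫ s in (0:ℝ)..2 * π, 1 / G s ^ 2 := by
    have hp : Function.Periodic (fun t => 1 / G t ^ 2) (2 * π) := by
      intro t; simp only [h.perG]
    have := hp.intervalIntegral_add_eq (S 0).a 0
    simpa using this
  have hY : ∫ t in (S 0).b..(S 0).b + 2 * π, 1 / H t ^ 2 = ∫ s in (0:ℝ)..2 * π, 1 / H s ^ 2 := by
    have hp : Function.Periodic (fun t => 1 / H t ^ 2) (2 * π) := by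
      intro t; simp only [h.perH]
    have := hp.intervalIntegral_add_eq (S 0).b 0
    simpa using this
  have hb : (S n).b ≤ (S 0).b + 2 * π := by
    refine h.mono (S n).near (S n).touch (θ' := (S 0).a + 2 * π) ?_ ?_ hcon
    · have := (S 0).near
      rwa [show (S 0).a + 2 * π - ((S 0).b + 2 * π) = (S 0).a - (S 0).b by ring]
    · rw [show (S 0).a + 2 * π - ((S 0).b + 2 * π) = (S 0).a - (S 0).b by ring, h.perG, h.perH]
      exact (S 0).touch
  have hXn : (∫ t in (S 0).a..(S n).a, 1 / G t ^ 2) < ∫ s in (0:ℝ)..2 * π, 1 / G s ^ 2 := by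
    rw [← hX]
    have := intervalIntegral.integral_add_adjacent_intervals (h.intG (S 0).a (S n).a)
      (h.intG (S n).a ((S 0).a + 2 * π))
    have hpos := h.int_posG hcon
    linarith
  have hYn : (∫ t in (S 0).b..(S n).b, 1 / H t ^ 2) ≤ ∫ s in (0:ℝ)..2 * π, 1 / H s ^ 2 := by
    rw [← hY]
    have := intervalIntegral.integral_add_adjacent_intervals (h.symm.intG (S 0).b (S n).b)
      (h.symm.intG (S n).b ((S 0).b + 2 * π))
    have hpos : 0 ≤ ∫ t in (S n).b..(S 0).b + 2 * π, 1 / H t ^ 2 :=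
      intervalIntegral.integral_nonneg hb (fun t _ => by have := h.posH t; positivity)
    linarith
  have hYpos : 0 < ∫ s in (0:ℝ)..2 * π, 1 / H s ^ 2 := h.symm.int_posG (by positivity)
  have hXn0 : 0 ≤ ∫ t in (S 0).a..(S n).a, 1 / G t ^ 2 :=
    intervalIntegral.integral_nonneg (hma n) (fun t _ => by have := h.posG t; positivity)
  have e1 : (2 * (n:ℝ) * √(1 - c)) ^ 2 = 4 * n ^ 2 * (1 - c) := by
    rw [mul_pow, hsq]; ring
  rw [e1] at hn1
  have e2 : (∫ t in (S 0).a..(S n).a, 1 / G t ^ 2) * (∫ t in (S 0).b..(S n).b, 1 / H t ^ 2)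
      < (∫ s in (0:ℝ)..2 * π, 1 / G s ^ 2) * (∫ t in (0:ℝ)..2 * π, 1 / H t ^ 2) := by
    calc _ ≤ (∫ t in (S 0).a..(S n).a, 1 / G t ^ 2) * (∫ s in (0:ℝ)..2 * π, 1 / H s ^ 2) :=
          mul_le_mul_of_nonneg_left hYn hXn0
      _ < _ := mul_lt_mul_of_pos_right hXn hYpos
  linarith

end Pool.Agent.H95G
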