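import Pool.Agent.HBM3.Defs

/-!
# Gauge and support function on the unit circle (helper file for MP_f9af53_co)
-/

namespace Pool.Agent.H95G

open Real Pool.Agent.HBM3

/-- The unit vector of angle `t`. -/
noncomputable def uv (t : ℝ) : Pl := !₂[cos t, sin t]

/-- The gauge of `K` on the unit circle. -/
noncomputable def rad (K : Set Pl) (t : ℝ) : ℝ := gauge K (uv t)

/-- The support function of `K` on the unit circle. -/
noncomputable def supp (K : Set Pl) (t : ℝ) : ℝ :=
  sSup ((fun x : Pl => x 0 * cos t + x 1 * sin t) '' K)

end Pool.Agent.H95G
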