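import Mathlib

/-!
A Poncelet measure argument: if finitely many points of the unit circle are such that every
tangent line of an inner circle separates one of them from that circle, then there are at least
as many points as in the concentric case.
-/

namespace Pool.Agent.H95G

open Real MeasureTheory Set

/-- support function of the inner circle -/
noncomputable def dd (ρ τ β ψ : ℝ) : ℝ := ρ + τ * cos (ψ - β)

/-- tangent length from a point of the unit circle to the inner circle -/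
noncomputable def LL (ρ τ β x : ℝ) : ℝ := sqrt (1 + τ ^ 2 - ρ ^ 2 - 2 * τ * cos (x - β))

/-- the Poncelet measure -/
noncomputable def Lam (ρ τ β x : ℝ) : ℝ := ∫ t in (0:ℝ)..x, 1 / LL ρ τ β t

/-- first moment of the Poncelet measure -/
noncomputable def Psi (ρ τ β x : ℝ) : ℝ := ∫ t in (0:ℝ)..x, t / LL ρ τ β t

lemma arccos_add_le {ρ y : ℝ} (hρ : 0 < ρ) (ha : -1 ≤ ρ - y) (hb : ρ - y ≤ 1)
    (hc : -1 ≤ ρ + y) (hd : ρ + y ≤ 1) :
    arccos (ρ + y) + arccos (ρ - y) ≤ 2 * arccos ρ := by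
  set p := arccos (ρ + y) with hp
  set q := arccos (ρ - y) with hq
  have hp0 : 0 ≤ p := arccos_nonneg _
  have hq0 : 0 ≤ q := arccos_nonneg _
  have hp1 : p ≤ π := arccos_le_pi _
  have hq1 : q ≤ π := arccos_le_pi _
  have hcp : cos p = ρ + y := cos_arccos hc hd
  have hcq : cos q = ρ - y := cos_arccos ha hb
  have hsum : cos p + cos q = 2 * cos ((p + q) / 2) * cos ((p - q) / 2) := cos_add_cos p q
  have h2 : ρ = cos ((p + q) / 2) * cos ((p - q) / 2) := by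
    have : cos p + cos q = 2 * ρ := by rw [hcp, hcq]; ring
    linarith
  have hdiff0 : 0 ≤ cos ((p - q) / 2) := by
    apply cos_nonneg_of_neg_pi_div_two_le_of_le <;> linarith
  have hdiff1 : cos ((p - q) / 2) ≤ 1 := cos_le_one _
  have hge : ρ ≤ cos ((p + q) / 2) := by
    have hpos : 0 < cos ((p + q) / 2) := by
      by_contra hn
      push Not at hn
      have : cos ((p + q) / 2) * cos ((p - q) / 2) ≤ 0 := mul_nonpos_of_nonpos_of_nonneg hn hdiff0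
      linarith
    nlinarith
  have := arccos_le_arccos hge
  rw [arccos_cos (by linarith) (by linarith)] at this
  linarith

section basics

variable {ρ τ β : ℝ}

lemma dd_lt (hτ : 0 ≤ τ) (h1 : ρ + τ < 1) (ψ : ℝ) : dd ρ τ β ψ < 1 := by
  have h := cos_le_one (ψ - β)
  unfold dd
  nlinarith

lemma lt_dd (hρ : 0 < ρ) (hτ : 0 ≤ τ) (h1 : ρ + τ < 1) (ψ : ℝ) : -1 < dd ρ τ β ψ := by
  have h := neg_one_le_cos (ψ - β)
  unfold dd
  nlinarith

lemma one_sub_dd_sq_pos (hρ : 0 < ρ) (hτ : 0 ≤ τ) (h1 : ρ + τ < 1) (ψ : ℝ) :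
    0 < 1 - dd ρ τ β ψ ^ 2 := by
  have ha := dd_lt (β := β) hτ h1 ψ
  have hb := lt_dd (β := β) hρ hτ h1 ψ
  nlinarith

lemma S_gt (hρ : 0 < ρ) (hτ : 0 ≤ τ) (h1 : ρ + τ < 1) (ψ : ℝ) :
    |τ * sin (ψ - β)| < sqrt (1 - dd ρ τ β ψ ^ 2) := by
  apply lt_sqrt_of_sq_lt
  rw [sq_abs]
  unfold dd
  have h := cos_le_one (ψ - β)
  have hsc := sin_sq_add_cos_sq (ψ - β)
  have h3 : (ρ + τ) ^ 2 < 1 := by nlinarith
  have h4 : 0 ≤ 2 * ρ * τ * (1 - cos (ψ - β)) := by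
    apply mul_nonneg (by positivity) (by linarith)
  have h5 : τ ^ 2 * sin (ψ - β) ^ 2 = τ ^ 2 * (1 - cos (ψ - β) ^ 2) := by
    rw [← hsc]; ring
  nlinarith

lemma LL_plus (hρ : 0 < ρ) (hτ : 0 ≤ τ) (h1 : ρ + τ < 1) (ψ : ℝ) :
    LL ρ τ β (ψ + arccos (dd ρ τ β ψ)) =
      sqrt (1 - dd ρ τ β ψ ^ 2) + τ * sin (ψ - β) := by
  have hS := S_gt (β := β) hρ hτ h1 ψ
  have hpos := one_sub_dd_sq_pos (β := β) hρ hτ h1 ψ
  have hSS : sqrt (1 - dd ρ τ β ψ ^ 2) ^ 2 = 1 - dd ρ τ β ψ ^ 2 := sq_sqrt hpos.le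
  have h0 : 0 ≤ sqrt (1 - dd ρ τ β ψ ^ 2) + τ * sin (ψ - β) := by
    have := (abs_lt.1 hS).1
    linarith
  unfold LL
  rw [← sqrt_sq h0]
  congr 1
  have hc : cos (ψ + arccos (dd ρ τ β ψ) - β) =
      cos (ψ - β) * dd ρ τ β ψ - sin (ψ - β) * sqrt (1 - dd ρ τ β ψ ^ 2) := by
    have he : ψ + arccos (dd ρ τ β ψ) - β = (ψ - β) + arccos (dd ρ τ β ψ) := by ring
    rw [he, cos_add, cos_arccos (lt_dd hρ hτ h1 ψ).le (dd_lt hτ h1 ψ).le, sin_arccos]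
  rw [hc]
  have hsc := sin_sq_add_cos_sq (ψ - β)
  have hdd : dd ρ τ β ψ = ρ + τ * cos (ψ - β) := rfl
  have hs2 : sin (ψ - β) ^ 2 = 1 - cos (ψ - β) ^ 2 := by linarith
  rw [add_sq, hSS, mul_pow, hs2, hdd]
  ring

lemma LL_minus (hρ : 0 < ρ) (hτ : 0 ≤ τ) (h1 : ρ + τ < 1) (ψ : ℝ) :
    LL ρ τ β (ψ - arccos (dd ρ τ β ψ)) =
      sqrt (1 - dd ρ τ β ψ ^ 2) - τ * sin (ψ - β) := by
  have hS := S_gt (β := β) hρ hτ h1 ψ
  have hpos := one_sub_dd_sq_pos (β := β) hρ hτ h1 ψ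
  have hSS : sqrt (1 - dd ρ τ β ψ ^ 2) ^ 2 = 1 - dd ρ τ β ψ ^ 2 := sq_sqrt hpos.le
  have h0 : 0 ≤ sqrt (1 - dd ρ τ β ψ ^ 2) - τ * sin (ψ - β) := by
    have := (abs_lt.1 hS).2
    linarith
  unfold LL
  rw [← sqrt_sq h0]
  congr 1
  have hc : cos (ψ - arccos (dd ρ τ β ψ) - β) =
      cos (ψ - β) * dd ρ τ β ψ + sin (ψ - β) * sqrt (1 - dd ρ τ β ψ ^ 2) := by
    have he : ψ - arccos (dd ρ τ β ψ) - β = (ψ - β) - arccos (dd ρ τ β ψ) := by ring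
    rw [he, cos_sub, cos_arccos (lt_dd hρ hτ h1 ψ).le (dd_lt hτ h1 ψ).le, sin_arccos]
  rw [hc]
  have hsc := sin_sq_add_cos_sq (ψ - β)
  have hdd : dd ρ τ β ψ = ρ + τ * cos (ψ - β) := rfl
  have hs2 : sin (ψ - β) ^ 2 = 1 - cos (ψ - β) ^ 2 := by linarith
  rw [sub_sq, hSS, mul_pow, hs2, hdd]
  ring

lemma LL_pos (hρ : 0 < ρ) (hτ : 0 ≤ τ) (h1 : ρ + τ < 1) (x : ℝ) : 0 < LL ρ τ β x := by
  unfold LL
  apply sqrt_pos.2
  have h := cos_le_one (x - β)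
  have h3 : 0 ≤ 2 * τ * (1 - cos (x - β)) := mul_nonneg (by positivity) (by linarith)
  nlinarith

lemma LL_cont : Continuous (LL ρ τ β) := by
  unfold LL
  fun_prop

lemma dd_cont : Continuous (dd ρ τ β) := by
  unfold dd
  fun_prop

lemma LL_periodic (x : ℝ) : LL ρ τ β (x + 2 * π) = LL ρ τ β x := by
  unfold LL
  have : x + 2 * π - β = x - β + 2 * π := by ring
  rw [this, cos_add_two_pi]

lemma dd_periodic (x : ℝ) : dd ρ τ β (x + 2 * π) = dd ρ τ β x := by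
  unfold dd
  have : x + 2 * π - β = x - β + 2 * π := by ring
  rw [this, cos_add_two_pi]

lemma inv_LL_cont (hρ : 0 < ρ) (hτ : 0 ≤ τ) (h1 : ρ + τ < 1) :
    Continuous (fun t => 1 / LL ρ τ β t) := by
  apply Continuous.div continuous_const LL_cont
  intro x
  exact (LL_pos hρ hτ h1 x).ne'

lemma id_LL_cont (hρ : 0 < ρ) (hτ : 0 ≤ τ) (h1 : ρ + τ < 1) :
    Continuous (fun t => t / LL ρ τ β t) := by
  apply Continuous.div continuous_id LL_cont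
  intro x
  exact (LL_pos hρ hτ h1 x).ne'

lemma Lam_deriv (hρ : 0 < ρ) (hτ : 0 ≤ τ) (h1 : ρ + τ < 1) (x : ℝ) :
    HasDerivAt (Lam ρ τ β) (1 / LL ρ τ β x) x := by
  have hc := inv_LL_cont (β := β) hρ hτ h1
  exact intervalIntegral.integral_hasDerivAt_right (hc.intervalIntegrable _ _)
    (hc.stronglyMeasurableAtFilter _ _) hc.continuousAt

lemma Psi_deriv (hρ : 0 < ρ) (hτ : 0 ≤ τ) (h1 : ρ + τ < 1) (x : ℝ) :
    HasDerivAt (Psi ρ τ β) (x / LL ρ τ β x) x := by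
  have hc := id_LL_cont (β := β) hρ hτ h1
  exact intervalIntegral.integral_hasDerivAt_right (hc.intervalIntegrable _ _)
    (hc.stronglyMeasurableAtFilter _ _) hc.continuousAt

/-- a function on the line with derivative zero everywhere is constant -/
lemma const_of_deriv {f : ℝ → ℝ} (hf : ∀ x, HasDerivAt f 0 x) (x y : ℝ) : f x = f y :=
  is_const_of_deriv_eq_zero (fun x => (hf x).differentiableAt) (fun x => (hf x).deriv) x y

lemma Lam_per (hρ : 0 < ρ) (hτ : 0 ≤ τ) (h1 : ρ + τ < 1) (x : ℝ) :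
    Lam ρ τ β (x + 2 * π) = Lam ρ τ β x + Lam ρ τ β (2 * π) := by
  have h : ∀ x, HasDerivAt (fun x => Lam ρ τ β (x + 2 * π) - Lam ρ τ β x) 0 x := by
    intro x
    have ha := (Lam_deriv (β := β) hρ hτ h1 (x + 2 * π)).comp_add_const x (2 * π)
    have hb := ha.sub (Lam_deriv (β := β) hρ hτ h1 x)
    rw [LL_periodic, sub_self] at hb
    exact hb
  have := const_of_deriv h x 0
  simp only [zero_add] at this
  have h0 : Lam ρ τ β 0 = 0 := by unfold Lam; simp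
  rw [h0] at this
  linarith

lemma Psi_per (hρ : 0 < ρ) (hτ : 0 ≤ τ) (h1 : ρ + τ < 1) (x : ℝ) :
    Psi ρ τ β (x + 2 * π) - Psi ρ τ β x = Psi ρ τ β (2 * π) + 2 * π * Lam ρ τ β x := by
  have h : ∀ x, HasDerivAt
      (fun x => Psi ρ τ β (x + 2 * π) - Psi ρ τ β x - 2 * π * Lam ρ τ β x) 0 x := by
    intro x
    have ha := (Psi_deriv (β := β) hρ hτ h1 (x + 2 * π)).comp_add_const x (2 * π)
    have hb := (ha.sub (Psi_deriv (β := β) hρ hτ h1 x)).sub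
      ((Lam_deriv (β := β) hρ hτ h1 x).const_mul (2 * π))
    have hz : (x + 2 * π) / LL ρ τ β (x + 2 * π) - x / LL ρ τ β x -
        2 * π * (1 / LL ρ τ β x) = 0 := by
      rw [LL_periodic]; ring
    rw [hz] at hb
    exact hb
  have := const_of_deriv h x 0
  simp only [zero_add] at this
  have h0 : Lam ρ τ β 0 = 0 := by unfold Lam; simp
  have h0' : Psi ρ τ β 0 = 0 := by unfold Psi; simp
  rw [h0, h0'] at this
  linarith

lemma arccos_deriv (hρ : 0 < ρ) (hτ : 0 ≤ τ) (h1 : ρ + τ < 1) (ψ : ℝ) :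
    HasDerivAt (fun ψ => arccos (dd ρ τ β ψ))
      (τ * sin (ψ - β) / sqrt (1 - dd ρ τ β ψ ^ 2)) ψ := by
  have h := hasDerivAt_arccos (lt_dd (β := β) hρ hτ h1 ψ).ne' (dd_lt (β := β) hτ h1 ψ).ne
  have hd : HasDerivAt (dd ρ τ β) (τ * (- sin (ψ - β))) ψ := by
    unfold dd
    have h3 : HasDerivAt (fun ψ : ℝ => ψ - β) 1 ψ := (hasDerivAt_id ψ).sub_const β
    have h4 := (h3.cos.const_mul τ).const_add ρ
    simpa using h4
  have h5 := h.comp ψ hd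
  have hval : -(1 / sqrt (1 - dd ρ τ β ψ ^ 2)) * (τ * (- sin (ψ - β))) =
      τ * sin (ψ - β) / sqrt (1 - dd ρ τ β ψ ^ 2) := by ring
  rw [hval] at h5
  exact h5

lemma Lam_plus_deriv (hρ : 0 < ρ) (hτ : 0 ≤ τ) (h1 : ρ + τ < 1) (ψ : ℝ) :
    HasDerivAt (fun ψ => Lam ρ τ β (ψ + arccos (dd ρ τ β ψ)))
      (1 / sqrt (1 - dd ρ τ β ψ ^ 2)) ψ := by
  have hA := arccos_deriv (β := β) hρ hτ h1 ψ
  have hf := (hasDerivAt_id ψ).add hA
  have hc := (Lam_deriv (β := β) hρ hτ h1 (ψ + arccos (dd ρ τ β ψ))).comp ψ hf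
  have hL := LL_plus (β := β) hρ hτ h1 ψ
  have hpos := LL_pos (β := β) hρ hτ h1 (ψ + arccos (dd ρ τ β ψ))
  have hS := sqrt_pos.2 (one_sub_dd_sq_pos (β := β) hρ hτ h1 ψ)
  have hval : 1 / LL ρ τ β (ψ + arccos (dd ρ τ β ψ)) *
      (1 + τ * sin (ψ - β) / sqrt (1 - dd ρ τ β ψ ^ 2)) =
      1 / sqrt (1 - dd ρ τ β ψ ^ 2) := by
    rw [hL] at hpos ⊢
    field_simp
  rw [hval] at hc
  exact hc

lemma Lam_minus_deriv (hρ : 0 < ρ) (hτ : 0 ≤ τ) (h1 : ρ + τ < 1) (ψ : ℝ) :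
    HasDerivAt (fun ψ => Lam ρ τ β (ψ - arccos (dd ρ τ β ψ)))
      (1 / sqrt (1 - dd ρ τ β ψ ^ 2)) ψ := by
  have hA := arccos_deriv (β := β) hρ hτ h1 ψ
  have hf := (hasDerivAt_id ψ).sub hA
  have hc := (Lam_deriv (β := β) hρ hτ h1 (ψ - arccos (dd ρ τ β ψ))).comp ψ hf
  have hL := LL_minus (β := β) hρ hτ h1 ψ
  have hpos := LL_pos (β := β) hρ hτ h1 (ψ - arccos (dd ρ τ β ψ))
  have hS := sqrt_pos.2 (one_sub_dd_sq_pos (β := β) hρ hτ h1 ψ)
  have hval : 1 / LL ρ τ β (ψ - arccos (dd ρ τ β ψ)) *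
      (1 - τ * sin (ψ - β) / sqrt (1 - dd ρ τ β ψ ^ 2)) =
      1 / sqrt (1 - dd ρ τ β ψ ^ 2) := by
    rw [hL] at hpos ⊢
    field_simp
  rw [hval] at hc
  exact hc

lemma Psi_plus_deriv (hρ : 0 < ρ) (hτ : 0 ≤ τ) (h1 : ρ + τ < 1) (ψ : ℝ) :
    HasDerivAt (fun ψ => Psi ρ τ β (ψ + arccos (dd ρ τ β ψ)))
      ((ψ + arccos (dd ρ τ β ψ)) / sqrt (1 - dd ρ τ β ψ ^ 2)) ψ := by
  have hA := arccos_deriv (β := β) hρ hτ h1 ψ
  have hf := (hasDerivAt_id ψ).add hA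
  have hc := (Psi_deriv (β := β) hρ hτ h1 (ψ + arccos (dd ρ τ β ψ))).comp ψ hf
  have hL := LL_plus (β := β) hρ hτ h1 ψ
  have hpos := LL_pos (β := β) hρ hτ h1 (ψ + arccos (dd ρ τ β ψ))
  have hS := sqrt_pos.2 (one_sub_dd_sq_pos (β := β) hρ hτ h1 ψ)
  have hval : (ψ + arccos (dd ρ τ β ψ)) / LL ρ τ β (ψ + arccos (dd ρ τ β ψ)) *
      (1 + τ * sin (ψ - β) / sqrt (1 - dd ρ τ β ψ ^ 2)) =
      (ψ + arccos (dd ρ τ β ψ)) / sqrt (1 - dd ρ τ β ψ ^ 2) := by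
    rw [hL] at hpos ⊢
    field_simp
  rw [hval] at hc
  exact hc

lemma Psi_minus_deriv (hρ : 0 < ρ) (hτ : 0 ≤ τ) (h1 : ρ + τ < 1) (ψ : ℝ) :
    HasDerivAt (fun ψ => Psi ρ τ β (ψ - arccos (dd ρ τ β ψ)))
      ((ψ - arccos (dd ρ τ β ψ)) / sqrt (1 - dd ρ τ β ψ ^ 2)) ψ := by
  have hA := arccos_deriv (β := β) hρ hτ h1 ψ
  have hf := (hasDerivAt_id ψ).sub hA
  have hc := (Psi_deriv (β := β) hρ hτ h1 (ψ - arccos (dd ρ τ β ψ))).comp ψ hf
  have hL := LL_minus (β := β) hρ hτ h1 ψ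
  have hpos := LL_pos (β := β) hρ hτ h1 (ψ - arccos (dd ρ τ β ψ))
  have hS := sqrt_pos.2 (one_sub_dd_sq_pos (β := β) hρ hτ h1 ψ)
  have hval : (ψ - arccos (dd ρ τ β ψ)) / LL ρ τ β (ψ - arccos (dd ρ τ β ψ)) *
      (1 - τ * sin (ψ - β) / sqrt (1 - dd ρ τ β ψ ^ 2)) =
      (ψ - arccos (dd ρ τ β ψ)) / sqrt (1 - dd ρ τ β ψ ^ 2) := by
    rw [hL] at hpos ⊢
    field_simp
  rw [hval] at hc
  exact hc

lemma c0_const (hρ : 0 < ρ) (hτ : 0 ≤ τ) (h1 : ρ + τ < 1) (ψ : ℝ) :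
    Lam ρ τ β (ψ + arccos (dd ρ τ β ψ)) - Lam ρ τ β (ψ - arccos (dd ρ τ β ψ)) =
    Lam ρ τ β (0 + arccos (dd ρ τ β 0)) - Lam ρ τ β (0 - arccos (dd ρ τ β 0)) := by
  have h : ∀ ψ, HasDerivAt (fun ψ => Lam ρ τ β (ψ + arccos (dd ρ τ β ψ)) -
      Lam ρ τ β (ψ - arccos (dd ρ τ β ψ))) 0 ψ := by
    intro ψ
    have := (Lam_plus_deriv (β := β) hρ hτ h1 ψ).sub (Lam_minus_deriv (β := β) hρ hτ h1 ψ)
    rw [sub_self] at this
    exact this
  exact const_of_deriv h ψ 0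

lemma w_cont (hρ : 0 < ρ) (hτ : 0 ≤ τ) (h1 : ρ + τ < 1) :
    Continuous (fun ψ => 1 / sqrt (1 - dd ρ τ β ψ ^ 2)) := by
  have hd : Continuous (dd ρ τ β) := dd_cont
  apply Continuous.div continuous_const (by fun_prop)
  intro ψ
  exact (sqrt_pos.2 (one_sub_dd_sq_pos hρ hτ h1 ψ)).ne'

lemma A_cont : Continuous (fun ψ => arccos (dd ρ τ β ψ)) :=
  continuous_arccos.comp dd_cont

/-- total mass as an integral over directions -/
lemma W_eq (hρ : 0 < ρ) (hτ : 0 ≤ τ) (h1 : ρ + τ < 1) :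
    ∫ ψ in (0:ℝ)..(2 * π), 1 / sqrt (1 - dd ρ τ β ψ ^ 2) = Lam ρ τ β (2 * π) := by
  have h := intervalIntegral.integral_eq_sub_of_hasDerivAt
    (fun ψ _ => Lam_plus_deriv (β := β) hρ hτ h1 ψ)
    ((w_cont (β := β) hρ hτ h1).intervalIntegrable 0 (2 * π))
  rw [h]
  have h2 : dd ρ τ β (2 * π) = dd ρ τ β 0 := by
    have := dd_periodic (ρ := ρ) (τ := τ) (β := β) 0
    rwa [zero_add] at this
  have h3 : 2 * π + arccos (dd ρ τ β (2 * π)) = (0 + arccos (dd ρ τ β 0)) + 2 * π := by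
    rw [h2]; ring
  rw [h3, Lam_per hρ hτ h1]
  ring

/-- first moment identity -/
lemma c0_eq (hρ : 0 < ρ) (hτ : 0 ≤ τ) (h1 : ρ + τ < 1) :
    ∫ ψ in (0:ℝ)..(2 * π), arccos (dd ρ τ β ψ) * (1 / sqrt (1 - dd ρ τ β ψ ^ 2)) =
    π * (Lam ρ τ β (0 + arccos (dd ρ τ β 0)) - Lam ρ τ β (0 - arccos (dd ρ τ β 0))) := by
  have hcont : Continuous (fun ψ => arccos (dd ρ τ β ψ) * (1 / sqrt (1 - dd ρ τ β ψ ^ 2))) :=
    A_cont.mul (w_cont hρ hτ h1)
  have hder : ∀ ψ, HasDerivAt (fun ψ => (Psi ρ τ β (ψ + arccos (dd ρ τ β ψ)) -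
      Psi ρ τ β (ψ - arccos (dd ρ τ β ψ))) / 2)
      (arccos (dd ρ τ β ψ) * (1 / sqrt (1 - dd ρ τ β ψ ^ 2))) ψ := by
    intro ψ
    have := ((Psi_plus_deriv (β := β) hρ hτ h1 ψ).sub
      (Psi_minus_deriv (β := β) hρ hτ h1 ψ)).div_const 2
    have hval : ((ψ + arccos (dd ρ τ β ψ)) / sqrt (1 - dd ρ τ β ψ ^ 2) -
        (ψ - arccos (dd ρ τ β ψ)) / sqrt (1 - dd ρ τ β ψ ^ 2)) / 2 =
        arccos (dd ρ τ β ψ) * (1 / sqrt (1 - dd ρ τ β ψ ^ 2)) := by ring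
    rw [hval] at this
    exact this
  have h := intervalIntegral.integral_eq_sub_of_hasDerivAt
    (fun ψ _ => hder ψ) (hcont.intervalIntegrable 0 (2 * π))
  rw [h]
  have h2 : dd ρ τ β (2 * π) = dd ρ τ β 0 := by
    have := dd_periodic (ρ := ρ) (τ := τ) (β := β) 0
    rwa [zero_add] at this
  have h3 : 2 * π + arccos (dd ρ τ β (2 * π)) = (0 + arccos (dd ρ τ β 0)) + 2 * π := by
    rw [h2]; ring
  have h4 : 2 * π - arccos (dd ρ τ β (2 * π)) = (0 - arccos (dd ρ τ β 0)) + 2 * π := by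
    rw [h2]; ring
  rw [h3, h4]
  have h5 := Psi_per (β := β) hρ hτ h1 (0 + arccos (dd ρ τ β 0))
  have h6 := Psi_per (β := β) hρ hτ h1 (0 - arccos (dd ρ τ β 0))
  linarith

/-- the pairing inequality -/
lemma pair_ineq (hρ : 0 < ρ) (h1 : ρ + τ < 1) {y : ℝ} (hy0 : 0 ≤ y) (hy : y ≤ τ) :
    0 ≤ (arccos ρ - arccos (ρ + y)) * (1 / sqrt (1 - (ρ + y) ^ 2)) +
      (arccos ρ - arccos (ρ - y)) * (1 / sqrt (1 - (ρ - y) ^ 2)) := by
  have hadd := arccos_add_le (ρ := ρ) (y := y) hρ (by linarith) (by linarith) (by linarith)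
    (by linarith)
  have ha : 0 ≤ arccos ρ - arccos (ρ + y) := by
    have := arccos_le_arccos (show ρ ≤ ρ + y by linarith)
    linarith
  have hp1 : 0 < 1 - (ρ + y) ^ 2 := by nlinarith
  have hle : 1 - (ρ + y) ^ 2 ≤ 1 - (ρ - y) ^ 2 := by nlinarith
  have hs1 : 0 < sqrt (1 - (ρ + y) ^ 2) := sqrt_pos.2 hp1
  have hs2 : 0 < sqrt (1 - (ρ - y) ^ 2) := sqrt_pos.2 (by linarith)
  have hle2 : 1 / sqrt (1 - (ρ - y) ^ 2) ≤ 1 / sqrt (1 - (ρ + y) ^ 2) :=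
    one_div_le_one_div_of_le hs1 (sqrt_le_sqrt hle)
  have hpos2 : 0 < 1 / sqrt (1 - (ρ - y) ^ 2) := by positivity
  have h3 := mul_le_mul_of_nonneg_left hle2 ha
  have h4 : 0 ≤ (2 * arccos ρ - (arccos (ρ + y) + arccos (ρ - y))) *
      (1 / sqrt (1 - (ρ - y) ^ 2)) := mul_nonneg (by linarith) hpos2.le
  nlinarith

lemma pair_ineq_dd (hρ : 0 < ρ) (hτ : 0 ≤ τ) (h1 : ρ + τ < 1) (ψ : ℝ) :
    0 ≤ (arccos ρ - arccos (dd ρ τ β ψ)) * (1 / sqrt (1 - dd ρ τ β ψ ^ 2)) +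
      (arccos ρ - arccos (dd ρ τ β (ψ + π))) * (1 / sqrt (1 - dd ρ τ β (ψ + π) ^ 2)) := by
  have h2 : dd ρ τ β (ψ + π) = ρ - τ * cos (ψ - β) := by
    unfold dd
    have : ψ + π - β = ψ - β + π := by ring
    rw [this, cos_add_pi]; ring
  have h3 : dd ρ τ β ψ = ρ + τ * cos (ψ - β) := rfl
  have hc1 := cos_le_one (ψ - β)
  have hc2 := neg_one_le_cos (ψ - β)
  rw [h2, h3]
  rcases le_total 0 (cos (ψ - β)) with hc | hc
  · exact pair_ineq hρ h1 (y := τ * cos (ψ - β)) (mul_nonneg hτ hc) (by nlinarith)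
  · have h := pair_ineq (τ := τ) hρ h1 (y := - (τ * cos (ψ - β))) (by nlinarith) (by nlinarith)
    rw [← sub_eq_add_neg, sub_neg_eq_add] at h
    linarith

lemma mean_ineq (hρ : 0 < ρ) (hτ : 0 ≤ τ) (h1 : ρ + τ < 1) :
    ∫ ψ in (0:ℝ)..(2 * π), arccos (dd ρ τ β ψ) * (1 / sqrt (1 - dd ρ τ β ψ ^ 2)) ≤
    arccos ρ * ∫ ψ in (0:ℝ)..(2 * π), 1 / sqrt (1 - dd ρ τ β ψ ^ 2) := by
  have hcA : Continuous (fun ψ => arccos (dd ρ τ β ψ) * (1 / sqrt (1 - dd ρ τ β ψ ^ 2))) :=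
    A_cont.mul (w_cont hρ hτ h1)
  have hcw := w_cont (β := β) hρ hτ h1
  have hcB : Continuous (fun ψ => arccos ρ * (1 / sqrt (1 - dd ρ τ β ψ ^ 2))) :=
    continuous_const.mul hcw
  rw [← intervalIntegral.integral_const_mul, ← sub_nonneg,
    ← intervalIntegral.integral_sub (hcB.intervalIntegrable _ _)
      (hcA.intervalIntegrable _ _)]
  have hg : (fun ψ => arccos ρ * (1 / sqrt (1 - dd ρ τ β ψ ^ 2)) -
      arccos (dd ρ τ β ψ) * (1 / sqrt (1 - dd ρ τ β ψ ^ 2))) =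
      fun ψ => (arccos ρ - arccos (dd ρ τ β ψ)) * (1 / sqrt (1 - dd ρ τ β ψ ^ 2)) := by
    funext ψ; ring
  rw [hg]
  set g : ℝ → ℝ := fun ψ => (arccos ρ - arccos (dd ρ τ β ψ)) *
    (1 / sqrt (1 - dd ρ τ β ψ ^ 2)) with hgdef
  have hgc : Continuous g := (continuous_const.sub A_cont).mul hcw
  have hgc' : Continuous (fun ψ => g (ψ + π)) :=
    hgc.comp (continuous_id.add continuous_const)
  have hsplit : ∫ ψ in (0:ℝ)..(2 * π), g ψ = ∫ ψ in (0:ℝ)..π, (g ψ + g (ψ + π)) := by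
    rw [← intervalIntegral.integral_add_adjacent_intervals
      (hgc.intervalIntegrable 0 π) (hgc.intervalIntegrable π (2 * π)),
      intervalIntegral.integral_add (hgc.intervalIntegrable 0 π)
      (hgc'.intervalIntegrable 0 π)]
    congr 1
    have := intervalIntegral.integral_comp_add_right (a := 0) (b := π) g π
    rw [this, zero_add]
    congr 1
    ring
  rw [hsplit]
  apply intervalIntegral.integral_nonneg pi_pos.le
  intro ψ _
  exact pair_ineq_dd hρ hτ h1 ψ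

lemma Lam_mono (hρ : 0 < ρ) (hτ : 0 ≤ τ) (h1 : ρ + τ < 1) : StrictMono (Lam ρ τ β) := by
  apply strictMono_of_deriv_pos
  intro x
  rw [(Lam_deriv (β := β) hρ hτ h1 x).deriv]
  have := LL_pos (β := β) hρ hτ h1 x
  positivity

lemma Lam_per_int (hρ : 0 < ρ) (hτ : 0 ≤ τ) (h1 : ρ + τ < 1) (x : ℝ) (k : ℤ) :
    Lam ρ τ β (x + k * (2 * π)) = Lam ρ τ β x + k * Lam ρ τ β (2 * π) := by
  induction k using Int.induction_on with
  | zero => simp
  | succ i ih =>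
    have he : x + ((i : ℤ) + 1 : ℤ) * (2 * π) = (x + (i : ℤ) * (2 * π)) + 2 * π := by
      push_cast; ring
    rw [he, Lam_per hρ hτ h1, ih]
    push_cast; ring
  | pred i ih =>
    have he : (x + ((-(i : ℤ) - 1 : ℤ) : ℝ) * (2 * π)) + 2 * π = x + ((-(i : ℤ) : ℤ) : ℝ) * (2 * π) := by
      push_cast; ring
    have h := Lam_per (β := β) hρ hτ h1 (x + ((-(i : ℤ) - 1 : ℤ) : ℝ) * (2 * π))
    rw [he, ih] at h
    push_cast at h ⊢
    linarith

lemma onto (hρ : 0 < ρ) (hτ : 0 ≤ τ) (h1 : ρ + τ < 1) (x : ℝ) :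
    ∃ ψ, Lam ρ τ β (ψ - arccos (dd ρ τ β ψ)) = x := by
  set W := Lam ρ τ β (2 * π) with hW
  have hWpos : 0 < W := by
    have h0 : Lam ρ τ β 0 = 0 := by unfold Lam; simp
    have := Lam_mono (β := β) hρ hτ h1 (show (0:ℝ) < 2 * π by positivity)
    rw [h0] at this
    exact this
  set F : ℝ → ℝ := fun ψ => Lam ρ τ β (ψ - arccos (dd ρ τ β ψ)) with hF
  have hFc : Continuous F := by
    apply continuous_iff_continuousAt.2
    intro ψ
    exact (Lam_minus_deriv hρ hτ h1 ψ).continuousAt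
  have hFper : ∀ k : ℤ, F (k * (2 * π)) = F 0 + k * W := by
    intro k
    have hdk : dd ρ τ β (k * (2 * π)) = dd ρ τ β 0 := by
      unfold dd
      have : (k : ℝ) * (2 * π) - β = (0 - β) + k * (2 * π) := by ring
      rw [this, cos_add_int_mul_two_pi]
    simp only [hF]
    rw [hdk]
    have : (k : ℝ) * (2 * π) - arccos (dd ρ τ β 0) = (0 - arccos (dd ρ τ β 0)) + k * (2 * π) := by
      ring
    rw [this, Lam_per_int hρ hτ h1]
  obtain ⟨m, hm⟩ := exists_int_gt ((x - F 0) / W)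
  obtain ⟨l, hl⟩ := exists_int_lt ((x - F 0) / W)
  rw [div_lt_iff₀ hWpos] at hm
  rw [lt_div_iff₀ hWpos] at hl
  have hr : x ∈ Set.range F := mem_range_of_exists_le_of_exists_ge hFc
    ⟨(l : ℝ) * (2 * π), by rw [hFper]; linarith⟩
    ⟨(m : ℝ) * (2 * π), by rw [hFper]; linarith⟩
  exact hr

end basics

/-- covering of a circle of length `W` by `n` arcs of length `c` -/
lemma arcs_cover {W c : ℝ} (hW : 0 < W) (hc : 0 ≤ c) {n : ℕ} (a : Fin n → ℝ)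
    (h : ∀ x : ℝ, ∃ i, ∃ k : ℤ, x ≤ a i + k * W ∧ a i + k * W ≤ x + c) : W ≤ n * c := by
  have : Fact (0 < W) := ⟨hW⟩
  have hcov : (Set.univ : Set (AddCircle W)) ⊆
      ⋃ i : Fin n, Metric.closedBall ((a i - c / 2 : ℝ) : AddCircle W) (c / 2) := by
    intro z _
    induction z using QuotientAddGroup.induction_on with
    | H x =>
      obtain ⟨i, k, h1, h2⟩ := h x
      rw [Set.mem_iUnion]
      refine ⟨i, ?_⟩
      have hm : x ∈ ((↑) : ℝ → AddCircle W) ⁻¹'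
          Metric.closedBall ((a i - c / 2 : ℝ) : AddCircle W) (c / 2) := by
        rw [AddCircle.coe_real_preimage_closedBall_eq_iUnion, Set.mem_iUnion]
        refine ⟨k, ?_⟩
        rw [Metric.mem_closedBall, Real.dist_eq, zsmul_eq_mul, abs_le]
        constructor <;> linarith
      exact hm
  have hm := measure_mono (μ := (volume : Measure (AddCircle W))) hcov
  rw [AddCircle.measure_univ] at hm
  have hm2 := hm.trans (measure_iUnion_le _)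
  simp only [AddCircle.volume_closedBall, tsum_fintype, Finset.sum_const, Finset.card_univ,
    Fintype.card_fin, nsmul_eq_mul] at hm2
  have h3 : ENNReal.ofReal (min W (2 * (c / 2))) ≤ ENNReal.ofReal c := by
    apply ENNReal.ofReal_le_ofReal
    refine (min_le_right _ _).trans ?_
    linarith
  have h4 : ENNReal.ofReal W ≤ ENNReal.ofReal (n * c) := by
    rw [ENNReal.ofReal_mul (by positivity), ENNReal.ofReal_natCast]
    exact hm2.trans (by gcongr)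
  exact (ENNReal.ofReal_le_ofReal_iff (by positivity)).1 h4

theorem disc_cover {ρ τ β : ℝ} (hρ : 0 < ρ) (hτ : 0 ≤ τ) (h1 : ρ + τ < 1) {n : ℕ}
    (φ : Fin n → ℝ) (hcov : ∀ ψ : ℝ, ∃ i, ρ + τ * cos (ψ - β) ≤ cos (φ i - ψ)) :
    π ≤ n * arccos ρ := by
  set W := Lam ρ τ β (2 * π) with hW
  have hWpos : 0 < W := by
    have h0 : Lam ρ τ β 0 = 0 := by unfold Lam; simp
    have := Lam_mono (β := β) hρ hτ h1 (show (0:ℝ) < 2 * π by positivity)
    rw [h0] at this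
    exact this
  set c := Lam ρ τ β (0 + arccos (dd ρ τ β 0)) - Lam ρ τ β (0 - arccos (dd ρ τ β 0)) with hc
  have hc0 : 0 ≤ c := by
    have h0 : 0 ≤ arccos (dd ρ τ β 0) := arccos_nonneg _
    have := (Lam_mono (β := β) hρ hτ h1).monotone
      (show 0 - arccos (dd ρ τ β 0) ≤ 0 + arccos (dd ρ τ β 0) by linarith)
    linarith
  have hcover : W ≤ n * c := by
    apply arcs_cover hWpos hc0 (fun i => Lam ρ τ β (φ i))
    intro x
    obtain ⟨ψ, hψ⟩ := onto (β := β) hρ hτ h1 x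
    obtain ⟨i, hi⟩ := hcov ψ
    have hcc := c0_const (β := β) hρ hτ h1 ψ
    rw [hψ, ← hc] at hcc
    obtain ⟨k, hk⟩ : ∃ k : ℤ, |φ i - ψ + k * (2 * π)| ≤ π := by
      refine ⟨- round ((φ i - ψ) / (2 * π)), ?_⟩
      have h := abs_sub_round ((φ i - ψ) / (2 * π))
      have h2 : φ i - ψ + ((-round ((φ i - ψ) / (2 * π)) : ℤ) : ℝ) * (2 * π) =
          ((φ i - ψ) / (2 * π) - round ((φ i - ψ) / (2 * π))) * (2 * π) := by
        push_cast
        field_simp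
        ring
      rw [h2, abs_mul, abs_of_pos (show (0:ℝ) < 2 * π by positivity)]
      nlinarith [pi_pos]
    have hcos : cos |φ i - ψ + k * (2 * π)| = cos (φ i - ψ) := by
      rw [cos_abs, cos_add_int_mul_two_pi]
    have hle : |φ i - ψ + k * (2 * π)| ≤ arccos (dd ρ τ β ψ) := by
      rw [← arccos_cos (abs_nonneg (φ i - ψ + k * (2 * π))) hk, hcos]
      exact arccos_le_arccos hi
    rw [abs_le] at hle
    refine ⟨i, k, ?_, ?_⟩
    · rw [← hψ, ← Lam_per_int hρ hτ h1]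
      exact (Lam_mono hρ hτ h1).monotone (by linarith)
    · have h5 : x + c = Lam ρ τ β (ψ + arccos (dd ρ τ β ψ)) := by linarith
      show Lam ρ τ β (φ i) + k * W ≤ x + c
      rw [h5, hW, ← Lam_per_int hρ hτ h1]
      exact (Lam_mono hρ hτ h1).monotone (by linarith)
  have h3 := mean_ineq (β := β) hρ hτ h1
  rw [c0_eq hρ hτ h1, W_eq hρ hτ h1, ← hc, ← hW] at h3
  -- π * c ≤ arccos ρ * W, W ≤ n * c
  have h4 : π * W ≤ n * arccos ρ * W := by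
    have h5 : π * W ≤ π * (n * c) := mul_le_mul_of_nonneg_left hcover pi_pos.le
    have h6 : (n : ℝ) * (π * c) ≤ n * (arccos ρ * W) :=
      mul_le_mul_of_nonneg_left h3 (Nat.cast_nonneg n)
    nlinarith
  exact le_of_mul_le_mul_right h4 hWpos

end Pool.Agent.H95G
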