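import Mathlib

/-!
# Pairs of functions on the circle (helper file for MP_f9af53_co)

`G` is the gauge of a planar convex body (with `0` in its interior) on the unit circle, `H` is its
support function on the unit circle.
-/

namespace Pool.Agent.H95G

open Real

/-- The pair (gauge, support function) of a planar convex body, as functions of the angle. -/
structure IsPair (G H : ℝ → ℝ) : Prop where
  contG : Continuous G
  contH : Continuous H
  posG : ∀ t, 0 < G t
  posH : ∀ t, 0 < H t
  perG : ∀ t, G (t + 2 * π) = G t
  perH : ∀ t, H (t + 2 * π) = H t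
  le : ∀ s t, cos (s - t) ≤ G s * H t
  touchG : ∀ s, ∃ t, cos (s - t) = G s * H t
  touchH : ∀ t, ∃ s, cos (s - t) = G s * H t

namespace IsPair

variable {G H : ℝ → ℝ}

theorem symm (h : IsPair G H) : IsPair H G where
  contG := h.contH
  contH := h.contG
  posG := h.posH
  posH := h.posG
  perG := h.perH
  perH := h.perG
  le := fun s t => by
    rw [← cos_neg, neg_sub, mul_comm]
    exact h.le t s
  touchG := fun s => by
    obtain ⟨t, ht⟩ := h.touchH s
    exact ⟨t, by rw [← cos_neg, neg_sub, mul_comm]; exact ht⟩
  touchH := fun t => by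
    obtain ⟨s, hs⟩ := h.touchG t
    exact ⟨s, by rw [← cos_neg, neg_sub, mul_comm]; exact hs⟩

theorem perG_int (h : IsPair G H) (t : ℝ) (k : ℤ) : G (t + k * (2 * π)) = G t := by
  have hp : Function.Periodic G (2 * π) := h.perG
  exact hp.int_mul k t

theorem perH_int (h : IsPair G H) (t : ℝ) (k : ℤ) : H (t + k * (2 * π)) = H t :=
  h.symm.perG_int t k

end IsPair

/-- If `cos x > 0` then `x` is within `π / 2` of a multiple of `2 π`. -/
theorem exists_near {x : ℝ} (hx : 0 < cos x) : ∃ k : ℤ, |x + k * (2 * π)| < π / 2 := by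
  refine ⟨-round (x / (2 * π)), ?_⟩
  have hpi := pi_pos
  set k := round (x / (2 * π)) with hk
  have h1 : |x / (2 * π) - k| ≤ 1 / 2 := abs_sub_round _
  have h2 : |x + ((-k : ℤ) : ℝ) * (2 * π)| ≤ π := by
    have : x + ((-k : ℤ) : ℝ) * (2 * π) = (x / (2 * π) - k) * (2 * π) := by
      push_cast
      field_simp
      ring
    rw [this, abs_mul, abs_of_pos (by positivity : (0:ℝ) < 2 * π)]
    nlinarith
  have h3 : cos (x + ((-k : ℤ) : ℝ) * (2 * π)) = cos x := cos_add_int_mul_two_pi x (-k)
  by_contra hcon
  rw [not_lt] at hcon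
  have h4 : cos |x + ((-k : ℤ) : ℝ) * (2 * π)| ≤ 0 := by
    apply cos_nonpos_of_pi_div_two_le_of_le hcon
    linarith
  rw [cos_abs, h3] at h4
  linarith

namespace IsPair

variable {G H : ℝ → ℝ}

theorem touchG' (h : IsPair G H) (s : ℝ) : ∃ t, |s - t| < π / 2 ∧ cos (s - t) = G s * H t := by
  obtain ⟨t, ht⟩ := h.touchG s
  have hpos : 0 < cos (s - t) := by
    rw [ht]; exact mul_pos (h.posG _) (h.posH _)
  obtain ⟨k, hk⟩ := exists_near hpos
  refine ⟨t + ((-k : ℤ) : ℝ) * (2 * π), ?_, ?_⟩
  · have : s - (t + ((-k : ℤ) : ℝ) * (2 * π)) = s - t + k * (2 * π) := by push_cast; ring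
    rw [this]; exact hk
  · have : s - (t + ((-k : ℤ) : ℝ) * (2 * π)) = s - t + k * (2 * π) := by push_cast; ring
    rw [this, h.perH_int, cos_add_int_mul_two_pi, ht]

theorem touchH' (h : IsPair G H) (t : ℝ) : ∃ s, |s - t| < π / 2 ∧ cos (s - t) = G s * H t := by
  obtain ⟨s, h1, h2⟩ := h.symm.touchG' t
  refine ⟨s, by rw [abs_sub_comm]; exact h1, ?_⟩
  rw [← cos_neg, neg_sub, mul_comm]; exact h2

/-- The identity behind all convexity arguments. -/
theorem cos_combo (a b s t : ℝ) :
    cos (s - t) * sin (b - a) = cos (a - t) * sin (b - s) + cos (b - t) * sin (s - a) := by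
  simp only [cos_sub, sin_sub]
  have h1 := sin_sq_add_cos_sq a
  have h2 := sin_sq_add_cos_sq b
  have h3 := sin_sq_add_cos_sq s
  have h4 := sin_sq_add_cos_sq t
  ring

/-- Convexity of `G` on the circle. -/
theorem subl (h : IsPair G H) {a b s : ℝ} (h1 : a ≤ s) (h2 : s ≤ b) (h3 : b ≤ a + π) :
    G s * sin (b - a) ≤ G a * sin (b - s) + G b * sin (s - a) := by
  obtain ⟨t, ht⟩ := h.touchG s
  have hH := h.posH t
  have e1 := h.le a t
  have e2 := h.le b t
  have s1 : 0 ≤ sin (b - s) := sin_nonneg_of_nonneg_of_le_pi (by linarith) (by linarith)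
  have s2 : 0 ≤ sin (s - a) := sin_nonneg_of_nonneg_of_le_pi (by linarith) (by linarith)
  have key := cos_combo a b s t
  rw [ht] at key
  have : G s * sin (b - a) * H t ≤ (G a * sin (b - s) + G b * sin (s - a)) * H t := by
    nlinarith [mul_le_mul_of_nonneg_right e1 s1, mul_le_mul_of_nonneg_right e2 s2]
  exact le_of_mul_le_mul_right this hH

/-- The sector with angles between `a` and `b` has at least the area of the triangle. -/
theorem sector (h : IsPair G H) {a b : ℝ} (hab : a < b) (hb : b < a + π) :
    sin (b - a) / (G a * G b) ≤ ∫ s in a..b, 1 / G s ^ 2 := by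
  have hS : 0 < sin (b - a) := sin_pos_of_pos_of_lt_pi (by linarith) (by linarith)
  have hA := h.posG a
  have hB := h.posG b
  set S := sin (b - a) with hSdef
  set A := G a with hAdef
  set B := G b with hBdef
  let L : ℝ → ℝ := fun s => (A * sin (b - s) + B * sin (s - a)) / S
  have hL : ∀ s ∈ Set.Icc a b, G s ≤ L s := by
    intro s hs
    have := h.subl hs.1 hs.2 hb.le
    rw [le_div_iff₀ hS]
    exact this
  have hLpos : ∀ s ∈ Set.Icc a b, 0 < L s := fun s hs => lt_of_lt_of_le (h.posG s) (hL s hs)
  have hLcont : Continuous L := by fun_prop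
  have hderiv : ∀ s ∈ Set.uIcc a b,
      HasDerivAt (fun s => sin (s - a) / (A * L s)) (1 / L s ^ 2) s := by
    intro s hs
    rw [Set.uIcc_of_le hab.le] at hs
    have hLs := hLpos s hs
    have d1 : HasDerivAt (fun s => sin (s - a)) (cos (s - a)) s := by
      have := ((hasDerivAt_id s).sub_const a).sin
      simpa using this
    have d2 : HasDerivAt L ((A * (-cos (b - s)) + B * cos (s - a)) / S) s := by
      have e1 : HasDerivAt (fun s => sin (b - s)) (-cos (b - s)) s := by
        have := ((hasDerivAt_id s).const_sub b).sin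
        simpa using this
      exact ((e1.const_mul A).add (d1.const_mul B)).div_const S
    have d3 : HasDerivAt (fun s => sin (s - a) / (A * L s))
        ((cos (s - a) * (A * L s) - sin (s - a) * (A * ((A * (-cos (b - s)) + B * cos (s - a)) / S)))
          / (A * L s) ^ 2) s := d1.div (d2.const_mul A) (by positivity)
    refine d3.congr_deriv ?_
    have hLS : L s * S = A * sin (b - s) + B * sin (s - a) := by
      simp only [L]; field_simp
    have hid : cos (s - a) * sin (b - s) + sin (s - a) * cos (b - s) = S := by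
      rw [hSdef, show b - a = (b - s) + (s - a) by ring, sin_add]; ring
    have key : cos (s - a) * L s - sin (s - a) * ((A * (-cos (b - s)) + B * cos (s - a)) / S) = A := by
      have : (cos (s - a) * L s - sin (s - a) * ((A * (-cos (b - s)) + B * cos (s - a)) / S)) * S
          = A * S := by
        have : (cos (s - a) * L s - sin (s - a) * ((A * (-cos (b - s)) + B * cos (s - a)) / S)) * S
          = cos (s - a) * (L s * S) - sin (s - a) * (A * (-cos (b - s)) + B * cos (s - a)) := by
          field_simp
        rw [this, hLS, ← hid]; ring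
      exact mul_right_cancel₀ hS.ne' this
    rw [div_eq_div_iff (by positivity) (by positivity)]
    have : cos (s - a) * (A * L s) - sin (s - a) * (A * ((A * (-cos (b - s)) + B * cos (s - a)) / S))
        = A * A := by
      calc _ = A * (cos (s - a) * L s
            - sin (s - a) * ((A * (-cos (b - s)) + B * cos (s - a)) / S)) := by ring
        _ = A * A := by rw [key]
    rw [this]; ring
  have hint : IntervalIntegrable (fun s => 1 / L s ^ 2) MeasureTheory.volume a b := by
    apply ContinuousOn.intervalIntegrable
    rw [Set.uIcc_of_le hab.le]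
    apply ContinuousOn.div continuousOn_const (hLcont.pow 2).continuousOn
    intro s hs
    exact pow_ne_zero 2 (hLpos s hs).ne'
  have hftc := intervalIntegral.integral_eq_sub_of_hasDerivAt hderiv hint
  have hLb : L b = B := by simp only [L, sub_self, sin_zero, mul_zero, zero_add, ← hSdef]; field_simp
  have hval : ∫ s in a..b, 1 / L s ^ 2 = S / (A * B) := by
    rw [hftc, hLb]; simp [hSdef]
  rw [← hval]
  apply intervalIntegral.integral_mono_on hab.le hint
  · apply Continuous.intervalIntegrable
    exact continuous_const.div (h.contG.pow 2) (fun s => by have := h.posG s; positivity)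
  · intro s hs
    have h1 := hL s hs
    have h2 := h.posG s
    exact one_div_le_one_div_of_le (by positivity) (by nlinarith)

end IsPair

end Pool.Agent.H95G
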