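import Pool.Agent.H95G.Defs
import Pool.Agent.H95G.Pair

/-!
# The polygon of a chain of directions (helper file for MP_f9af53_co)
-/

namespace Pool.Agent.H95G

open Real Pool.Agent.HBM3 Pointwise Finset

theorem uv_combo (a b s : ℝ) :
    sin (b - a) • uv s = sin (b - s) • uv a + sin (s - a) • uv b := by
  ext i
  fin_cases i
  · simp only [uv, PiLp.smul_apply, PiLp.add_apply, smul_eq_mul]
    simp only [Fin.zero_eta, Matrix.cons_val_zero, sin_sub]
    ring
  · simp only [uv, PiLp.smul_apply, PiLp.add_apply, smul_eq_mul]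
    simp only [Fin.mk_one, Matrix.cons_val_one, Matrix.cons_val_fin_one, sin_sub]
    ring

theorem uv_add_two_pi (t : ℝ) : uv (t + 2 * π) = uv t := by
  simp [uv, cos_add_two_pi, sin_add_two_pi]

theorem uv_add_pi (t : ℝ) : uv (t + π) = - uv t := by
  ext i
  fin_cases i <;> simp [uv, cos_add_pi, sin_add_pi]

/-- Polar coordinates with the angle in a prescribed interval. -/
theorem exists_polar (y : Pl) (a : ℝ) :
    ∃ r s : ℝ, 0 ≤ r ∧ a ≤ s ∧ s ≤ a + 2 * π ∧ y = r • uv s := by
  set z : ℂ := ⟨y 0, y 1⟩ with hz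
  have h1 : ‖z‖ * cos (Complex.arg z) = y 0 := Complex.norm_mul_cos_arg z
  have h2 : ‖z‖ * sin (Complex.arg z) = y 1 := Complex.norm_mul_sin_arg z
  refine ⟨‖z‖, toIcoMod two_pi_pos a (Complex.arg z), norm_nonneg _,
    (toIcoMod_mem_Ico two_pi_pos a _).1, (toIcoMod_mem_Ico two_pi_pos a _).2.le, ?_⟩
  have h3 : cos (toIcoMod two_pi_pos a (Complex.arg z)) = cos (Complex.arg z) := by
    rw [toIcoMod, zsmul_eq_mul, cos_sub_int_mul_two_pi]
  have h4 : sin (toIcoMod two_pi_pos a (Complex.arg z)) = sin (Complex.arg z) := by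
    rw [toIcoMod, zsmul_eq_mul, sin_sub_int_mul_two_pi]
  ext i
  fin_cases i
  · simp only [uv, PiLp.smul_apply, smul_eq_mul, h3, h4]
    simpa using h1.symm
  · simp only [uv, PiLp.smul_apply, smul_eq_mul, h3, h4]
    simpa using h2.symm

/-- The boundary point of `K` in the direction `t`. -/
noncomputable def bp (K : Set Pl) (t : ℝ) : Pl := (rad K t)⁻¹ • uv t

/-- The points of a sector. -/
theorem sector_mem {K P : Set Pl} (hp : IsPair (rad K) (supp K)) (hP : Convex ℝ P)
    (h0 : (0 : Pl) ∈ P) {a b s t c r : ℝ} (hab : a < b) (hb : b < a + π) (h1 : a ≤ s)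
    (h2 : s ≤ b) (ha : c * (rad K a * supp K t) ≤ cos (a - t))
    (hb' : c * (rad K b * supp K t) ≤ cos (b - t)) (hxa : bp K a ∈ P) (hxb : bp K b ∈ P)
    (hr : 0 ≤ r) (hrc : r ≤ c) : r • bp K s ∈ P := by
  have hS : 0 < sin (b - a) := sin_pos_of_pos_of_lt_pi (by linarith) (by linarith)
  have s1 : 0 ≤ sin (b - s) := sin_nonneg_of_nonneg_of_le_pi (by linarith) (by linarith)
  have s2 : 0 ≤ sin (s - a) := sin_nonneg_of_nonneg_of_le_pi (by linarith) (by linarith)
  have hA := hp.posG a
  have hB := hp.posG b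
  have hG := hp.posG s
  have hH := hp.posH t
  set A := rad K a with hAdef
  set B := rad K b with hBdef
  set G := rad K s with hGdef
  set H := supp K t with hHdef
  set S := sin (b - a) with hSdef
  set α := sin (b - s) * A / (S * G) with hα
  set β := sin (s - a) * B / (S * G) with hβ
  have hα0 : 0 ≤ α := by rw [hα]; positivity
  have hβ0 : 0 ≤ β := by rw [hβ]; positivity
  have hx : bp K s = α • bp K a + β • bp K b := by
    have key := uv_combo a b s
    have e1 : bp K s = (S * G)⁻¹ • (S • uv s) := by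
      rw [smul_smul, bp, ← hGdef]
      congr 1
      field_simp
    have e2 : α • bp K a = (S * G)⁻¹ • (sin (b - s) • uv a) := by
      rw [bp, smul_smul, smul_smul, ← hAdef]
      congr 1
      rw [hα]; field_simp
    have e3 : β • bp K b = (S * G)⁻¹ • (sin (s - a) • uv b) := by
      rw [bp, smul_smul, smul_smul, ← hBdef]
      congr 1
      rw [hβ]; field_simp
    rw [e1, e2, e3, ← smul_add, ← key]
  have hle : c * (α + β) ≤ 1 := by
    have k1 := IsPair.cos_combo a b s t
    have k2 := hp.le s t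
    have k3 : c * ((α + β) * (S * G)) * H ≤ (S * G) * H := by
      have : (α + β) * (S * G) = sin (b - s) * A + sin (s - a) * B := by
        rw [hα, hβ]; field_simp
      rw [this]
      have t1 := mul_le_mul_of_nonneg_right ha s1
      have t2 := mul_le_mul_of_nonneg_right hb' s2
      have t3 := mul_le_mul_of_nonneg_right k2 hS.le
      nlinarith
    have k4 : 0 < S * G * H := by positivity
    have k5 : (c * (α + β)) * (S * G * H) ≤ 1 * (S * G * H) := by linarith
    exact le_of_mul_le_mul_right k5 k4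
  have hle2 : r * (α + β) ≤ 1 := by
    have : r * (α + β) ≤ c * (α + β) := mul_le_mul_of_nonneg_right hrc (by positivity)
    linarith
  have : r • bp K s = (r * α) • bp K a + (r * β) • bp K b + (1 - r * (α + β)) • (0 : Pl) := by
    rw [hx, smul_zero, add_zero, smul_add, smul_smul, smul_smul]
  rw [this]
  have h3 : ∀ i ∈ (Finset.univ : Finset (Fin 3)),
      0 ≤ (![r * α, r * β, 1 - r * (α + β)] : Fin 3 → ℝ) i := by
    intro i _
    fin_cases i
    · simpa using mul_nonneg hr hα0
    · simpa using mul_nonneg hr hβ0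
    · simpa using hle2
  have h4 : ∑ i : Fin 3, (![r * α, r * β, 1 - r * (α + β)] : Fin 3 → ℝ) i = 1 := by
    simp [Fin.sum_univ_three]; ring
  have h5 : ∀ i ∈ (Finset.univ : Finset (Fin 3)),
      (![bp K a, bp K b, 0] : Fin 3 → Pl) i ∈ P := by
    intro i _
    fin_cases i
    · simpa using hxa
    · simpa using hxb
    · simpa using h0
  have h6 := hP.sum_mem h3 h4 h5
  simpa [Fin.sum_univ_three] using h6

theorem polygon_of_chain {K : Set Pl} (hp : IsPair (rad K) (supp K)) (hK : Convex ℝ K)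
    (hc : IsCompact K)
    (h0 : (0 : Pl) ∈ interior K) {c : ℝ} (hc0 : 0 < c) {n : ℕ} (θ ψ : ℕ → ℝ)
    (h : ∀ i, θ i < θ (i + 1) ∧ θ (i + 1) < θ i + π ∧
      c * (rad K (θ i) * supp K (ψ i)) ≤ cos (θ i - ψ i) ∧
      c * (rad K (θ (i + 1)) * supp K (ψ i)) ≤ cos (θ (i + 1) - ψ i))
    (hn : θ 0 + 2 * π ≤ θ n) : ∃ P : Set Pl, IsNGon n P ∧ P ⊆ K ∧ c • K ⊆ P := by
  classical
  have hpi := pi_pos
  have hnhds : K ∈ nhds (0 : Pl) := mem_interior_iff_mem_nhds.1 h0
  -- the index `k`
  have hex : ∃ k, θ 0 + 2 * π ≤ θ k := ⟨n, hn⟩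
  set k := Nat.find hex with hk
  have hk1 : θ 0 + 2 * π ≤ θ k := Nat.find_spec hex
  have hkn : k ≤ n := Nat.find_min' hex hn
  have hklt : ∀ i, i < k → θ i < θ 0 + 2 * π := fun i hi => not_le.1 (Nat.find_min hex hi)
  have hkpos : 0 < k := by
    rcases Nat.eq_zero_or_pos k with h1 | h1
    · rw [h1] at hk1; linarith
    · exact h1
  -- the closed chain
  set φ : ℕ → ℝ := fun i => if i < k then θ i else θ 0 + 2 * π with hφ
  have φlt : ∀ i, i < k → φ i = θ i := fun i hi => by simp only [hφ]; rw [if_pos hi]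
  have φk : φ k = θ 0 + 2 * π := by simp only [hφ]; rw [if_neg (lt_irrefl k)]
  have φ0 : φ 0 = θ 0 := φlt 0 hkpos
  have hch : ∀ i, i < k → φ i < φ (i + 1) ∧ φ (i + 1) < φ i + π ∧
      c * (rad K (φ i) * supp K (ψ i)) ≤ cos (φ i - ψ i) ∧
      c * (rad K (φ (i + 1)) * supp K (ψ i)) ≤ cos (φ (i + 1) - ψ i) := by
    intro i hi
    obtain ⟨g1, g2, g3, g4⟩ := h i
    rw [φlt i hi]
    rcases Nat.lt_or_ge (i + 1) k with h1 | h1
    · rw [φlt (i + 1) h1]
      exact h i
    · have h2 : i + 1 = k := by omega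
      have hb1 : θ i < θ 0 + 2 * π := hklt i hi
      have hb2 : θ 0 + 2 * π ≤ θ (i + 1) := by rw [h2]; exact hk1
      rw [h2, φk]
      refine ⟨hb1, by linarith, g3, ?_⟩
      set b := θ 0 + 2 * π with hb
      have hS : 0 < sin (θ (i + 1) - θ i) :=
        sin_pos_of_pos_of_lt_pi (by linarith) (by linarith)
      have s1 : 0 ≤ sin (θ (i + 1) - b) :=
        sin_nonneg_of_nonneg_of_le_pi (by linarith) (by linarith)
      have s2 : 0 ≤ sin (b - θ i) := sin_nonneg_of_nonneg_of_le_pi (by linarith) (by linarith)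
      have k1 := hp.subl hb1.le hb2 g2.le
      have k2 := IsPair.cos_combo (θ i) (θ (i + 1)) b (ψ i)
      have hH := hp.posH (ψ i)
      have t1 := mul_le_mul_of_nonneg_right g3 s1
      have t2 := mul_le_mul_of_nonneg_right g4 s2
      have t3 : c * (supp K (ψ i) * (rad K b * sin (θ (i + 1) - θ i)))
          ≤ c * (supp K (ψ i) * (rad K (θ i) * sin (θ (i + 1) - b)
            + rad K (θ (i + 1)) * sin (b - θ i))) := by
        apply mul_le_mul_of_nonneg_left _ hc0.le
        exact mul_le_mul_of_nonneg_left k1 hH.le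
      have t4 : c * (rad K b * supp K (ψ i)) * sin (θ (i + 1) - θ i)
          ≤ cos (b - ψ i) * sin (θ (i + 1) - θ i) := by
        rw [k2]
        nlinarith
      exact le_of_mul_le_mul_right t4 hS
  have hcov : ∀ s, θ 0 ≤ s → s ≤ θ 0 + 2 * π → ∃ i, i < k ∧ φ i ≤ s ∧ s ≤ φ (i + 1) := by
    intro s hs1 hs2
    have hex2 : ∃ j, s ≤ φ (j + 1) ∧ j < k := by
      refine ⟨k - 1, ?_, by omega⟩
      have : k - 1 + 1 = k := by omega
      rw [this, φk]
      exact hs2
    set j := Nat.find hex2 with hj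
    obtain ⟨j1, j2⟩ := Nat.find_spec hex2
    refine ⟨j, j2, ?_, j1⟩
    rcases Nat.eq_zero_or_pos j with h1 | h1
    · rw [h1, φ0]; exact hs1
    · by_contra hcon
      rw [not_le] at hcon
      have h2 : j - 1 < j := by omega
      apply Nat.find_min hex2 h2
      have h3 : j - 1 + 1 = j := by omega
      rw [h3]
      exact ⟨hcon.le, by omega⟩
  -- the polygon
  set S : Finset Pl := (Finset.range k).image (fun i => bp K (θ i)) with hS
  set P : Set Pl := convexHull ℝ (S : Set Pl) with hPdef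
  have hPconv : Convex ℝ P := convex_convexHull ℝ _
  have hxP : ∀ i, i ≤ k → bp K (φ i) ∈ P := by
    intro i hi
    rcases Nat.lt_or_ge i k with h1 | h1
    · apply subset_convexHull
      rw [φlt i h1, hS]
      simp only [Finset.coe_image, Finset.coe_range, Set.mem_image, Set.mem_Iio]
      exact ⟨i, h1, rfl⟩
    · have h2 : i = k := le_antisymm hi h1
      rw [h2, φk]
      have h3 : bp K (θ 0 + 2 * π) = bp K (θ 0) := by
        rw [bp, bp, uv_add_two_pi, hp.perG]
      rw [h3]
      apply subset_convexHull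
      rw [hS]
      simp only [Finset.coe_image, Finset.coe_range, Set.mem_image, Set.mem_Iio]
      exact ⟨0, hkpos, rfl⟩
  have hgauge : ∀ t, gauge K (bp K t) = 1 := by
    intro t
    rw [bp, gauge_smul_of_nonneg (inv_nonneg.2 (hp.posG t).le), smul_eq_mul]
    exact inv_mul_cancel₀ (hp.posG t).ne'
  have hbK : ∀ t, bp K t ∈ K := by
    intro t
    have h1 : bp K t ∈ closure K := (gauge_le_one_iff_mem_closure hK hnhds).1 (hgauge t).le
    rwa [hc.isClosed.closure_eq] at h1
  have hPK : P ⊆ K := by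
    apply convexHull_min _ hK
    intro x hx
    rw [hS] at hx
    simp only [Finset.coe_image, Finset.coe_range, Set.mem_image, Set.mem_Iio] at hx
    obtain ⟨i, _, rfl⟩ := hx
    exact hbK _
  -- `0` is in `P`
  have h0P : (0 : Pl) ∈ P := by
    obtain ⟨i, hi, h1, h2⟩ := hcov (θ 0 + π) (by linarith) (by linarith)
    obtain ⟨g1, g2, -, -⟩ := hch i hi
    have hSp : 0 < sin (φ (i + 1) - φ i) := sin_pos_of_pos_of_lt_pi (by linarith) (by linarith)
    have s1 : 0 ≤ sin (φ (i + 1) - (θ 0 + π)) :=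
      sin_nonneg_of_nonneg_of_le_pi (by linarith) (by linarith)
    have s2 : 0 ≤ sin ((θ 0 + π) - φ i) :=
      sin_nonneg_of_nonneg_of_le_pi (by linarith) (by linarith)
    have key := uv_combo (φ i) (φ (i + 1)) (θ 0 + π)
    rw [uv_add_pi] at key
    have hA := hp.posG (φ i)
    have hB := hp.posG (φ (i + 1))
    have hC := hp.posG (θ 0)
    have eb : ∀ t, uv t = rad K t • bp K t := by
      intro t
      rw [bp, smul_smul, mul_inv_cancel₀ (hp.posG t).ne', one_smul]
    set p := sin (φ (i + 1) - φ i) * rad K (θ 0) with hp'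
    set q := sin (φ (i + 1) - (θ 0 + π)) * rad K (φ i) with hq'
    set u := sin ((θ 0 + π) - φ i) * rad K (φ (i + 1)) with hu'
    have hp0 : 0 < p := mul_pos hSp hC
    have hq0 : 0 ≤ q := mul_nonneg s1 hA.le
    have hu0 : 0 ≤ u := mul_nonneg s2 hB.le
    have hsum : p • bp K (θ 0) + q • bp K (φ i) + u • bp K (φ (i + 1)) = 0 := by
      rw [hp', hq', hu', mul_smul, mul_smul, mul_smul, ← eb, ← eb, ← eb]
      have : sin (φ (i + 1) - φ i) • uv (θ 0)
          = - (sin (φ (i + 1) - (θ 0 + π)) • uv (φ i)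
            + sin (θ 0 + π - φ i) • uv (φ (i + 1))) := by
        rw [← key, smul_neg, neg_neg]
      rw [this]
      abel
    have hT : 0 < p + q + u := by linarith
    have hx0 : bp K (θ 0) ∈ P := by
      have := hxP 0 (Nat.zero_le _)
      rwa [φ0] at this
    have h3 : ∀ j ∈ (Finset.univ : Finset (Fin 3)),
        0 ≤ (![p / (p + q + u), q / (p + q + u), u / (p + q + u)] : Fin 3 → ℝ) j := by
      intro j _
      fin_cases j
      · simpa using div_nonneg hp0.le hT.le
      · simpa using div_nonneg hq0 hT.le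
      · simpa using div_nonneg hu0 hT.le
    have h4 : ∑ j : Fin 3,
        (![p / (p + q + u), q / (p + q + u), u / (p + q + u)] : Fin 3 → ℝ) j = 1 := by
      simp only [Fin.sum_univ_three, Matrix.cons_val_zero, Matrix.cons_val_one, Matrix.cons_val]
      field_simp
    have h5 : ∀ j ∈ (Finset.univ : Finset (Fin 3)),
        (![bp K (θ 0), bp K (φ i), bp K (φ (i + 1))] : Fin 3 → Pl) j ∈ P := by
      intro j _
      fin_cases j
      · simpa using hx0
      · simpa using hxP i hi.le
      · simpa using hxP (i + 1) hi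
    have h6 := hPconv.sum_mem h3 h4 h5
    have h7 : ∑ j : Fin 3,
        (![p / (p + q + u), q / (p + q + u), u / (p + q + u)] : Fin 3 → ℝ) j •
        (![bp K (θ 0), bp K (φ i), bp K (φ (i + 1))] : Fin 3 → Pl) j
        = (p + q + u)⁻¹ • (p • bp K (θ 0) + q • bp K (φ i) + u • bp K (φ (i + 1))) := by
      simp only [Fin.sum_univ_three, Matrix.cons_val_zero, Matrix.cons_val_one, Matrix.cons_val,
        smul_add, smul_smul, div_eq_inv_mul]
    rw [h7, hsum, smul_zero] at h6
    exact h6
  have hcK : c • K ⊆ P := by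
    rintro _ ⟨y, hy, rfl⟩
    obtain ⟨r, s, hr, hs1, hs2, rfl⟩ := exists_polar y (θ 0)
    obtain ⟨i, hi, h1, h2⟩ := hcov s hs1 hs2
    obtain ⟨g1, g2, g3, g4⟩ := hch i hi
    have hG := hp.posG s
    have hry : r * rad K s ≤ 1 := by
      have := gauge_le_one_of_mem hy
      rwa [gauge_smul_of_nonneg hr, smul_eq_mul] at this
    have e : c • (r • uv s) = (c * (r * rad K s)) • bp K s := by
      rw [bp, smul_smul, smul_smul]
      congr 1
      field_simp
    show c • (r • uv s) ∈ P
    rw [e]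
    exact sector_mem hp hPconv h0P g1 g2 h1 h2 g3 g4 (hxP i hi.le) (hxP (i + 1) hi)
      (by positivity) (by nlinarith)
  refine ⟨P, ⟨S, ?_, rfl, ?_⟩, hPK, hcK⟩
  · calc S.card ≤ (Finset.range k).card := Finset.card_image_le
      _ = k := Finset.card_range k
      _ ≤ n := hkn
  · have h1 : interior (c • K) ⊆ interior P := interior_mono hcK
    apply Set.Nonempty.mono h1
    rw [interior_smul₀ hc0.ne']
    exact ⟨c • (0 : Pl), Set.smul_mem_smul_set h0⟩

end Pool.Agent.H95G
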