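import Pool.Agent.H95G.DiscA
import Pool.Agent.H95G.Poly
import Pool.Agent.H95G.Santalo
import Pool.Agent.HBM3.Main

/-!
# A disc in an `n`-gon whose vertices lie in the unit disc; lower bound for `gam n`
-/

namespace Pool.Agent.H95G

open Real Pool.Agent.HBM3 Pointwise

namespace DiscAux

open SantaloAux

theorem norm_uv (t : ℝ) : ‖uv t‖ = 1 := by
  have h1 := norm_sq (uv t)
  have h2 : ‖uv t‖ ^ 2 = 1 := by
    rw [h1]
    simp [uv]
  have h3 := norm_nonneg (uv t)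
  nlinarith

theorem lin_smul_uv (r a ψ : ℝ) : lin (r • uv a) ψ = r * cos (a - ψ) := by
  simp only [lin, uv, PiLp.smul_apply, smul_eq_mul, cos_sub]
  simp
  ring

theorem lin_comb (x y : Pl) (l ψ : ℝ) :
    lin (x + l • (y - x)) ψ = lin x ψ + l * (lin y ψ - lin x ψ) := by
  simp only [lin, PiLp.add_apply, PiLp.smul_apply, PiLp.sub_apply, smul_eq_mul]
  ring

theorem isLinear_lin (ψ : ℝ) : IsLinearMap ℝ (fun x : Pl => lin x ψ) where
  map_add x y := by simp only [lin, PiLp.add_apply]; ring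
  map_smul c x := by simp only [lin, PiLp.smul_apply, smul_eq_mul]; ring

/-- The radial projection of `s` from `t` to the unit circle. -/
theorem exists_angle {s t : Pl} (hs : ‖s‖ ≤ 1) (hst : s ≠ t) :
    ∃ φ : ℝ, ∃ l : ℝ, 1 ≤ l ∧ t + l • (s - t) = uv φ := by
  have hd : 0 < ‖s - t‖ := norm_pos_iff.2 (sub_ne_zero.2 hst)
  set l₀ := (1 + ‖t‖) / ‖s - t‖ with hl₀
  have h1 : 1 ≤ l₀ := by
    rw [hl₀, le_div_iff₀ hd, one_mul]
    exact (norm_sub_le s t).trans (by linarith)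
  have hcont : ContinuousOn (fun l : ℝ => ‖t + l • (s - t)‖) (Set.Icc 1 l₀) := by
    fun_prop
  have e1 : ‖t + (1:ℝ) • (s - t)‖ ≤ 1 := by
    rw [one_smul, add_sub_cancel]; exact hs
  have e2 : 1 ≤ ‖t + l₀ • (s - t)‖ := by
    have h2 : ‖l₀ • (s - t)‖ = 1 + ‖t‖ := by
      rw [norm_smul, Real.norm_eq_abs, abs_of_pos (by linarith), hl₀]
      field_simp
    have h3 : ‖l₀ • (s - t)‖ ≤ ‖t + l₀ • (s - t)‖ + ‖t‖ := by
      calc ‖l₀ • (s - t)‖ = ‖(t + l₀ • (s - t)) - t‖ := by rw [add_sub_cancel_left]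
        _ ≤ _ := norm_sub_le _ _
    linarith
  obtain ⟨l, hl, he⟩ := intermediate_value_Icc h1 hcont ⟨e1, e2⟩
  obtain ⟨r, φ, hr, -, -, hy⟩ := exists_polar (t + l • (s - t)) 0
  have hr1 : r = 1 := by
    have := congrArg norm hy
    simp only at he
    rw [he, norm_smul, norm_uv, Real.norm_eq_abs, abs_of_nonneg hr] at this
    linarith
  refine ⟨φ, l, hl.1, ?_⟩
  rw [hy, hr1, one_smul]

theorem exists_vertex {S : Finset Pl} {p : Pl} (hp : p ∈ convexHull ℝ (S : Set Pl)) (ψ : ℝ) :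
    ∃ s ∈ S, lin p ψ ≤ lin s ψ := by
  by_contra hcon
  push Not at hcon
  have hsub : convexHull ℝ (S : Set Pl) ⊆ {x : Pl | lin x ψ < lin p ψ} :=
    convexHull_min (fun s hs => hcon s hs) (convex_halfSpace_lt (isLinear_lin ψ) _)
  exact lt_irrefl (lin p ψ) (hsub hp)

end DiscAux

open DiscAux SantaloAux in
theorem disc_ngon {n : ℕ} (hn : 3 ≤ n) {S : Finset Pl} (hS : S.card ≤ n) {t : Pl} {ρ : ℝ}
    (hρ : 0 < ρ) (hsub : Metric.closedBall t ρ ⊆ convexHull ℝ (S : Set Pl))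
    (h1 : ∀ s ∈ S, ‖s‖ ≤ 1) : ρ ≤ cos (π / n) := by
  classical
  have hn0 : (0:ℝ) < n := by
    have : 0 < n := by omega
    exact_mod_cast this
  have hpi := pi_pos
  obtain ⟨τ, β, hτ, -, -, ht⟩ := exists_polar t 0
  have hnt : ‖t‖ = τ := by
    rw [ht, norm_smul, norm_uv, Real.norm_eq_abs, abs_of_nonneg hτ, mul_one]
  -- `ρ + τ ≤ 1`
  have hball : convexHull ℝ (S : Set Pl) ⊆ Metric.closedBall 0 1 := by
    apply convexHull_min _ (convex_closedBall 0 1)
    intro s hs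
    rw [mem_closedBall_zero_iff]
    exact h1 s hs
  have hρτ : ρ + τ ≤ 1 := by
    have hm : t + ρ • uv β ∈ Metric.closedBall t ρ := by
      rw [Metric.mem_closedBall, dist_eq_norm, add_sub_cancel_left, norm_smul, norm_uv,
        Real.norm_eq_abs, abs_of_pos hρ, mul_one]
    have h2 := hball (hsub hm)
    rw [mem_closedBall_zero_iff] at h2
    have h3 : t + ρ • uv β = (τ + ρ) • uv β := by
      rw [ht, ← add_smul]
    rw [h3, norm_smul, norm_uv, Real.norm_eq_abs, abs_of_pos (by linarith), mul_one] at h2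
    linarith
  have hcos : 0 ≤ cos (π / n) := by
    apply cos_nonneg_of_neg_pi_div_two_le_of_le
    · have : 0 < π / n := by positivity
      linarith
    · have h3 : (3:ℝ) ≤ n := by exact_mod_cast hn
      rw [div_le_div_iff₀ hn0 (by norm_num)]
      nlinarith
  by_contra hcon
  push Not at hcon
  set ρ' := (ρ + cos (π / n)) / 2 with hρ'
  have hp0 : 0 < ρ' := by rw [hρ']; linarith
  have hp1 : ρ' < ρ := by rw [hρ']; linarith
  have hp2 : cos (π / n) < ρ' := by rw [hρ']; linarith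
  -- the angles
  have hang : ∀ s : Pl, s ∈ S → ∃ φ : ℝ, s ≠ t → ∃ l : ℝ, 1 ≤ l ∧ t + l • (s - t) = uv φ := by
    intro s hs
    by_cases hst : s = t
    · exact ⟨0, fun h => absurd hst h⟩
    · obtain ⟨φ, l, hl⟩ := exists_angle (h1 s hs) hst
      exact ⟨φ, fun _ => ⟨l, hl⟩⟩
  choose ang hang using hang
  let φ : Fin n → ℝ := fun i =>
    if h : (i : ℕ) < S.card then ang (S.equivFin.symm ⟨i, h⟩ : S) (S.equivFin.symm ⟨i, h⟩).2 else 0
  have hφ : ∀ s (hs : s ∈ S), ∃ i, φ i = ang s hs := by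
    intro s hs
    refine ⟨⟨(S.equivFin ⟨s, hs⟩ : ℕ), lt_of_lt_of_le (S.equivFin ⟨s, hs⟩).2 hS⟩, ?_⟩
    simp only [φ]
    rw [dif_pos (S.equivFin ⟨s, hs⟩).2]
    have : S.equivFin.symm ⟨((S.equivFin ⟨s, hs⟩ : Fin S.card) : ℕ), (S.equivFin ⟨s, hs⟩).2⟩
        = ⟨s, hs⟩ := by
      rw [Fin.eta, Equiv.symm_apply_apply]
    simp only [this]
  have hcov : ∀ ψ : ℝ, ∃ i, ρ' + τ * cos (ψ - β) ≤ cos (φ i - ψ) := by
    intro ψ
    have hm : t + ρ' • uv ψ ∈ convexHull ℝ (S : Set Pl) := by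
      apply hsub
      rw [Metric.mem_closedBall, dist_eq_norm, add_sub_cancel_left, norm_smul, norm_uv,
        Real.norm_eq_abs, abs_of_pos hp0, mul_one]
      exact hp1.le
    obtain ⟨s, hs, hle⟩ := exists_vertex hm ψ
    rw [lin_uv] at hle
    have hst : s ≠ t := by
      rintro rfl
      linarith
    obtain ⟨l, hl1, hl⟩ := hang s hs hst
    obtain ⟨i, hi⟩ := hφ s hs
    refine ⟨i, ?_⟩
    rw [hi]
    have e1 : cos (ang s hs - ψ) = lin t ψ + l * (lin s ψ - lin t ψ) := by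
      rw [← lin_comb, hl]
      have := lin_smul_uv 1 (ang s hs) ψ
      rw [one_smul, one_mul] at this
      exact this.symm
    have e2 : lin t ψ = τ * cos (ψ - β) := by
      rw [ht, lin_smul_uv, ← cos_neg, neg_sub]
    rw [e1, ← e2]
    nlinarith
  have hfin := disc_cover hp0 hτ (by linarith) φ hcov
  have h2 : π / n ≤ arccos ρ' := by
    rw [div_le_iff₀ hn0]
    linarith
  have h3 : cos (arccos ρ') ≤ cos (π / n) :=
    cos_le_cos_of_nonneg_of_le_pi (by positivity) (arccos_le_pi _) h2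
  rw [cos_arccos (by linarith) (by linarith)] at h3
  linarith

namespace DiscAux

theorem smul_ball_add {l : ℝ} (hl : 0 < l) (t : Pl) :
    l • Metric.closedBall (0 : Pl) 1 + {t} = Metric.closedBall t l := by
  rw [smul_closedBall _ _ zero_le_one, smul_zero, mul_one, Real.norm_eq_abs, abs_of_pos hl,
    closedBall_add_singleton, zero_add]

theorem isBody_ball : IsBody (Metric.closedBall (0 : Pl) 1) := by
  refine ⟨convex_closedBall 0 1, isCompact_closedBall 0 1, ⟨0, ?_⟩⟩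
  exact Metric.ball_subset_interior_closedBall (Metric.mem_ball_self one_pos)

/-- Every homothety ratio between the disc and an `n`-gon is at least `1 / cos (π / n)`. -/
theorem ratio_ge {n : ℕ} (hn : 3 ≤ n) {P : Set Pl} (hP : IsNGon n P) {r : ℝ}
    (hr : r ∈ homRatios (Metric.closedBall (0 : Pl) 1) P) : 1 / cos (π / n) ≤ r := by
  classical
  obtain ⟨l₁, l₂, t₁, t₂, hl₁, hl₂, hsub₁, hsub₂, rfl⟩ := hr
  obtain ⟨S, hS, rfl, -⟩ := hP
  rw [smul_ball_add hl₁] at hsub₁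
  rw [smul_ball_add hl₂] at hsub₂
  let f : Pl →ᵃ[ℝ] Pl := l₂⁻¹ • (AffineMap.id ℝ Pl - AffineMap.const ℝ Pl t₂)
  have hf : ∀ x, f x = l₂⁻¹ • (x - t₂) := fun x => rfl
  have hρ : 0 < l₁ / l₂ := by positivity
  have key : l₁ / l₂ ≤ cos (π / n) := by
    apply disc_ngon hn (S := S.image f) (t := f t₁) (Finset.card_image_le.trans hS) hρ
    · intro y hy
      have h1 : l₂ • y + t₂ ∈ Metric.closedBall t₁ l₁ := by
        rw [Metric.mem_closedBall, dist_eq_norm] at hy ⊢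
        have h2 : l₂ • y + t₂ - t₁ = l₂ • (y - f t₁) := by
          rw [hf, smul_sub, smul_smul, mul_inv_cancel₀ hl₂.ne', one_smul]
          abel
        rw [h2, norm_smul, Real.norm_eq_abs, abs_of_pos hl₂]
        rw [le_div_iff₀ hl₂] at hy
        linarith
      have h3 := hsub₁ h1
      rw [Finset.coe_image, ← AffineMap.image_convexHull]
      refine ⟨_, h3, ?_⟩
      rw [hf, add_sub_cancel_right, smul_smul, inv_mul_cancel₀ hl₂.ne', one_smul]
    · intro s hs
      rw [Finset.mem_image] at hs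
      obtain ⟨x, hx, rfl⟩ := hs
      have h1 := hsub₂ (subset_convexHull ℝ _ (Finset.mem_coe.2 hx))
      rw [Metric.mem_closedBall, dist_eq_norm] at h1
      rw [hf, norm_smul, Real.norm_eq_abs, abs_of_pos (inv_pos.2 hl₂), inv_mul_le_iff₀ hl₂]
      linarith
  have hc : 0 < cos (π / n) := hρ.trans_le key
  rw [div_le_div_iff₀ hc hl₁, one_mul]
  rw [div_le_iff₀ hl₂] at key
  linarith

theorem homRatios_nonempty {n : ℕ} {P : Set Pl} (hP : IsNGon n P) :
    (homRatios (Metric.closedBall (0 : Pl) 1) P).Nonempty := by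
  obtain ⟨S, hS, rfl, ⟨p, hp⟩⟩ := hP
  obtain ⟨e, he, hb⟩ := Metric.mem_nhds_iff.1 (mem_interior_iff_mem_nhds.1 hp)
  have hbd : Bornology.IsBounded (convexHull ℝ (S : Set Pl)) :=
    (Set.Finite.isCompact_convexHull (𝕜 := ℝ) S.finite_toSet).isBounded
  obtain ⟨R, hR0, hR⟩ := hbd.exists_pos_norm_le
  refine ⟨R / (e / 2), e / 2, R, p, 0, by positivity, hR0, ?_, ?_, rfl⟩
  · rw [smul_ball_add (by positivity)]
    exact (Metric.closedBall_subset_ball (by linarith)).trans hb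
  · rw [smul_ball_add hR0]
    intro x hx
    rw [mem_closedBall_zero_iff]
    exact hR x hx

end DiscAux

open DiscAux in
theorem le_gam {n : ℕ} (hn : 3 ≤ n)
    (hb : BddAbove {x | ∃ C, IsBody C ∧ x = sInf {y | ∃ P, IsNGon n P ∧ y = homDist C P}}) :
    1 / cos (π / n) ≤ gam n := by
  have hx : 1 / cos (π / n) ≤
      sInf {y | ∃ P, IsNGon n P ∧ y = homDist (Metric.closedBall (0 : Pl) 1) P} := by
    apply le_csInf
    · obtain ⟨P, hP, -⟩ := main_geo isBody_ball
      obtain ⟨S, hS, h2, h3⟩ := hP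
      exact ⟨_, P, ⟨S, hS.trans hn, h2, h3⟩, rfl⟩
    · rintro y ⟨P, hP, rfl⟩
      exact le_csInf (homRatios_nonempty hP) fun r hr => ratio_ge hn hP hr
  exact hx.trans (le_csSup hb ⟨_, isBody_ball, rfl⟩)

end Pool.Agent.H95G
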