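import Pool.Agent.HBM3.Main
import Pool.Agent.H95G.BS
import Pool.Agent.H95G.Bridge
import Pool.Agent.H95G.Chain
import Pool.Agent.H95G.Poly
import Pool.Agent.H95G.Santalo

/-!
# `γ_n ≤ 1 / (1 - π² / n²)` (MP_f9af53_co)
-/

namespace Pool.Agent.H95G

open Real Pool.Agent.HBM3 Pointwise

theorem supp_translate {C : Set Pl} (hC : IsCompact C) (hne : C.Nonempty) (z : Pl) (t : ℝ) :
    supp ((fun x => x - z) '' C) t = supp C t - (z 0 * cos t + z 1 * sin t) := by
  unfold supp
  have e : (fun x : Pl => x 0 * cos t + x 1 * sin t) '' ((fun x => x - z) '' C)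
      = (fun y : ℝ => y - (z 0 * cos t + z 1 * sin t)) ''
        ((fun x : Pl => x 0 * cos t + x 1 * sin t) '' C) := by
    rw [Set.image_image, Set.image_image]
    apply Set.image_congr
    intro x _
    simp
    ring
  have hcont : Continuous fun x : Pl => x 0 * cos t + x 1 * sin t := by fun_prop
  have hb : BddAbove ((fun x : Pl => x 0 * cos t + x 1 * sin t) '' C) :=
    (hC.image hcont).bddAbove
  have hn : ((fun x : Pl => x 0 * cos t + x 1 * sin t) '' C).Nonempty := hne.image _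
  rw [e]
  apply le_antisymm
  · apply csSup_le (hn.image _)
    rintro _ ⟨y, hy, rfl⟩
    have := le_csSup hb hy
    simp only
    linarith
  · rw [sub_le_iff_le_add]
    apply csSup_le hn
    intro y hy
    have hb2 : BddAbove ((fun y : ℝ => y - (z 0 * cos t + z 1 * sin t)) ''
        ((fun x : Pl => x 0 * cos t + x 1 * sin t) '' C)) := by
      obtain ⟨M, hM⟩ := hb
      refine ⟨M - (z 0 * cos t + z 1 * sin t), ?_⟩
      rintro _ ⟨y, hy, rfl⟩
      have := hM hy
      simp only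
      linarith
    have := le_csSup hb2 ⟨y, hy, rfl⟩
    simp only at this
    linarith

theorem isNGon_translate {n : ℕ} {P : Set Pl} (hP : IsNGon n P) (z : Pl) :
    IsNGon n ((fun x => x + z) '' P) := by
  classical
  obtain ⟨S, hS, rfl, hint⟩ := hP
  refine ⟨S.image (fun x => x + z), Finset.card_image_le.trans hS, ?_, ?_⟩
  · rw [Finset.coe_image]
    have := (AffineEquiv.vaddConst ℝ z : Pl ≃ᵃ[ℝ] Pl).toAffineMap.image_convexHull (S : Set Pl)
    simpa using this
  · have h1 : (fun x : Pl => x + z) '' (convexHull ℝ (S : Set Pl))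
        = (Homeomorph.addRight z) '' (convexHull ℝ (S : Set Pl)) := rfl
    rw [h1, ← (Homeomorph.addRight z).image_interior]
    exact hint.image _

/-- **Main theorem, geometric form.** -/
theorem main_geo {n : ℕ} (hn : 4 ≤ n) {C : Set Pl} (hC : IsBody C) :
    ∃ P : Set Pl, IsNGon n P ∧ P ⊆ C ∧
      ∃ t : Pl, C ⊆ (1 / (1 - π ^ 2 / n ^ 2) : ℝ) • P + {t} := by
  have hn' : (4:ℝ) ≤ n := by exact_mod_cast hn
  have hpi := pi_pos
  have hpi4 := pi_lt_d2
  set c : ℝ := 1 - π ^ 2 / n ^ 2 with hc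
  have hc0 : 0 < c := by
    rw [hc, sub_pos, div_lt_one (by positivity)]
    nlinarith
  have hc1 : c < 1 := by
    rw [hc]
    have : 0 < π ^ 2 / (n:ℝ) ^ 2 := by positivity
    linarith
  obtain ⟨z, hz, hpos, i1, i2⟩ := santalo hC
  obtain ⟨hconv, hcomp, hint⟩ := hC
  have hne : C.Nonempty := hint.mono interior_subset
  set K : Set Pl := (fun x => x - z) '' C with hKdef
  have hK1 : Convex ℝ K := by
    have : K = (fun x => x + (-z)) '' C := by
      rw [hKdef]; apply Set.image_congr; intro x _; exact sub_eq_add_neg x z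
    rw [this]
    have h2 := hconv.translate (-z)
    have h3 : (fun x => -z + x) '' C = (fun x => x + (-z)) '' C := by
      apply Set.image_congr; intro x _; exact add_comm _ _
    rw [← h3]; exact h2
  have hK2 : IsCompact K := hcomp.image (by fun_prop)
  have hK3 : (0 : Pl) ∈ interior K := by
    have h1 : K = (Homeomorph.subRight z) '' C := rfl
    rw [h1, ← (Homeomorph.subRight z).image_interior]
    exact ⟨z, hz, by simp⟩
  have hpair := isPair_of_body hK1 hK2 hK3
  have hsupp : ∀ t, supp K t = supp C t - (z 0 * cos t + z 1 * sin t) :=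
    supp_translate hcomp hne z
  have hbs := bs hpair.symm (by simpa only [hsupp] using i1) (by simpa only [hsupp] using i2)
  have hXY : (∫ s in (0:ℝ)..2 * π, 1 / rad K s ^ 2) * (∫ t in (0:ℝ)..2 * π, 1 / supp K t ^ 2)
      ≤ 4 * n ^ 2 * (1 - c) := by
    rw [mul_comm]
    refine hbs.trans (le_of_eq ?_)
    rw [hc]
    field_simp
    ring
  obtain ⟨θ, ψ, h1, h2⟩ := chain hpair (by omega) hc0 hc1 hXY
  obtain ⟨P, hP, hPK, hKP⟩ := polygon_of_chain hpair hK1 hK2 hK3 hc0 θ ψ h1 h2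
  refine ⟨(fun x => x + z) '' P, isNGon_translate hP z, ?_, z - (1 / c) • z, ?_⟩
  · rintro _ ⟨x, hx, rfl⟩
    obtain ⟨y, hy, rfl⟩ := hPK hx
    simpa using hy
  · intro x hx
    have h3 : x - z ∈ K := ⟨x, hx, rfl⟩
    have h4 : c • (x - z) ∈ P := hKP ⟨x - z, h3, rfl⟩
    rw [Set.mem_add]
    refine ⟨(1 / c) • (c • (x - z) + z), ⟨_, ⟨_, h4, rfl⟩, rfl⟩, _, rfl, ?_⟩
    rw [smul_add, smul_smul, one_div_mul_cancel hc0.ne', one_smul]
    abel

theorem homDist_le_of {C P : Set Pl} {l : ℝ} (hl : 0 < l) (hPC : P ⊆ C) {t : Pl}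
    (ht : C ⊆ l • P + {t}) : homDist C P ≤ l := by
  refine csInf_le ⟨0, fun _ h => homRatios_pos h⟩ ?_
  refine ⟨1 / l, 1, -((1 / l) • t), 0, by positivity, one_pos, ?_, ?_, by field_simp⟩
  · intro x hx
    obtain ⟨y, hy, t', ht', rfl⟩ := Set.mem_add.1 hx
    rw [Set.mem_singleton_iff] at ht'
    subst ht'
    obtain ⟨k, hk, rfl⟩ := hy
    obtain ⟨w, hw, t'', ht'', hwt⟩ := Set.mem_add.1 (ht hk)
    rw [Set.mem_singleton_iff] at ht''
    subst ht''
    obtain ⟨v, hv, rfl⟩ := hw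
    have : (1 / l) • k + -((1 / l) • t'') = v := by
      rw [← hwt, smul_add, smul_smul, one_div_mul_cancel hl.ne', one_smul]
      abel
    simp only at this ⊢
    rw [this]
    exact hv
  · intro x hx
    rw [one_smul, Set.add_singleton]
    exact ⟨x, hPC hx, by simp⟩

theorem gam_le_of {n : ℕ} {l : ℝ} (hl : 0 < l) (h : ∀ C : Set Pl, IsBody C → ∃ P : Set Pl,
    IsNGon n P ∧ P ⊆ C ∧ ∃ t : Pl, C ⊆ l • P + {t}) : gam n ≤ l := by
  refine Real.sSup_le ?_ hl.le
  rintro x ⟨C, hC, rfl⟩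
  obtain ⟨P, hP, hPC, t, ht⟩ := h C hC
  refine le_trans (csInf_le ⟨0, ?_⟩ ⟨P, hP, rfl⟩) (homDist_le_of hl hPC ht)
  rintro y ⟨Q, -, rfl⟩
  exact homDist_nonneg C Q

theorem gam_le_main {n : ℕ} (hn : 4 ≤ n) : gam n ≤ 1 / (1 - π ^ 2 / n ^ 2) := by
  have hn' : (4:ℝ) ≤ n := by exact_mod_cast hn
  have hpi := pi_pos
  have hpi4 := pi_lt_d2
  apply gam_le_of _ (fun C hC => main_geo hn hC)
  have : 0 < 1 - π ^ 2 / (n:ℝ) ^ 2 := by
    rw [sub_pos, div_lt_one (by positivity)]
    nlinarith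
  positivity

end Pool.Agent.H95G
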