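import Mathlib

/-!
# A discrete quadratic inequality (helper file for MP_f9af53_co)

For a `2 * q`-periodic sequence which is orthogonal to a positive weight with vanishing first
Fourier coefficients, the cyclic correlation is at most `cos (π / q)` times the square sum.
-/

namespace Pool.Agent.H95G

open Real Finset

/-- Cyclic shift of a finite sum. -/
private lemma quad_shift (g : ℕ → ℝ) (m : ℕ) (h : g m = g 0) :
    ∑ j ∈ range m, g (j + 1) = ∑ j ∈ range m, g j := by
  have h1 := Finset.sum_range_succ g m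
  have h2 := Finset.sum_range_succ' g m
  linarith

/-- The inequality on half a period, for sequences which vanish at both ends. -/
private lemma quad_half {q : ℕ} (hq : 2 ≤ q) (H : ℕ → ℝ) (h0 : H 0 = 0) (hqq : H q = 0) :
    0 ≤ ∑ j ∈ range q, (cos (π / q) / 2 * (H j ^ 2 + H (j + 1) ^ 2) - H j * H (j + 1)) := by
  have hq0 : (0 : ℝ) < q := by
    have : 0 < q := by omega
    exact_mod_cast this
  set D : ℝ := π / q with hD
  have hs : ∀ k : ℕ, 0 < k → k < q → 0 < sin (k * D) := by
    intro k hk hkq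
    have hk' : (0 : ℝ) < k := by exact_mod_cast hk
    have hkq' : (k : ℝ) < q := by exact_mod_cast hkq
    apply sin_pos_of_pos_of_lt_pi
    · rw [hD]; positivity
    · rw [hD, ← mul_div_assoc, div_lt_iff₀ hq0]
      nlinarith [pi_pos]
  have hrec : ∀ n : ℕ, sin (n * D) + sin ((n + 2 : ℕ) * D) =
      2 * cos D * sin ((n + 1 : ℕ) * D) := by
    intro n
    have e1 : (n : ℝ) * D = ((n + 1 : ℕ) : ℝ) * D - D := by push_cast; ring
    have e2 : ((n + 2 : ℕ) : ℝ) * D = ((n + 1 : ℕ) : ℝ) * D + D := by push_cast; ring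
    rw [e1, e2, sin_sub, sin_add]; ring
  set T : ℕ → ℝ := fun k => ∑ j ∈ range k,
    (cos D / 2 * (H j ^ 2 + H (j + 1) ^ 2) - H j * H (j + 1)) with hT
  have hTs : ∀ k, T (k + 1) = T k +
      (cos D / 2 * (H k ^ 2 + H (k + 1) ^ 2) - H k * H (k + 1)) := by
    intro k; rw [hT]; simp only; rw [Finset.sum_range_succ]
  have hT0 : T 0 = 0 := by rw [hT]; simp
  have key : ∀ n : ℕ, n + 2 ≤ q → (cos D * sin ((n + 1 : ℕ) * D) - sin (n * D)) * H (n + 1) ^ 2
      ≤ 2 * sin ((n + 1 : ℕ) * D) * T (n + 1) := by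
    intro n
    induction n with
    | zero =>
      intro _
      rw [hTs 0, hT0, h0]
      simp only [Nat.cast_zero, zero_mul, sin_zero]
      apply le_of_eq; ring
    | succ n ih =>
      intro hn
      have ih' := ih (by omega)
      have hs1 := hs (n + 1) (by omega) (by omega)
      have hs2 := hs (n + 2) (by omega) (by omega)
      have hr := hrec n
      rw [hTs (n + 1)]
      set s := sin ((n + 1 : ℕ) * D) with hsdef
      set t := sin ((n + 2 : ℕ) * D) with htdef
      set r := sin (n * D) with hrdef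
      set a := H (n + 1) with hadef
      set b := H (n + 1 + 1) with hbdef
      have hmul : 0 ≤ s * (2 * t * (T (n + 1) + (cos D / 2 * (a ^ 2 + b ^ 2) - a * b))
          - (cos D * t - s) * b ^ 2) := by
        have h1 : t * ((cos D * s - r) * a ^ 2) ≤ t * (2 * s * T (n + 1)) :=
          mul_le_mul_of_nonneg_left ih' hs2.le
        have h2 : r = 2 * cos D * s - t := by linarith
        rw [h2] at h1
        nlinarith [sq_nonneg (t * a - s * b)]
      have := nonneg_of_mul_nonneg_right hmul hs1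
      linarith
  obtain ⟨n, rfl⟩ : ∃ n, q = n + 2 := ⟨q - 2, by omega⟩
  have hk := key n le_rfl
  have hr := hrec n
  have hs1 := hs (n + 1) (by omega) (by omega)
  have hend : sin ((n + 2 : ℕ) * D) = 0 := by
    have : ((n + 2 : ℕ) : ℝ) * D = π := by rw [hD]; field_simp
    rw [this, sin_pi]
  have hfin : T (n + 2) = T (n + 1) + cos D / 2 * H (n + 1) ^ 2 := by
    rw [hTs (n + 1)]
    have : H (n + 1 + 1) = 0 := hqq
    rw [this]; ring
  change 0 ≤ T (n + 2)
  have hmul : 0 ≤ (2 * sin ((n + 1 : ℕ) * D)) * T (n + 2) := by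
    rw [hfin]
    rw [hend] at hr
    have h2 : sin (n * D) = 2 * cos D * sin ((n + 1 : ℕ) * D) := by linarith
    rw [h2] at hk
    nlinarith [hk]
  exact nonneg_of_mul_nonneg_right hmul (by linarith)

/-- The quadratic form kills the cosine. -/
private lemma quad_cos {q : ℕ} (hq : 2 ≤ q) (X : ℕ → ℝ) (hX : X (2 * q) = X 0) :
    ∑ j ∈ range (2 * q), (2 * cos (π / q) * (X j * cos (j * (π / q)))
      - X j * cos ((j + 1 : ℕ) * (π / q)) - X (j + 1) * cos (j * (π / q))) = 0 := by
  have hq0 : (0 : ℝ) < q := by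
    have : 0 < q := by omega
    exact_mod_cast this
  have h2 : ((2 * q : ℕ) : ℝ) * (π / q) = 2 * π := by push_cast; field_simp
  have hsh := quad_shift (fun j => X j * cos (((j : ℝ) - 1) * (π / q))) (2 * q) (by
    rw [hX, sub_mul, h2]
    have : 2 * π - 1 * (π / q) = -(π / q) + 2 * π := by ring
    rw [this, cos_add_two_pi]
    have h3 : (((0 : ℕ) : ℝ) - 1) * (π / q) = -(π / q) := by push_cast; ring
    rw [h3])
  have hsh' : ∑ j ∈ range (2 * q), X (j + 1) * cos (j * (π / q)) =
      ∑ j ∈ range (2 * q), X j * cos (((j : ℝ) - 1) * (π / q)) := by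
    rw [← hsh]
    apply Finset.sum_congr rfl
    intro j _
    have : (((j + 1 : ℕ) : ℝ) - 1) * (π / q) = j * (π / q) := by push_cast; ring
    rw [this]
  rw [Finset.sum_sub_distrib, hsh', ← Finset.sum_sub_distrib]
  apply Finset.sum_eq_zero
  intro j _
  have e1 : ((j + 1 : ℕ) : ℝ) * (π / q) = j * (π / q) + π / q := by push_cast; ring
  have e2 : ((j : ℝ) - 1) * (π / q) = j * (π / q) - π / q := by ring
  rw [e1, e2, cos_add, cos_sub]; ring

/-- The inequality when the values at `0` and `q` are opposite. -/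
private lemma quad_opp {q : ℕ} (hq : 2 ≤ q) (G : ℕ → ℝ) (hG : G (2 * q) = G 0)
    (hopp : G 0 + G q = 0) :
    0 ≤ ∑ j ∈ range (2 * q), (2 * cos (π / q) * G j ^ 2 - 2 * (G j * G (j + 1))) := by
  have hq0 : (0 : ℝ) < q := by
    have : 0 < q := by omega
    exact_mod_cast this
  have h2 : ((2 * q : ℕ) : ℝ) * (π / q) = 2 * π := by push_cast; field_simp
  have h1 : (q : ℝ) * (π / q) = π := by field_simp
  set C : ℕ → ℝ := fun j => cos (j * (π / q)) with hC
  have hC0 : C 0 = 1 := by rw [hC]; simp
  have hC2 : C (2 * q) = 1 := by rw [hC]; simp only; rw [h2, cos_two_pi]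
  have hC1 : C q = -1 := by rw [hC]; simp only; rw [h1, cos_pi]
  set H : ℕ → ℝ := fun j => G j - G 0 * C j with hH
  have hH0 : H 0 = 0 := by rw [hH]; simp only; rw [hC0]; ring
  have hH1 : H q = 0 := by rw [hH]; simp only; rw [hC1]; linarith
  have hH2 : H (2 * q) = 0 := by rw [hH]; simp only; rw [hC2, hG]; ring
  have a1 := quad_half hq H hH0 hH1
  have a2 := quad_half hq (fun j => H (q + j)) (by simpa using hH1)
    (by rw [← two_mul]; exact hH2)
  have a3 : 0 ≤ ∑ j ∈ range (2 * q),
      (cos (π / q) / 2 * (H j ^ 2 + H (j + 1) ^ 2) - H j * H (j + 1)) := by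
    rw [two_mul, Finset.sum_range_add]
    refine add_nonneg a1 ?_
    simpa only [add_assoc] using a2
  have a4 : ∑ j ∈ range (2 * q), H (j + 1) ^ 2 = ∑ j ∈ range (2 * q), H j ^ 2 :=
    quad_shift (fun j => H j ^ 2) (2 * q) (by rw [hH0, hH2])
  have a5 : 0 ≤ ∑ j ∈ range (2 * q), (2 * cos (π / q) * H j ^ 2 - 2 * (H j * H (j + 1))) := by
    have e : ∑ j ∈ range (2 * q), (2 * cos (π / q) * H j ^ 2 - 2 * (H j * H (j + 1))) =
        2 * ∑ j ∈ range (2 * q),
          (cos (π / q) / 2 * (H j ^ 2 + H (j + 1) ^ 2) - H j * H (j + 1)) := by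
      simp only [Finset.sum_sub_distrib, ← Finset.mul_sum, Finset.sum_add_distrib, a4]
      ring
    rw [e]; linarith
  have b1 := quad_cos hq H (by rw [hH0, hH2])
  have b2 := quad_cos hq C (by rw [hC0, hC2])
  have e : ∑ j ∈ range (2 * q), (2 * cos (π / q) * G j ^ 2 - 2 * (G j * G (j + 1))) =
      ∑ j ∈ range (2 * q), (2 * cos (π / q) * H j ^ 2 - 2 * (H j * H (j + 1)))
      + 2 * G 0 * ∑ j ∈ range (2 * q), (2 * cos (π / q) * (H j * cos (j * (π / q)))
      - H j * cos ((j + 1 : ℕ) * (π / q)) - H (j + 1) * cos (j * (π / q)))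
      + G 0 ^ 2 * ∑ j ∈ range (2 * q), (2 * cos (π / q) * (C j * cos (j * (π / q)))
      - C j * cos ((j + 1 : ℕ) * (π / q)) - C (j + 1) * cos (j * (π / q))) := by
    rw [Finset.mul_sum, Finset.mul_sum, ← Finset.sum_add_distrib, ← Finset.sum_add_distrib]
    apply Finset.sum_congr rfl
    intro j _
    have g1 : G j = H j + G 0 * C j := by rw [hH]; ring
    have g2 : G (j + 1) = H (j + 1) + G 0 * C (j + 1) := by rw [hH]; ring
    have g3 : cos ((j : ℝ) * (π / q)) = C j := rfl
    have g4 : cos (((j + 1 : ℕ) : ℝ) * (π / q)) = C (j + 1) := rfl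
    rw [g1, g2, g3, g4]
    ring
  rw [e, b1, b2]
  linarith

theorem quad {q : ℕ} (hq : 2 ≤ q) (F : ℕ → ℝ) (hF : ∀ j, F (j + 2 * q) = F j)
    (A B : ℕ → ℝ) (hA : ∀ j, 0 < A j) (hB : ∀ j, 0 < B j)
    (hc : ∑ j ∈ range (2 * q), (A j * cos (j * (π / q)) + B j * cos ((j + 1) * (π / q))) = 0)
    (hs : ∑ j ∈ range (2 * q), (A j * sin (j * (π / q)) + B j * sin ((j + 1) * (π / q))) = 0)
    (hm : ∑ j ∈ range (2 * q), (A j * F j + B j * F (j + 1)) = 0) :
    ∑ j ∈ range (2 * q), F j * F (j + 1) ≤ cos (π / q) * ∑ j ∈ range (2 * q), F j ^ 2 := by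
  have hq0 : (0 : ℝ) < q := by
    have : 0 < q := by omega
    exact_mod_cast this
  have hq2 : (2 : ℝ) ≤ q := by exact_mod_cast hq
  have h2 : ((2 * q : ℕ) : ℝ) * (π / q) = 2 * π := by push_cast; field_simp
  set D : ℝ := π / q with hD
  have hDpos : 0 < D := by rw [hD]; positivity
  have hqD : (q : ℝ) * D = π := by rw [hD]; field_simp
  have hDlt : D < π := by nlinarith [pi_pos]
  have hF2 : F (2 * q) = F 0 := by simpa using hF 0
  -- the weights
  set w : ℕ → ℝ := fun j => if j = 0 then B (2 * q - 1) else B (j - 1) with hw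
  set v : ℕ → ℝ := fun j => A j + w j with hv
  have hwpos : ∀ j, 0 < w j := by
    intro j; rw [hw]; simp only; split_ifs <;> exact hB _
  have hvpos : ∀ j, 0 < v j := fun j => add_pos (hA j) (hwpos j)
  have hwt : ∀ X : ℕ → ℝ, X (2 * q) = X 0 →
      ∑ j ∈ range (2 * q), (A j * X j + B j * X (j + 1)) = ∑ j ∈ range (2 * q), v j * X j := by
    intro X hX
    have hsh := quad_shift (fun j => w j * X j) (2 * q) (by
      rw [hX, hw]
      simp only [if_true]
      rw [if_neg (by omega)])
    have hsh' : ∑ j ∈ range (2 * q), B j * X (j + 1) = ∑ j ∈ range (2 * q), w j * X j := by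
      rw [← hsh]
      apply Finset.sum_congr rfl
      intro j _
      rw [hw]
      simp
    rw [Finset.sum_add_distrib, hsh', ← Finset.sum_add_distrib]
    apply Finset.sum_congr rfl
    intro j _
    rw [hv]; ring
  have hvc : ∑ j ∈ range (2 * q), v j * cos (j * D) = 0 := by
    have := hwt (fun j => cos (j * D)) (by
      rw [h2, cos_two_pi]; simp)
    rw [← this, ← hc]
    apply Finset.sum_congr rfl
    intro j _
    push_cast
    rfl
  have hvs : ∑ j ∈ range (2 * q), v j * sin (j * D) = 0 := by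
    have := hwt (fun j => sin (j * D)) (by
      rw [h2, sin_two_pi]; simp)
    rw [← this, ← hs]
    apply Finset.sum_congr rfl
    intro j _
    push_cast
    rfl
  have hvF : ∑ j ∈ range (2 * q), v j * F j = 0 := by
    rw [← hwt F hF2, hm]
  have hfull : ∀ x : ℝ, ∑ i ∈ range (2 * q), v i * sin (x - i * D) = 0 := by
    intro x
    have : ∀ i ∈ range (2 * q), v i * sin (x - i * D) =
        sin x * (v i * cos (i * D)) - cos x * (v i * sin (i * D)) := by
      intro i _; rw [sin_sub]; ring
    rw [Finset.sum_congr rfl this, Finset.sum_sub_distrib, ← Finset.mul_sum, ← Finset.mul_sum,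
      hvc, hvs]
    ring
  -- the solution of the second order recursion
  set V : ℕ → ℝ := fun j => ∑ i ∈ range j, v i * sin (j * D - i * D) with hV
  set W : ℕ → ℝ := fun j => ∑ i ∈ range j, v i * sin (j * D - D - i * D) with hW
  have hV0 : V 0 = 0 := by rw [hV]; simp
  have hW0 : W 0 = 0 := by rw [hW]; simp
  have hV2 : V (2 * q) = 0 := by rw [hV]; exact hfull _
  have hW2 : W (2 * q) = 0 := by rw [hW]; exact hfull _
  have hWV : ∀ j, W (j + 1) = V j := by
    intro j
    rw [hW, hV]
    simp only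
    rw [Finset.sum_range_succ]
    have e : ((j + 1 : ℕ) : ℝ) * D - D = j * D := by push_cast; ring
    rw [e, sub_self, sin_zero, mul_zero, add_zero]
  have hrec : ∀ j, V (j + 1) + W j - 2 * cos D * V j = sin D * v j := by
    intro j
    have e1 : V (j + 1) = ∑ i ∈ range j, v i * sin (j * D + D - i * D) + v j * sin D := by
      rw [hV]
      simp only
      rw [Finset.sum_range_succ]
      have e : ((j + 1 : ℕ) : ℝ) * D = j * D + D := by push_cast; ring
      rw [e]
      have e' : (j : ℝ) * D + D - j * D = D := by ring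
      rw [e']
    have e2 : ∑ i ∈ range j, v i * sin (j * D + D - i * D) + W j - 2 * cos D * V j = 0 := by
      rw [hW, hV]
      simp only
      rw [Finset.mul_sum, ← Finset.sum_add_distrib, ← Finset.sum_sub_distrib]
      apply Finset.sum_eq_zero
      intro i _
      have f1 : (j : ℝ) * D + D - i * D = (j * D - i * D) + D := by ring
      have f2 : (j : ℝ) * D - D - i * D = (j * D - i * D) - D := by ring
      rw [f1, f2, sin_add (j * D - i * D) D, sin_sub (j * D - i * D) D]
      ring
    rw [e1]; linarith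
  have hform : ∀ X : ℕ → ℝ, ∑ j ∈ range (2 * q), (2 * cos D * (V j * X j) - V j * X (j + 1)
      - V (j + 1) * X j) = - sin D * ∑ j ∈ range (2 * q), v j * X j := by
    intro X
    have hsh := quad_shift (fun j => W j * X j) (2 * q) (by rw [hW2, hW0]; ring)
    have hsh' : ∑ j ∈ range (2 * q), V j * X (j + 1) = ∑ j ∈ range (2 * q), W j * X j := by
      rw [← hsh]
      apply Finset.sum_congr rfl
      intro j _
      rw [hWV]
    rw [Finset.sum_sub_distrib, Finset.sum_sub_distrib, hsh', ← Finset.sum_sub_distrib,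
      ← Finset.sum_sub_distrib, Finset.mul_sum]
    apply Finset.sum_congr rfl
    intro j _
    have := hrec j
    have e : 2 * cos D * (V j * X j) - W j * X j - V (j + 1) * X j =
      -(V (j + 1) + W j - 2 * cos D * V j) * X j := by ring
    rw [e, this]; ring
  have hVnn : ∀ j ∈ range (2 * q), 0 ≤ V j := by
    intro j hj
    have hj' : j < 2 * q := Finset.mem_range.mp hj
    by_cases hjq : j ≤ q
    · rw [hV]
      apply Finset.sum_nonneg
      intro i hi
      have hi' : i < j := Finset.mem_range.mp hi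
      have r1 : (i : ℝ) ≤ j := by exact_mod_cast hi'.le
      have r2 : (j : ℝ) ≤ q := by exact_mod_cast hjq
      have r3 : (0 : ℝ) ≤ i := Nat.cast_nonneg i
      apply mul_nonneg (hvpos i).le
      apply sin_nonneg_of_nonneg_of_le_pi
      · nlinarith
      · nlinarith
    · have hsum := Finset.sum_range_add_sum_Ico (fun i => v i * sin (j * D - i * D)) hj'.le
      rw [hfull] at hsum
      have hVj : V j = - ∑ i ∈ Finset.Ico j (2 * q), v i * sin (j * D - i * D) := by
        rw [hV]; simp only; linarith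
      rw [hVj, ← Finset.sum_neg_distrib]
      apply Finset.sum_nonneg
      intro i hi
      have hi' := Finset.mem_Ico.mp hi
      have r1 : (j : ℝ) ≤ i := by exact_mod_cast hi'.1
      have r2 : (i : ℝ) ≤ 2 * q := by exact_mod_cast hi'.2.le
      have r3 : (q : ℝ) ≤ j := by
        have : q ≤ j := by omega
        exact_mod_cast this
      have e : - (v i * sin (j * D - i * D)) = v i * sin (i * D - j * D) := by
        rw [← neg_sub ((i : ℝ) * D) (j * D), sin_neg]; ring
      rw [e]
      apply mul_nonneg (hvpos i).le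
      apply sin_nonneg_of_nonneg_of_le_pi
      · nlinarith
      · nlinarith
  have hVq : 0 < V q := by
    rw [hV]
    apply Finset.sum_pos' 
    · intro i hi
      have hi' : i < q := Finset.mem_range.mp hi
      have r1 : (i : ℝ) ≤ q := by exact_mod_cast hi'.le
      have r3 : (0 : ℝ) ≤ i := Nat.cast_nonneg i
      apply mul_nonneg (hvpos i).le
      apply sin_nonneg_of_nonneg_of_le_pi
      · nlinarith
      · nlinarith
    · refine ⟨q - 1, Finset.mem_range.mpr (by omega), ?_⟩
      apply mul_pos (hvpos _)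
      have e : (q : ℝ) * D - ((q - 1 : ℕ) : ℝ) * D = D := by
        rw [Nat.cast_sub (by omega)]; push_cast; ring
      rw [e]
      exact sin_pos_of_pos_of_lt_pi hDpos hDlt
  have hsin : 0 < sin D := sin_pos_of_pos_of_lt_pi hDpos hDlt
  -- the combination with opposite values
  set x : ℝ := -(F 0 + F q) / V q with hx
  set G : ℕ → ℝ := fun j => F j + x * V j with hG
  have hG2 : G (2 * q) = G 0 := by rw [hG]; simp only; rw [hV2, hV0, hF2]
  have hGo : G 0 + G q = 0 := by
    rw [hG]; simp only; rw [hV0, hx]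
    field_simp
    ring
  have hpos := quad_opp hq G hG2 hGo
  rw [← hD] at hpos
  have f1 := hform F
  have f2 := hform V
  rw [hvF, mul_zero] at f1
  have hVV : 0 ≤ ∑ j ∈ range (2 * q), v j * V j :=
    Finset.sum_nonneg (fun j hj => mul_nonneg (hvpos j).le (hVnn j hj))
  have e : ∑ j ∈ range (2 * q), (2 * cos D * G j ^ 2 - 2 * (G j * G (j + 1))) =
      ∑ j ∈ range (2 * q), (2 * cos D * F j ^ 2 - 2 * (F j * F (j + 1)))
      + 2 * x * ∑ j ∈ range (2 * q), (2 * cos D * (V j * F j) - V j * F (j + 1)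
      - V (j + 1) * F j)
      + x ^ 2 * ∑ j ∈ range (2 * q), (2 * cos D * (V j * V j) - V j * V (j + 1)
      - V (j + 1) * V j) := by
    rw [Finset.mul_sum, Finset.mul_sum, ← Finset.sum_add_distrib, ← Finset.sum_add_distrib]
    apply Finset.sum_congr rfl
    intro j _
    rw [hG]
    ring
  rw [e, f1, f2] at hpos
  have hfin : 0 ≤ ∑ j ∈ range (2 * q), (2 * cos D * F j ^ 2 - 2 * (F j * F (j + 1))) := by
    have : 0 ≤ x ^ 2 * (sin D * ∑ j ∈ range (2 * q), v j * V j) :=
      mul_nonneg (sq_nonneg x) (mul_nonneg hsin.le hVV)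
    nlinarith
  have e3 : ∑ j ∈ range (2 * q), (2 * cos D * F j ^ 2 - 2 * (F j * F (j + 1))) =
      2 * (cos D * ∑ j ∈ range (2 * q), F j ^ 2) - 2 * ∑ j ∈ range (2 * q), F j * F (j + 1) := by
    rw [Finset.sum_sub_distrib, ← Finset.mul_sum, ← Finset.mul_sum]
    ring
  rw [e3] at hfin
  linarith

end Pool.Agent.H95G
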